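import Pool.Agent.Lib.MP_05cdf2_gt.E.EDef

/-! MP_05cdf2_gt, stream E, job ECa: the columns `p ≥ 1` of the double complex, part 1.

`K` is a normal subgroup of `Γ`, `β = Γ ⧸ K`, `α = Γ` (both with the action of `Γ` by left multiplication).

Choose `r : Γ ⧸ K → Γ` with `(r σ : Γ ⧸ K) = σ` (`Quotient.out`). `hd (σ :: s') = (r σ)⁻¹`, `hd [] = 1`. For a nonempty list `s` put
`nf s = s.map (hd s • ·)`; it starts with `1 : Γ ⧸ K`, and `nf (s.map (γ • ·)) = nf s` for `γ ∈ Γ`, because `hd (γ • s) * γ = k * hd s` with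
`k ∈ K` and `K` acts trivially on `Γ ⧸ K` (`K` normal).

`colA : Ch2 (Γ ⧸ K) Γ →ₗ[ℤ] (List (Γ ⧸ K) →₀ (Ch Γ ⧸ KL K Γ))`, `colA (single (s, l) 1) = single (nf s) [single (l.map (hd s • ·)) 1]` for
`s ≠ []` and `0` for `s = []`.
`colA_K2`: `colA` vanishes on `K2`: `hd (γ • s) • γ • l = k • hd s • l` with `k ∈ K`, `γ • [] = []`.
`colA_d2`: `colA (d2 x) = colBd (colA x)` where `colBd` applies the map induced by `bd` on `Ch Γ ⧸ KL K Γ` (`KL_bd`) to each value.
`colA_tn`: `colA (tn (single s 1) z) = single (nf s) (mk (aL (hd s) z))` for `s ≠ []`.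
`col_dec`: every `x ∈ S2 (p+1) q` is congruent mod `K2` to a sum `∑ tn (single t 1) (c t)` over a finite set of `t` with `nf t = t`, `t ≠ []`,
`t.length = p + 1`, with `c t ∈ Sup (Len univ q)`: `(s, l) = tn (single s 1) (single l 1)` is congruent to
`aL2 (hd s) (s, l) = (nf s, l.map (hd s • ·))`, and `nf (nf s) = nf s`: `hd (nf s) = (r 1)⁻¹ ∈ K` acts trivially.
(Collect the terms with the same `t`: `c` a finitely supported function with values in `Ch Γ`.) Then `colA x t = [c t]` for all `t`: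
`colA` of the sum is `∑ single (nf t) [aL (hd t) (c t)]`, `nf t = t`, and `hd t = (Quotient.out 1)⁻¹ ∈ K` (the first entry of `t = nf t` is
`1`), so `aL (hd t) (c t) ≡ c t`. -/

set_option autoImplicit false

namespace TorE
open Finsupp Tor

variable {Γ : Type} [Group Γ] (K : Subgroup Γ)

/-- the inverse of a representative of the first entry -/
noncomputable def hd : List (Γ ⧸ K) → Γ
  | [] => 1
  | σ :: _ => (Quotient.out σ)⁻¹

/-- the normal form of a list -/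
noncomputable def nf (s : List (Γ ⧸ K)) : List (Γ ⧸ K) := s.map (hd K s • ·)

variable {K}

theorem nf_length (s : List (Γ ⧸ K)) : (nf K s).length = s.length := by
  unfold nf
  rw [List.length_map]

theorem nf_ne_nil {s : List (Γ ⧸ K)} (hs : s ≠ []) : nf K s ≠ [] := by
  unfold nf
  rw [ne_eq, List.map_eq_nil_iff]
  exact hs

theorem map_smul_K [K.Normal] {k : Γ} (hk : k ∈ K) (s : List (Γ ⧸ K)) : s.map (k • ·) = s := by
  have h1 : ∀ σ : Γ ⧸ K, k • σ = σ := by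
    intro σ
    induction σ using QuotientGroup.induction_on with
    | H g =>
      show ((k * g : Γ) : Γ ⧸ K) = (g : Γ ⧸ K)
      rw [QuotientGroup.eq]
      have h2 := Subgroup.Normal.conj_mem inferInstance k⁻¹ (K.inv_mem hk) g⁻¹
      have h3 : (k * g)⁻¹ * g = g⁻¹ * k⁻¹ * g⁻¹⁻¹ := by group
      rw [h3]
      exact h2
  conv_rhs => rw [← List.map_id s]
  exact List.map_congr_left fun σ _ => h1 σ

theorem hd_smul [K.Normal] (γ : Γ) {s : List (Γ ⧸ K)} (hs : s ≠ []) :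
    ∃ k ∈ K, hd K (s.map (γ • ·)) * γ = k * hd K s := by
  cases s with
  | nil => exact absurd rfl hs
  | cons σ s' =>
    refine ⟨(Quotient.out (γ • σ))⁻¹ * (γ * Quotient.out σ), ?_, ?_⟩
    · rw [← QuotientGroup.eq]
      have h1 : ((Quotient.out (γ • σ) : Γ) : Γ ⧸ K) = γ • σ := QuotientGroup.out_eq' _
      have h2 : ((Quotient.out σ : Γ) : Γ ⧸ K) = σ := QuotientGroup.out_eq' _
      rw [h1]
      show γ • σ = γ • ((Quotient.out σ : Γ) : Γ ⧸ K)
      rw [h2]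
    · show (Quotient.out (γ • σ))⁻¹ * γ = _ * (Quotient.out σ)⁻¹
      group

theorem nf_smul [K.Normal] (γ : Γ) (s : List (Γ ⧸ K)) (hs : s ≠ []) : nf K (s.map (γ • ·)) = nf K s := by
  obtain ⟨k, hk, h1⟩ := hd_smul (K := K) γ hs
  have h2 : nf K (s.map (γ • ·)) = (nf K s).map (k • ·) := by
    unfold nf
    rw [List.map_map, List.map_map]
    refine List.map_congr_left fun σ _ => ?_
    show hd K (s.map (γ • ·)) • γ • σ = k • hd K s • σ
    rw [smul_smul, smul_smul, h1]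
  rw [h2, map_smul_K hk]

theorem nf_nf [K.Normal] (s : List (Γ ⧸ K)) : nf K (nf K s) = nf K s := by
  by_cases hs : s = []
  · subst hs
    rfl
  · exact nf_smul (hd K s) s hs

theorem aL_nf [K.Normal] (s : List (Γ ⧸ K)) :
    ∃ h : Γ, aL h (single s 1 : Ch (Γ ⧸ K)) = single (nf K s) 1 := ⟨hd K s, by rw [aL_single]; rfl⟩

variable (K)

/-- the columns -/
noncomputable def colA : Ch2 (Γ ⧸ K) Γ →ₗ[ℤ] (List (Γ ⧸ K) →₀ (Ch Γ ⧸ KL K Γ)) :=
  Finsupp.linearCombination ℤ (fun x : List (Γ ⧸ K) × List Γ =>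
    if x.1 = [] then 0 else single (nf K x.1) ((KL K Γ).mkQ (single (x.2.map (hd K x.1 • ·)) 1)))

variable {K}

theorem colA_single {s : List (Γ ⧸ K)} (hs : s ≠ []) (l : List Γ) :
    colA K (single (s, l) 1) = single (nf K s) ((KL K Γ).mkQ (single (l.map (hd K s • ·)) 1)) := by
  unfold colA
  rw [Finsupp.linearCombination_single, one_smul, if_neg hs]

/-- the lifted columns -/
private noncomputable def ECa_col (K : Subgroup Γ) :
    Ch2 (Γ ⧸ K) Γ →ₗ[ℤ] (List (Γ ⧸ K) →₀ Ch Γ) :=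
  Finsupp.linearCombination ℤ (fun x : List (Γ ⧸ K) × List Γ =>
    if x.1 = [] then 0 else single (nf K x.1) (single (x.2.map (hd K x.1 • ·)) 1))

private theorem ECa_col_single {s : List (Γ ⧸ K)} (hs : s ≠ []) (l : List Γ) :
    ECa_col K (single (s, l) 1) = single (nf K s) (single (l.map (hd K s • ·)) 1) := by
  unfold ECa_col
  rw [Finsupp.linearCombination_single, one_smul, if_neg hs]

private theorem ECa_col_nil (l : List Γ) :
    ECa_col K (single (([] : List (Γ ⧸ K)), l) 1) = 0 := by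
  unfold ECa_col
  rw [Finsupp.linearCombination_single, one_smul, if_pos rfl]

private theorem ECa_colA_nil (l : List Γ) :
    colA K (single (([] : List (Γ ⧸ K)), l) 1) = 0 := by
  unfold colA
  rw [Finsupp.linearCombination_single, one_smul, if_pos rfl]

private theorem ECa_col_tn {s : List (Γ ⧸ K)} (hs : s ≠ []) (z : Ch Γ) :
    ECa_col K (tn (single s 1) z) = single (nf K s) (aL (hd K s) z) := by
  have h1 : (ECa_col K ∘ₗ tn (single s 1)) =
      (Finsupp.lsingle (nf K s) : Ch Γ →ₗ[ℤ] (List (Γ ⧸ K) →₀ Ch Γ)) ∘ₗ aL (hd K s) := by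
    apply Ch.ext_lin
    intro l
    show ECa_col K (tn (single s 1) (single l 1)) = single (nf K s) (aL (hd K s) (single l 1))
    rw [tn_single, mul_one, ECa_col_single hs, aL_single]
  exact LinearMap.congr_fun h1 z

private theorem ECa_col_tn_nil (z : Ch Γ) :
    ECa_col K (tn (single ([] : List (Γ ⧸ K)) 1) z) = 0 := by
  have h1 : (ECa_col K ∘ₗ tn (single ([] : List (Γ ⧸ K)) 1)) = 0 := by
    apply Ch.ext_lin
    intro l
    show ECa_col K (tn (single [] 1) (single l 1)) = 0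
    rw [tn_single, mul_one, ECa_col_nil]
  exact LinearMap.congr_fun h1 z

private theorem ECa_colA_eq (x : Ch2 (Γ ⧸ K) Γ) (t : List (Γ ⧸ K)) :
    colA K x t = (KL K Γ).mkQ (ECa_col K x t) := by
  have h1 : (Finsupp.lapply t : (List (Γ ⧸ K) →₀ (Ch Γ ⧸ KL K Γ)) →ₗ[ℤ] (Ch Γ ⧸ KL K Γ)) ∘ₗ
      colA K = (KL K Γ).mkQ ∘ₗ
      (Finsupp.lapply t : (List (Γ ⧸ K) →₀ Ch Γ) →ₗ[ℤ] Ch Γ) ∘ₗ ECa_col K := by
    refine LinearMap.ext fun x => ?_
    refine bc_ext (f := (Finsupp.lapply t : (List (Γ ⧸ K) →₀ (Ch Γ ⧸ KL K Γ)) →ₗ[ℤ]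
      (Ch Γ ⧸ KL K Γ)) ∘ₗ colA K) (g := (KL K Γ).mkQ ∘ₗ
      (Finsupp.lapply t : (List (Γ ⧸ K) →₀ Ch Γ) →ₗ[ℤ] Ch Γ) ∘ₗ ECa_col K) ?_ x
    intro s l
    rw [tn_single, mul_one]
    show (colA K (single (s, l) 1)) t = (KL K Γ).mkQ ((ECa_col K (single (s, l) 1)) t)
    by_cases hs : s = []
    · subst hs
      rw [ECa_colA_nil, ECa_col_nil, Finsupp.zero_apply, Finsupp.zero_apply, map_zero]
    · rw [colA_single hs, ECa_col_single hs]
      by_cases ht : nf K s = t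
      · subst ht
        rw [Finsupp.single_eq_same, Finsupp.single_eq_same]
      · rw [Finsupp.single_eq_of_ne' ht, Finsupp.single_eq_of_ne' ht, map_zero]
  exact LinearMap.congr_fun h1 x

private theorem ECa_col_d2 (x : Ch2 (Γ ⧸ K) Γ) (t : List (Γ ⧸ K)) :
    ECa_col K (d2 x) t = bd (ECa_col K x t) := by
  refine bc_ext (f := (Finsupp.lapply t : (List (Γ ⧸ K) →₀ Ch Γ) →ₗ[ℤ] Ch Γ) ∘ₗ ECa_col K ∘ₗ d2)
    (g := bd ∘ₗ (Finsupp.lapply t : (List (Γ ⧸ K) →₀ Ch Γ) →ₗ[ℤ] Ch Γ) ∘ₗ ECa_col K) ?_ x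
  intro s l
  show ECa_col K (d2 (tn (single s 1) (single l 1))) t =
    bd (ECa_col K (tn (single s 1) (single l 1)) t)
  rw [bc_d2_tn]
  by_cases hs : s = []
  · subst hs
    rw [ECa_col_tn_nil, ECa_col_tn_nil, Finsupp.zero_apply, map_zero]
  · rw [ECa_col_tn hs, ECa_col_tn hs]
    by_cases ht : nf K s = t
    · subst ht
      rw [Finsupp.single_eq_same, Finsupp.single_eq_same, bc_bd_aL]
    · rw [Finsupp.single_eq_of_ne' ht, Finsupp.single_eq_of_ne' ht, map_zero]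

theorem colA_tn {s : List (Γ ⧸ K)} (hs : s ≠ []) (z : Ch Γ) :
    colA K (tn (single s 1) z) = single (nf K s) ((KL K Γ).mkQ (aL (hd K s) z)) := by
  refine Finsupp.ext fun t => ?_
  rw [ECa_colA_eq, ECa_col_tn hs]
  by_cases ht : nf K s = t
  · subst ht
    rw [Finsupp.single_eq_same, Finsupp.single_eq_same]
  · rw [Finsupp.single_eq_of_ne' ht, Finsupp.single_eq_of_ne' ht, map_zero]

theorem colA_K2 [K.Normal] {x : Ch2 (Γ ⧸ K) Γ} (hx : x ∈ K2 Γ (Γ ⧸ K) Γ) : colA K x = 0 := by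
  have key : ∀ (γ : Γ) (y : Ch2 (Γ ⧸ K) Γ), colA K (aL2 γ y) = colA K y := by
    intro γ y
    refine bc_ext (f := colA K ∘ₗ aL2 γ) (g := colA K) ?_ y
    intro s l
    show colA K (aL2 γ (tn (single s 1) (single l 1))) = colA K (tn (single s 1) (single l 1))
    rw [bc_aL2_tn, aL_single, aL_single, tn_single, tn_single, mul_one]
    by_cases hs : s = []
    · subst hs
      rw [List.map_nil, ECa_colA_nil, ECa_colA_nil]
    · have hs' : s.map (γ • ·) ≠ [] := by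
        rw [ne_eq, List.map_eq_nil_iff]
        exact hs
      rw [colA_single hs', colA_single hs, nf_smul γ s hs]
      congr 1
      obtain ⟨k, hk, h1⟩ := hd_smul (K := K) γ hs
      have h2 : (single ((l.map (γ • ·)).map (hd K (s.map (γ • ·)) • ·)) 1 : Ch Γ) =
          aL k (single (l.map (hd K s • ·)) 1) := by
        rw [aL_single, List.map_map, List.map_map]
        congr 1
        refine List.map_congr_left fun a _ => ?_
        show hd K (s.map (γ • ·)) • γ • a = k • hd K s • a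
        rw [smul_smul, smul_smul, h1]
      rw [h2, ← sub_eq_zero, ← map_sub, Submodule.mkQ_apply, Submodule.Quotient.mk_eq_zero]
      exact KL_single hk _
  have h1 : K2 Γ (Γ ⧸ K) Γ ≤ LinearMap.ker (colA K) := by
    refine Submodule.span_le.2 ?_
    rintro _ ⟨γ, -, y, rfl⟩
    show colA K (aL2 γ y - y) = 0
    rw [map_sub, key, sub_self]
  exact h1 hx

theorem colA_d2 [K.Normal] (x : Ch2 (Γ ⧸ K) Γ) (t : List (Γ ⧸ K)) :
    ∃ c c' : Ch Γ, colA K x t = (KL K Γ).mkQ c ∧ colA K (d2 x) t = (KL K Γ).mkQ c' ∧ c' - bd c ∈ KL K Γ := by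
  refine ⟨ECa_col K x t, ECa_col K (d2 x) t, ECa_colA_eq x t, ECa_colA_eq (d2 x) t, ?_⟩
  rw [ECa_col_d2, sub_self]
  exact Submodule.zero_mem _

theorem colA_d2' [K.Normal] (x : Ch2 (Γ ⧸ K) Γ) (t : List (Γ ⧸ K)) {c : Ch Γ}
    (hc : colA K x t = (KL K Γ).mkQ c) : colA K (d2 x) t = (KL K Γ).mkQ (bd c) := by
  rw [ECa_colA_eq] at hc
  rw [ECa_colA_eq, ECa_col_d2]
  rw [← sub_eq_zero, ← map_sub, Submodule.mkQ_apply, Submodule.Quotient.mk_eq_zero] at hc ⊢
  rw [← map_sub]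
  exact KL_bd hc

theorem col_dec [K.Normal] {p q : ℕ} {x : Ch2 (Γ ⧸ K) Γ} (hx : x ∈ S2 (Γ ⧸ K) Γ (p + 1) q) :
    ∃ c : List (Γ ⧸ K) →₀ Ch Γ, (∀ t ∈ c.support, nf K t = t ∧ t ≠ [] ∧ t.length = p + 1) ∧
      (∀ t, c t ∈ Sup (Len Set.univ q)) ∧
      x - c.sum (fun t z => tn (single t 1) z) ∈ K2 Γ (Γ ⧸ K) Γ ∧
      ∀ t, colA K x t = (KL K Γ).mkQ (c t) := by
  classical
  refine ⟨ECa_col K x, ?_, ?_, ?_, fun t => ECa_colA_eq x t⟩
  · -- the support
    have h1 : ECa_col K x ∈ Finsupp.supported (Ch Γ) ℤ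
        {t : List (Γ ⧸ K) | nf K t = t ∧ t ≠ [] ∧ t.length = p + 1} := by
      refine bc_map_supp (ECa_col K) _ ?_ hx
      rintro ⟨s, l⟩ ⟨⟨-, h2⟩, -⟩
      have hs : s ≠ [] := by
        rintro rfl
        simp at h2
      rw [ECa_col_single hs]
      refine Finsupp.single_mem_supported ℤ _ ⟨nf_nf s, nf_ne_nil hs, ?_⟩
      rw [nf_length]
      exact h2
    intro t ht
    exact (Finsupp.mem_supported ℤ _).1 h1 ht
  · -- the values
    intro t
    refine bc_map_supp ((Finsupp.lapply t : (List (Γ ⧸ K) →₀ Ch Γ) →ₗ[ℤ] Ch Γ) ∘ₗ ECa_col K) _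
      ?_ hx
    rintro ⟨s, l⟩ ⟨⟨-, h2⟩, h3⟩
    have hs : s ≠ [] := by
      rintro rfl
      simp at h2
    show ECa_col K (single (s, l) 1) t ∈ Sup (Len Set.univ q)
    rw [ECa_col_single hs]
    by_cases ht : nf K s = t
    · subst ht
      rw [Finsupp.single_eq_same]
      refine single_mem_Sup (S := Len Set.univ q) ⟨trivial, ?_⟩ 1
      rw [List.length_map]
      exact h3
    · rw [Finsupp.single_eq_of_ne' ht]
      exact Submodule.zero_mem _
  · -- the congruence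
    let g : (List (Γ ⧸ K) →₀ Ch Γ) →ₗ[ℤ] Ch2 (Γ ⧸ K) Γ :=
      Finsupp.lsum ℤ (fun t => (tn (single t 1) : Ch Γ →ₗ[ℤ] Ch2 (Γ ⧸ K) Γ))
    have hg : (ECa_col K x).sum (fun t z => tn (single t 1) z) = g (ECa_col K x) := rfl
    rw [hg]
    refine bc_map_supp (LinearMap.id - g ∘ₗ ECa_col K) _ ?_ hx
    rintro ⟨s, l⟩ ⟨⟨-, h2⟩, -⟩
    have hs : s ≠ [] := by
      rintro rfl
      simp at h2
    show (single (s, l) 1 : Ch2 (Γ ⧸ K) Γ) - g (ECa_col K (single (s, l) 1)) ∈ K2 Γ (Γ ⧸ K) Γ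
    have h4 : g (ECa_col K (single (s, l) 1)) = aL2 (hd K s) (single (s, l) 1 : Ch2 (Γ ⧸ K) Γ) := by
      rw [ECa_col_single hs]
      show (Finsupp.lsum ℤ (fun t => (tn (single t 1) : Ch Γ →ₗ[ℤ] Ch2 (Γ ⧸ K) Γ)))
        (single (nf K s) (single (l.map (hd K s • ·)) 1)) = _
      rw [Finsupp.lsum_single, tn_single, mul_one]
      simp only [aL2, Finsupp.lmapDomain_apply, Finsupp.mapDomain_single]
      rfl
    rw [h4, ← neg_sub]
    exact Submodule.neg_mem _ (KL2_single (Subgroup.mem_top _) _)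

end TorE
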