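import Pool.Agent.Lib.MP_05cdf2_gt.E.EDef

/-! MP_05cdf2_gt, stream E, job ETf: the quotient `Ch α / KL N α` is free on the orbits of `N` on lists.

Let `om : List α → Quotient` be the projection to the orbits of `N` (setoid `l ~ l'` iff `∃ n ∈ N, l' = l.map (n • ·)`).
`KL_iff`: `x ∈ KL N α ↔ mapDomain om x = 0`. `→`: generators. `←`: choose representatives `out`; `single l 1 - single (out (om l)) 1 ∈ KL`,
so `x - mapDomain (out ∘ om) x ∈ KL` and the second term is `mapDomain out (mapDomain om x) = 0`.
`KL_tf`: torsion free: `mapDomain om (d • x) = d • mapDomain om x`, and `ℤ` has no zero divisors.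
`lenP q`: the part of a chain supported on lists of length `q` (`Finsupp.filter`, as a linear map); it preserves `KL`
(`aL n` preserves lengths).
`KL_len`: an element of `KL` supported on lists of length `q` is a combination of `aL n x - x` with `x` supported on lists of length
`q`: apply `lenP q`. -/

set_option autoImplicit false

namespace TorE
open Finsupp Tor

variable {H : Type} [Group H] {α : Type} [MulAction H α]

/-- the orbit relation on lists -/
def lsetoid (N : Subgroup H) (α : Type) [MulAction H α] : Setoid (List α) where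
  r l l' := ∃ n ∈ N, l' = l.map (n • ·)
  iseqv := {
    refl := fun l => ⟨1, N.one_mem, by simp⟩
    symm := by
      rintro l l' ⟨n, hn, rfl⟩
      refine ⟨n⁻¹, N.inv_mem hn, ?_⟩
      rw [List.map_map]
      have h : ((n⁻¹ • ·) ∘ (n • ·) : α → α) = id := by
        funext a
        simp
      rw [h, List.map_id]
    trans := by
      rintro l l' l'' ⟨n, hn, rfl⟩ ⟨m, hm, rfl⟩
      refine ⟨m * n, N.mul_mem hm hn, ?_⟩
      rw [List.map_map]
      congr 1
      funext a
      show m • n • a = (m * n) • a
      rw [mul_smul] }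

theorem ETf_om (N : Subgroup H) {n : H} (hn : n ∈ N) (x : Ch α) :
    mapDomain (Quotient.mk (lsetoid N α)) (aL n x) = mapDomain (Quotient.mk (lsetoid N α)) x := by
  unfold aL
  rw [lmapDomain_apply, ← mapDomain_comp]
  congr 1
  funext l
  refine (Quotient.sound (s := lsetoid N α) ?_).symm
  exact ⟨n, hn, rfl⟩

theorem ETf_out (N : Subgroup H) (x : Ch α) :
    x - mapDomain (Quotient.out ∘ Quotient.mk (lsetoid N α)) x ∈ KL N α := by
  induction x using Finsupp.induction_linear with
  | zero => rw [mapDomain_zero, sub_zero]; exact Submodule.zero_mem _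
  | add a b ha hb =>
    rw [mapDomain_add, add_sub_add_comm]
    exact Submodule.add_mem _ ha hb
  | single l a =>
    rw [mapDomain_single, Function.comp_apply]
    obtain ⟨n, hn, e⟩ := Quotient.mk_out (s := lsetoid N α) l
    have h1 : (single l a : Ch α) =
        aL n (single (Quotient.out (Quotient.mk (lsetoid N α) l)) a) := by
      rw [aL_single, ← e]
    nth_rewrite 1 [h1]
    exact KL_single hn _

theorem KL_iff (N : Subgroup H) (x : Ch α) :
    x ∈ KL N α ↔ mapDomain (Quotient.mk (lsetoid N α)) x = 0 := by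
  constructor
  · intro hx
    have h1 : KL N α ≤ LinearMap.ker
        (Finsupp.lmapDomain ℤ ℤ (Quotient.mk (lsetoid N α))) := by
      refine Submodule.span_le.2 ?_
      rintro _ ⟨n, hn, y, rfl⟩
      rw [SetLike.mem_coe, LinearMap.mem_ker, map_sub, lmapDomain_apply, lmapDomain_apply,
        ETf_om N hn, sub_self]
    have h2 := h1 hx
    rwa [LinearMap.mem_ker, lmapDomain_apply] at h2
  · intro hx
    have h1 := ETf_out N x
    rw [mapDomain_comp, hx, mapDomain_zero, sub_zero] at h1
    exact h1

theorem KL_tf (N : Subgroup H) {d : ℤ} (hd : d ≠ 0) {x : Ch α} (h : d • x ∈ KL N α) : x ∈ KL N α := by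
  rw [KL_iff] at h ⊢
  rw [mapDomain_smul] at h
  exact (smul_eq_zero.1 h).resolve_left hd

/-- the part of length `q` -/
noncomputable def lenP (α : Type) (q : ℕ) : Ch α →ₗ[ℤ] Ch α where
  toFun c := c.filter (fun l => l.length = q)
  map_add' _ _ := Finsupp.filter_add
  map_smul' _ _ := Finsupp.filter_smul

theorem lenP_mem (q : ℕ) (c : Ch α) : lenP α q c ∈ Sup (Len Set.univ q) := by
  rw [Finsupp.mem_supported]
  intro l hl
  have h1 : l ∈ (c.filter (fun l => l.length = q)).support := hl
  rw [Finsupp.support_filter, Finset.mem_filter] at h1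
  exact ⟨trivial, h1.2⟩

theorem ETf_single_pos {q : ℕ} {l : List α} (h : l.length = q) (a : ℤ) :
    lenP α q (single l a) = single l a :=
  Finsupp.filter_single_of_pos (p := fun l : List α => l.length = q) h

theorem ETf_single_neg {q : ℕ} {l : List α} (h : l.length ≠ q) (a : ℤ) :
    lenP α q (single l a) = 0 :=
  Finsupp.filter_single_of_neg (p := fun l : List α => l.length = q) h

theorem lenP_of_mem {q : ℕ} {c : Ch α} (hc : c ∈ Sup (Len Set.univ q)) : lenP α q c = c := by
  have h1 : (lenP α q - (LinearMap.id : Ch α →ₗ[ℤ] Ch α)) c ∈ (⊥ : Submodule ℤ (Ch α)) := by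
    refine map_Sup (lenP α q - (LinearMap.id : Ch α →ₗ[ℤ] Ch α)) ⊥ ?_ hc
    rintro l ⟨-, hl⟩
    rw [LinearMap.sub_apply, ETf_single_pos hl, LinearMap.id_apply, sub_self]
    exact Submodule.zero_mem _
  rw [Submodule.mem_bot, LinearMap.sub_apply, LinearMap.id_apply, sub_eq_zero] at h1
  exact h1

theorem ETf_zero {q q' : ℕ} (hq : q' ≠ q) {c : Ch α} (hc : c ∈ Sup (Len Set.univ q')) :
    lenP α q c = 0 := by
  have h1 : lenP α q c ∈ (⊥ : Submodule ℤ (Ch α)) := by
    refine map_Sup (lenP α q) ⊥ ?_ hc
    rintro l ⟨-, hl⟩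
    rw [ETf_single_neg (by rw [hl]; exact hq)]
    exact Submodule.zero_mem _
  rwa [Submodule.mem_bot] at h1

theorem ETf_bdL {q : ℕ} {l : List α} (h : l.length = q + 1) :
    bdL l ∈ Sup (Len Set.univ q) := by
  rw [Finsupp.mem_supported]
  intro l' hl'
  have h := (bdL_support l l' hl').2
  exact ⟨trivial, by omega⟩

theorem lenP_bd (q : ℕ) (c : Ch α) : lenP α q (bd c) = bd (lenP α (q + 1) c) := by
  have h1 : lenP α q ∘ₗ bd = bd ∘ₗ lenP α (q + 1) := by
    apply Ch.ext_lin
    intro l
    rw [LinearMap.comp_apply, LinearMap.comp_apply, bd_single, one_smul]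
    by_cases h : l.length = q + 1
    · rw [ETf_single_pos h, bd_single, one_smul, lenP_of_mem (ETf_bdL h)]
    · rw [ETf_single_neg h, map_zero]
      rcases Nat.eq_zero_or_pos l.length with h0 | h0
      · rw [List.length_eq_zero_iff] at h0
        rw [h0, bdL_nil, map_zero]
      · obtain ⟨k, hk⟩ : ∃ k, l.length = k + 1 := ⟨l.length - 1, by omega⟩
        exact ETf_zero (q' := k) (by omega) (ETf_bdL hk)
  exact LinearMap.congr_fun h1 c

theorem lenP_aL (q : ℕ) (h : H) (c : Ch α) : lenP α q (aL h c) = aL h (lenP α q c) := by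
  have h1 : lenP α q ∘ₗ (aL h : Ch α →ₗ[ℤ] Ch α) = aL h ∘ₗ lenP α q := by
    apply Ch.ext_lin
    intro l
    rw [LinearMap.comp_apply, LinearMap.comp_apply, aL_single]
    by_cases hl : l.length = q
    · rw [ETf_single_pos hl, aL_single, ETf_single_pos (by rw [List.length_map]; exact hl)]
    · rw [ETf_single_neg hl, map_zero, ETf_single_neg (by rw [List.length_map]; exact hl)]
  exact LinearMap.congr_fun h1 c

theorem lenP_KL {N : Subgroup H} (q : ℕ) {c : Ch α} (hc : c ∈ KL N α) : lenP α q c ∈ KL N α :=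
  KL_map (lenP α q) (fun n hn x => ⟨n, hn, lenP_aL q n x⟩) hc

theorem KL_len {N : Subgroup H} {q : ℕ} {c : Ch α} (hc : c ∈ KL N α) (hq : c ∈ Sup (Len Set.univ q)) :
    c ∈ Submodule.span ℤ {y : Ch α | ∃ n ∈ N, ∃ x ∈ Sup (Len (Set.univ : Set (List α)) q), y = aL n x - x} := by
  have h1 : KL N α ≤ (Submodule.span ℤ {y : Ch α | ∃ n ∈ N,
      ∃ x ∈ Sup (Len (Set.univ : Set (List α)) q), y = aL n x - x}).comap (lenP α q) := by
    refine Submodule.span_le.2 ?_
    rintro _ ⟨n, hn, x, rfl⟩
    rw [SetLike.mem_coe, Submodule.mem_comap, map_sub, lenP_aL]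
    exact Submodule.subset_span ⟨n, hn, lenP α q x, lenP_mem q x, rfl⟩
  have h2 := h1 hc
  rw [Submodule.mem_comap, lenP_of_mem hq] at h2
  exact h2

/-- the coefficient of the empty list vanishes on `KL` -/
theorem KL_nil {N : Subgroup H} {c : Ch α} (hc : c ∈ KL N α) : c [] = 0 := by
  have h1 : KL N α ≤ LinearMap.ker (Finsupp.lapply (R := ℤ) (M := ℤ) ([] : List α)) := by
    refine Submodule.span_le.2 ?_
    rintro _ ⟨n, hn, y, rfl⟩
    rw [SetLike.mem_coe, LinearMap.mem_ker, map_sub, Finsupp.lapply_apply, Finsupp.lapply_apply]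
    have h2 : (aL n y) ([] : List α) = y [] := by
      unfold aL
      rw [lmapDomain_apply]
      exact Finsupp.mapDomain_apply (List.map_injective_iff.2 (MulAction.injective n)) y []
    rw [h2, sub_self]
  have h2 := h1 hc
  rwa [LinearMap.mem_ker, Finsupp.lapply_apply] at h2

/-- cycles of length one bound -/
theorem ZL_one (N : Subgroup H) : ZL N α 1 ≤ BL N α 1 := by
  intro z hz
  rw [mem_ZL] at hz
  obtain ⟨hz1, hz2⟩ := hz
  have h1 : bd z ∈ Sup (Len (Set.univ : Set (List α)) 0) := Sup_bd hz1
  have h2 : bd z = 0 := by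
    refine Finsupp.ext fun l => ?_
    by_cases hl : l = []
    · rw [hl, KL_nil hz2, Finsupp.coe_zero, Pi.zero_apply]
    · by_contra h3
      have h4 : l ∈ (bd z).support := Finsupp.mem_support_iff.2 h3
      have h5 := ((Finsupp.mem_supported ℤ (bd z)).1 h1 h4).2
      exact hl (List.length_eq_zero_iff.1 h5)
  rw [mem_BL]
  rcases isEmpty_or_nonempty α with he | ⟨⟨a⟩⟩
  · refine ⟨0, Submodule.zero_mem _, ?_⟩
    have h3 : z = 0 := by
      refine Finsupp.ext fun l => ?_
      by_contra h3
      have h4 : l ∈ z.support := Finsupp.mem_support_iff.2 h3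
      have h5 := ((Finsupp.mem_supported ℤ z).1 hz1 h4).2
      cases l with
      | nil => simp at h5
      | cons b t => exact he.elim b
    rw [h3, map_zero, sub_zero]
    exact Submodule.zero_mem _
  · refine ⟨cone a z, ?_, ?_⟩
    · refine cone_mem_Sup a ?_ hz1
      rintro l ⟨-, hl⟩
      exact ⟨trivial, by rw [List.length_cons, hl]⟩
    · rw [bd_cone, h2, map_zero, sub_zero, sub_self]
      exact Submodule.zero_mem _

/-- length zero -/
theorem HLf_zero (N : Subgroup H) : HLf N α 0 := by
  have h1 : ZL N α 0 = Submodule.span ℤ {(single [] 1 : Ch α)} := by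
    refine le_antisymm ?_ ?_
    · intro z hz
      rw [mem_ZL] at hz
      have h2 : z = z [] • (single [] 1 : Ch α) := by
        refine Finsupp.ext fun l => ?_
        rw [Finsupp.smul_apply, smul_eq_mul]
        by_cases hl : l = []
        · rw [hl, Finsupp.single_eq_same, mul_one]
        · rw [Finsupp.single_eq_of_ne hl, mul_zero]
          by_contra h3
          have h4 : l ∈ z.support := Finsupp.mem_support_iff.2 h3
          have h5 := ((Finsupp.mem_supported ℤ z).1 hz.1 h4).2
          exact hl (List.length_eq_zero_iff.1 h5)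
      rw [h2]
      exact Submodule.smul_mem _ _ (Submodule.mem_span_singleton_self _)
    · rw [Submodule.span_singleton_le_iff_mem, mem_ZL]
      refine ⟨single_mem_Sup (S := Len Set.univ 0) ⟨trivial, rfl⟩ 1, ?_⟩
      rw [bd_single, bdL_nil, smul_zero]
      exact Submodule.zero_mem _
  unfold HLf RF
  rw [h1]
  exact (Submodule.fg_span_singleton _).map _

end TorE
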