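import Pool.Agent.Lib.MP_05cdf2_gt.E.ECa
import Pool.Agent.Lib.MP_05cdf2_gt.E.ETf

/-! MP_05cdf2_gt, stream E, job ECb: the columns `p ≥ 1` of the double complex, part 2.

`tn_KL`: if `k ∈ KL K Γ` then `tn c k ∈ K2`: by linearity `c = single s 1`, `k = aL n x - x`, `n ∈ K`; `aL n (single s 1) = single s 1`
(`map_smul_K`), so `tn (single s 1) (aL n x) = aL2 n (tn (single s 1) x)` (`bc_aL2_tn`).
`tn_BL`: `z = bd w + k`, `tn c (bd w) = d2 (tn c w)` (`bc_d2_tn`), `tn_mem`, `tn_KL`.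
`col_cyc`: take `c` from `col_dec`; `colA (d2 x) = 0` (`colA_K2`) and `colA (d2 x) t = [bd (c t)]` (`colA_d2'`), so `bd (c t) ∈ KL K Γ`.
`S2_zero_le`: `(s, []) = d2 (s, [1])`. `col_one`: `col_cyc`, `ZL_one`, `tn_BL`. -/

set_option autoImplicit false

namespace TorE
open Finsupp Tor

variable {Γ : Type} [Group Γ] {K : Subgroup Γ}

private theorem ecb_aL [K.Normal] {n : Γ} (hn : n ∈ K) (c : Ch (Γ ⧸ K)) : aL n c = c := by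
  have h1 : (List.map (n • ·) : List (Γ ⧸ K) → List (Γ ⧸ K)) = id :=
    funext fun s => map_smul_K hn s
  unfold aL
  rw [h1]
  exact Finsupp.mapDomain_id

theorem tn_KL [K.Normal] (c : Ch (Γ ⧸ K)) {k : Ch Γ} (hk : k ∈ KL K Γ) : tn c k ∈ K2 Γ (Γ ⧸ K) Γ := by
  have h1 : KL K Γ ≤ (K2 Γ (Γ ⧸ K) Γ).comap (tn c) := by
    refine Submodule.span_le.2 ?_
    rintro _ ⟨n, hn, x, rfl⟩
    change tn c (aL n x - x) ∈ K2 Γ (Γ ⧸ K) Γ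
    have h2 : tn c (aL n x) = aL2 n (tn c x) := by
      rw [bc_aL2_tn, ecb_aL hn]
    rw [map_sub, h2]
    exact KL2_single (Subgroup.mem_top n) _
  exact h1 hk

theorem tn_BL [K.Normal] {p q : ℕ} {c : Ch (Γ ⧸ K)} (hc : c ∈ Sup (Len Set.univ p)) {z : Ch Γ}
    (hz : z ∈ BL K Γ q) : tn c z ∈ D2 Γ (Γ ⧸ K) Γ p q := by
  obtain ⟨w, hw, hk⟩ := mem_BL.1 hz
  refine mem_D2.2 ⟨tn c w, tn_mem hc hw, ?_⟩
  rw [bc_d2_tn, ← map_sub]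
  exact tn_KL c hk

theorem col_cyc [K.Normal] {p q : ℕ} {x : Ch2 (Γ ⧸ K) Γ} (hx : x ∈ S2 (Γ ⧸ K) Γ (p + 1) q)
    (hd : d2 x ∈ K2 Γ (Γ ⧸ K) Γ) :
    ∃ c : List (Γ ⧸ K) →₀ Ch Γ, (∀ t ∈ c.support, t ≠ [] ∧ t.length = p + 1) ∧
      (∀ t, c t ∈ ZL K Γ q) ∧ x - c.sum (fun t z => tn (single t 1) z) ∈ K2 Γ (Γ ⧸ K) Γ := by
  obtain ⟨c, h1, h2, h3, h4⟩ := col_dec hx
  refine ⟨c, fun t ht => ⟨(h1 t ht).2.1, (h1 t ht).2.2⟩, fun t => mem_ZL.2 ⟨h2 t, ?_⟩, h3⟩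
  have h5 := colA_d2' x t (h4 t)
  rw [colA_K2 hd] at h5
  exact (Submodule.Quotient.mk_eq_zero (KL K Γ)).1 h5.symm

theorem S2_zero_le [K.Normal] (p : ℕ) : S2 (Γ ⧸ K) Γ p 0 ≤ D2 Γ (Γ ⧸ K) Γ p 0 := by
  intro x hx
  refine bc_map_supp (LinearMap.id : Ch2 (Γ ⧸ K) Γ →ₗ[ℤ] Ch2 (Γ ⧸ K) Γ) _ ?_ hx
  rintro ⟨s, l⟩ ⟨⟨h1, h2⟩, h3⟩
  have h4 : l = [] := List.eq_nil_of_length_eq_zero h3
  subst h4
  refine mem_D2.2 ⟨single (s, [1]) 1, Finsupp.single_mem_supported ℤ 1 ⟨⟨h1, h2⟩, rfl⟩, ?_⟩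
  rw [bc_d2_single, bdL_cons, bdL_nil, map_zero, sub_zero, mapDomain_single, LinearMap.id_apply,
    sub_self]
  exact Submodule.zero_mem _

theorem col_one [K.Normal] {p : ℕ} {x : Ch2 (Γ ⧸ K) Γ} (hx : x ∈ S2 (Γ ⧸ K) Γ (p + 1) 1)
    (hd : d2 x ∈ K2 Γ (Γ ⧸ K) Γ) : x ∈ D2 Γ (Γ ⧸ K) Γ (p + 1) 1 := by
  obtain ⟨c, h1, h2, h3⟩ := col_cyc hx hd
  have h4 : c.sum (fun t z => tn (single t 1) z) ∈ D2 Γ (Γ ⧸ K) Γ (p + 1) 1 := by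
    refine Submodule.sum_mem _ fun t ht => ?_
    exact tn_BL (single_mem_Sup (S := Len Set.univ (p + 1)) ⟨trivial, (h1 t ht).2⟩ 1)
      (ZL_one K (h2 t))
  have h5 : x - c.sum (fun t z => tn (single t 1) z) ∈ D2 Γ (Γ ⧸ K) Γ (p + 1) 1 :=
    Submodule.mem_sup_right h3
  have h6 := Submodule.add_mem _ h5 h4
  rwa [sub_add_cancel] at h6

end TorE
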