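import Pool.Agent.Lib.MP_05cdf2_gt.E.ECb

/-! MP_05cdf2_gt, stream E, job ECc: the columns `p ≥ 1` of the double complex, part 3 (uses the lemmas of ECa and ECb).

`psi_ker`: `Psi z c = d2 y + k`, `y ∈ S2 (p+1) (q+1)`, `k ∈ K2`. Put `ℓ i = mapDomain (nf K) (c i)`: then `c i - ℓ i ∈ KL ⊤` (`aL_nf`), `ℓ i`
is supported on lists of length `p + 1` (`nf_length`), and `ℓ i t = 0` if `t` is empty. For a list `t`: `colA (Psi z c) t =
∑_i ∑_{s : nf s = t} c i s • [aL (hd s) (z i)]`, and `aL (hd s) (z i) - z i ∈ BL` (`hT`), so any representative of `colA (Psi z c) t` in `Ch Γ`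
is congruent to `∑ i, ℓ i t • z i` mod `BL K Γ q`. On the other hand `colA (d2 y) t = [bd (representative of colA y t)]` (`colA_d2'`) and
by `col_dec` for `y` the representative may be taken in `Sup (Len univ (q + 1))`, so it is in `BL K Γ q`; `colA k = 0`.
`psi_KL`: `KL_len`: `c i` is a combination of `aL γ x - x` with `x` supported on lists of length `p`; `tn (aL γ x) z = tn (aL γ x) (aL γ z)
- tn (aL γ x) (aL γ z - z) = aL2 γ (tn x z) - tn (aL γ x) (aL γ z - z)`; `KL2_single`, `hT`, `tn_BL`.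
`psi_L`: `Psi z ℓ = ∑_s tn (single s 1) (∑ i, ℓ i s • z i)` (sum over the union of the supports), `tn_BL`. -/

set_option autoImplicit false

namespace TorE
open Finsupp Tor

variable {Γ : Type} [Group Γ] {K : Subgroup Γ}

/-- the map with given cycles -/
noncomputable def Psi {r : ℕ} (z : Fin r → Ch Γ) (c : Fin r → Ch (Γ ⧸ K)) : Ch2 (Γ ⧸ K) Γ :=
  ∑ i, tn (c i) (z i)

theorem ECc_nf [K.Normal] (c : Ch (Γ ⧸ K)) :
    c - mapDomain (nf K) c ∈ KL (⊤ : Subgroup Γ) (Γ ⧸ K) := by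
  induction c using Finsupp.induction_linear with
  | zero =>
    rw [mapDomain_zero, sub_zero]
    exact Submodule.zero_mem _
  | add a b ha hb =>
    rw [mapDomain_add]
    have h1 : a + b - (mapDomain (nf K) a + mapDomain (nf K) b) =
        (a - mapDomain (nf K) a) + (b - mapDomain (nf K) b) := by abel
    rw [h1]
    exact Submodule.add_mem _ ha hb
  | single s n =>
    rw [mapDomain_single]
    have h1 := KL_single (N := (⊤ : Subgroup Γ)) (n := hd K s) (Subgroup.mem_top _)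
      (single s n : Ch (Γ ⧸ K))
    rw [aL_single] at h1
    have h2 := Submodule.neg_mem _ h1
    rw [neg_sub] at h2
    exact h2

theorem ECc_nf_mem {p : ℕ} {c : Ch (Γ ⧸ K)} (hc : c ∈ Sup (Len Set.univ p)) :
    mapDomain (nf K) c ∈ Sup (Len (Set.univ : Set (List (Γ ⧸ K))) p) := by
  refine map_Sup (Finsupp.lmapDomain ℤ ℤ (nf K)) _ ?_ hc
  rintro s ⟨-, hs⟩
  rw [Finsupp.lmapDomain_apply, mapDomain_single]
  exact single_mem_Sup (S := Len Set.univ p) ⟨trivial, by rw [nf_length]; exact hs⟩ 1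

/-- the projection from the quotient by `KL` to the quotient by `BL` -/
noncomputable def ECc_pi (K : Subgroup Γ) (q : ℕ) : (Ch Γ ⧸ KL K Γ) →ₗ[ℤ] (Ch Γ ⧸ BL K Γ q) :=
  (KL K Γ).liftQ (BL K Γ q).mkQ (by rw [Submodule.ker_mkQ]; exact le_sup_right)

theorem ECc_pi_mk (q : ℕ) (x : Ch Γ) : ECc_pi K q ((KL K Γ).mkQ x) = (BL K Γ q).mkQ x :=
  Submodule.liftQ_apply _ _ _

theorem ECc_col [K.Normal] {p q : ℕ} (hT : ∀ γ : Γ, ∀ z ∈ ZL K Γ q, aL γ z - z ∈ BL K Γ q)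
    {z : Ch Γ} (hz : z ∈ ZL K Γ q) {c : Ch (Γ ⧸ K)} (hc : c ∈ Sup (Len Set.univ (p + 1)))
    (t : List (Γ ⧸ K)) :
    ECc_pi K q (colA K (tn c z) t) = (mapDomain (nf K) c) t • (BL K Γ q).mkQ z := by
  have h1 : ECc_pi K q (colA K (tn c z) t) - (mapDomain (nf K) c) t • (BL K Γ q).mkQ z ∈
      (⊥ : Submodule ℤ (Ch Γ ⧸ BL K Γ q)) := by
    refine map_Sup ((ECc_pi K q ∘ₗ Finsupp.lapply t ∘ₗ colA K ∘ₗ
      (tn : Ch (Γ ⧸ K) →ₗ[ℤ] Ch Γ →ₗ[ℤ] Ch2 (Γ ⧸ K) Γ).flip z) -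
      (LinearMap.toSpanSingleton ℤ _ ((BL K Γ q).mkQ z) ∘ₗ Finsupp.lapply t ∘ₗ
        Finsupp.lmapDomain ℤ ℤ (nf K))) ⊥ ?_ hc
    rintro s ⟨-, hs⟩
    have hs0 : s ≠ [] := by
      rintro rfl
      exact absurd hs (by simp)
    rw [Submodule.mem_bot, LinearMap.sub_apply, sub_eq_zero]
    change ECc_pi K q (colA K (tn (single s 1) z) t) =
      (mapDomain (nf K) (single s (1 : ℤ))) t • (BL K Γ q).mkQ z
    rw [colA_tn hs0, mapDomain_single]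
    by_cases ht : nf K s = t
    · rw [ht, single_eq_same, single_eq_same, one_smul, ECc_pi_mk]
      exact (Submodule.Quotient.eq _).2 (hT _ z hz)
    · rw [single_eq_of_ne (Ne.symm ht), single_eq_of_ne (Ne.symm ht), map_zero, zero_smul]
  exact sub_eq_zero.1 ((Submodule.mem_bot ℤ).1 h1)

theorem ECc_K2_le (p q : ℕ) : K2 Γ (Γ ⧸ K) Γ ≤ D2 Γ (Γ ⧸ K) Γ p q := le_sup_right

theorem ECc_KL1 [K.Normal] {p q : ℕ} (hT : ∀ γ : Γ, ∀ z ∈ ZL K Γ q, aL γ z - z ∈ BL K Γ q)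
    {z : Ch Γ} (hz : z ∈ ZL K Γ q) {c : Ch (Γ ⧸ K)} (hc : c ∈ Sup (Len Set.univ p))
    (h : c ∈ KL (⊤ : Subgroup Γ) (Γ ⧸ K)) : tn c z ∈ D2 Γ (Γ ⧸ K) Γ p q := by
  have h1 : Submodule.span ℤ {y : Ch (Γ ⧸ K) | ∃ n ∈ (⊤ : Subgroup Γ),
      ∃ x ∈ Sup (Len (Set.univ : Set (List (Γ ⧸ K))) p), y = aL n x - x} ≤
      (D2 Γ (Γ ⧸ K) Γ p q).comap ((tn : Ch (Γ ⧸ K) →ₗ[ℤ] Ch Γ →ₗ[ℤ] Ch2 (Γ ⧸ K) Γ).flip z) := by
    refine Submodule.span_le.2 ?_
    rintro _ ⟨n, -, x, hx, rfl⟩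
    change tn (aL n x - x) z ∈ D2 Γ (Γ ⧸ K) Γ p q
    have h2 : tn (aL n x - x) z = (aL2 n (tn x z) - tn x z) - tn (aL n x) (aL n z - z) := by
      rw [bc_aL2_tn, map_sub, LinearMap.sub_apply, map_sub (tn (aL n x))]
      abel
    rw [h2]
    exact Submodule.sub_mem _ (ECc_K2_le p q (KL2_single (Subgroup.mem_top _) _))
      (tn_BL (Sup_aL n hx) (hT n z hz))
  exact h1 (KL_len h hc)

theorem psi_ker [K.Normal] {p q r : ℕ} (hT : ∀ γ : Γ, ∀ z ∈ ZL K Γ q, aL γ z - z ∈ BL K Γ q)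
    (z : Fin r → Ch Γ) (hz : ∀ i, z i ∈ ZL K Γ q) (c : Fin r → Ch (Γ ⧸ K))
    (hc : ∀ i, c i ∈ Sup (Len Set.univ (p + 1))) (h : Psi z c ∈ D2 Γ (Γ ⧸ K) Γ (p + 1) q) :
    ∃ l : Fin r → Ch (Γ ⧸ K), (∀ i, c i - l i ∈ KL (⊤ : Subgroup Γ) (Γ ⧸ K)) ∧
      (∀ i, l i ∈ Sup (Len Set.univ (p + 1))) ∧ ∀ s, ∑ i, l i s • z i ∈ BL K Γ q := by
  obtain ⟨y, hy, hk⟩ := mem_D2.1 h
  obtain ⟨e, -, he, -, he2⟩ := col_dec hy
  refine ⟨fun i => mapDomain (nf K) (c i), fun i => ECc_nf (c i), fun i => ECc_nf_mem (hc i),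
    fun t => ?_⟩
  have h1 : colA K (Psi z c) t = (KL K Γ).mkQ (bd (e t)) := by
    have h2 := colA_K2 hk
    rw [map_sub, sub_eq_zero] at h2
    rw [h2]
    exact colA_d2' y t (he2 t)
  have h3 : ECc_pi K q (colA K (Psi z c) t) =
      ∑ i, (mapDomain (nf K) (c i)) t • (BL K Γ q).mkQ (z i) := by
    unfold Psi
    rw [map_sum, Finsupp.finsetSum_apply, map_sum]
    exact Finset.sum_congr rfl fun i _ => ECc_col hT (hz i) (hc i) t
  have h4 : ECc_pi K q (colA K (Psi z c) t) = 0 := by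
    rw [h1, ECc_pi_mk]
    refine (Submodule.Quotient.mk_eq_zero _).2 ?_
    exact Submodule.mem_sup_left (Submodule.mem_map_of_mem (he t))
  have h5 : (BL K Γ q).mkQ (∑ i, (mapDomain (nf K) (c i)) t • z i) = 0 := by
    rw [map_sum, ← h4, h3]
    exact Finset.sum_congr rfl fun i _ => map_smul _ _ _
  exact (Submodule.Quotient.mk_eq_zero _).1 h5

theorem psi_KL [K.Normal] {p q r : ℕ} (hT : ∀ γ : Γ, ∀ z ∈ ZL K Γ q, aL γ z - z ∈ BL K Γ q)
    (z : Fin r → Ch Γ) (hz : ∀ i, z i ∈ ZL K Γ q) (c : Fin r → Ch (Γ ⧸ K))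
    (hc : ∀ i, c i ∈ Sup (Len Set.univ p)) (h : ∀ i, c i ∈ KL (⊤ : Subgroup Γ) (Γ ⧸ K)) :
    Psi z c ∈ D2 Γ (Γ ⧸ K) Γ p q := by
  unfold Psi
  exact Submodule.sum_mem _ fun i _ => ECc_KL1 hT (hz i) (hc i) (h i)

theorem psi_L [K.Normal] {p q r : ℕ} (z : Fin r → Ch Γ) (l : Fin r → Ch (Γ ⧸ K))
    (hl : ∀ i, l i ∈ Sup (Len Set.univ p)) (h : ∀ s, ∑ i, l i s • z i ∈ BL K Γ q) :
    Psi z l ∈ D2 Γ (Γ ⧸ K) Γ p q := by
  classical
  obtain ⟨U, hU⟩ : ∃ U : Finset (List (Γ ⧸ K)), U = Finset.univ.biUnion (fun i => (l i).support) :=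
    ⟨_, rfl⟩
  have hsub : ∀ i, (l i).support ⊆ U := by
    intro i s hs
    rw [hU]
    exact Finset.mem_biUnion.2 ⟨i, Finset.mem_univ i, hs⟩
  have h2 : ∀ i, tn (l i) (z i) = ∑ s ∈ U, tn (single s 1) (l i s • z i) := by
    intro i
    have h3 : l i = ∑ s ∈ U, l i s • (single s 1 : Ch (Γ ⧸ K)) := by
      have h4 := Finsupp.sum_of_support_subset (l i) (hsub i) (fun s n => (single s n : Ch (Γ ⧸ K)))
        (fun s _ => Finsupp.single_zero s)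
      have h5 : (l i).sum (fun s n => (single s n : Ch (Γ ⧸ K))) = l i := Finsupp.sum_single (l i)
      rw [h5] at h4
      refine h4.trans (Finset.sum_congr rfl fun s _ => ?_)
      rw [Finsupp.smul_single, smul_eq_mul, mul_one]
    have h6 : tn (l i) (z i) = ∑ s ∈ U, tn (l i s • (single s 1 : Ch (Γ ⧸ K))) (z i) := by
      conv_lhs => rw [h3]
      rw [map_sum, LinearMap.sum_apply]
    rw [h6]
    refine Finset.sum_congr rfl fun s _ => ?_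
    rw [map_smul, LinearMap.smul_apply, map_smul]
  have h1 : Psi z l = ∑ s ∈ U, tn (single s 1) (∑ i, l i s • z i) := by
    unfold Psi
    rw [Finset.sum_congr rfl fun i _ => h2 i, Finset.sum_comm]
    refine Finset.sum_congr rfl fun s _ => ?_
    rw [map_sum]
  rw [h1]
  refine Submodule.sum_mem _ fun s hs => ?_
  refine tn_BL ?_ (h s)
  rw [hU] at hs
  obtain ⟨i, -, hi⟩ := Finset.mem_biUnion.1 hs
  exact single_mem_Sup ((Finsupp.mem_supported ℤ (l i)).1 (hl i) hi) 1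

end TorE
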