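import Pool.Agent.Lib.MP_05cdf2_gt.E.ERF
import Pool.Agent.Lib.MP_05cdf2_gt.E.ETf
import Pool.Agent.Lib.MP_05cdf2_gt.D.BrA

/-! MP_05cdf2_gt, stream E, job ECvA: lists modulo `G` and the inhomogeneous complex.

`tI j : Ch G → ((Fin j → G) →₀ ℤ)`: a list `l` of length `j + 1` goes to `single (fun i => (l i)⁻¹ * l (i+1)) 1` (`BrA_q id (BrA_un l)` for
`l : Tup G (j+1)`), lists of other lengths to `0`. `sI j`: `g ↦ List.ofFn (Fin.partialProd g)`, of length `j + 1`.
`tI_sI`: `tI j (sI j c) = c` (`Fin.partialProd_right_inv`). `tI_KL`: `tI` vanishes on `KL ⊤ G` (the quotients do not change under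
left multiplication). `sI_tI`: for `c` of length `j + 1`, `c - sI j (tI j c) ∈ KL ⊤ G` (a list `l = (g0, ...)` is `g0 •` (the list of the partial
products of its quotients), `Fin.partialProd_left_inv`). `tI_bd`: for `c` of length `j + 2`, `tI j (bd c) = dI G j (tI (j+1) c)`: for a list this is
`BrA_bdL_ofFn`, the definition of `dI` and `BrA_contract` (as in `exists_bar_maps` in the file D/BrA.lean).
`HLf_of_HIF`: `j = 0`: `ZL_one`, `RF.of_le`. `j ≥ 1`: let `s` be the finite set of `HIF`. Use `RF.iff_closure` with `s.image (sI j)`: for a cycle `z`,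
`tI z ∈ ZI G j` (`dI (tI z) = tI (bd z) = 0`), `tI z = y + dI w`, so `z ≡ sI (tI z) = sI y + sI (dI w)` and `sI (dI w) ≡ bd (sI w)` mod `KL`
(apply `sI_tI` to `bd (sI (j+1) w)` and `tI_bd`, `tI_sI`). `sI s ∈ ZL`: the same computation.
`HIF_of_HLf`: `j = 0`: `ZI G 0 = ⊤` and `(Fin 0 → G) →₀ ℤ` is generated by one element. `j ≥ 1`: apply `tI` to the finite set. -/

set_option autoImplicit false

namespace TorE
open Finsupp Tor

variable {G : Type} [Group G]

/-- from lists to inhomogeneous chains -/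
noncomputable def tI (G : Type) [Group G] (j : ℕ) : Ch G →ₗ[ℤ] ((Fin j → G) →₀ ℤ) :=
  Finsupp.linearCombination ℤ (fun l : List G =>
    if h : l.length = j + 1 then single (BrA_q (id : G → G) (BrA_un (⟨l, h⟩ : Tup G (j + 1)))) 1 else 0)

/-- from inhomogeneous chains to lists -/
noncomputable def sI (G : Type) [Group G] (j : ℕ) : ((Fin j → G) →₀ ℤ) →ₗ[ℤ] Ch G :=
  Finsupp.lmapDomain ℤ ℤ (fun g => List.ofFn (Fin.partialProd g))

theorem ECvA_exists (j : ℕ) (l : List G) (h : l.length = j) : ∃ x : Fin j → G, l = List.ofFn x := by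
  refine ⟨BrA_un (⟨l, h⟩ : Tup G j), ?_⟩
  exact (congrArg Subtype.val (BrA_T_un (⟨l, h⟩ : Tup G j))).symm

theorem ECvA_tI_ofFn (j : ℕ) (x : Fin (j + 1) → G) :
    tI G j (single (List.ofFn x) 1) = single (BrA_q (id : G → G) x) 1 := by
  unfold tI
  rw [Finsupp.linearCombination_single, one_smul, dif_pos (List.length_ofFn)]
  have h : BrA_un (⟨List.ofFn x, List.length_ofFn⟩ : Tup G (j + 1)) = x := BrA_un_T x
  rw [h]

theorem ECvA_tI_ne (j : ℕ) (l : List G) (h : l.length ≠ j + 1) : tI G j (single l 1) = 0 := by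
  unfold tI
  rw [Finsupp.linearCombination_single, one_smul, dif_neg h]

theorem ECvA_sI_single (j : ℕ) (g : Fin j → G) (n : ℤ) :
    sI G j (single g n) = single (List.ofFn (Fin.partialProd g)) n := by
  simp [sI]

theorem ECvA_q_smul (j : ℕ) (n : G) (x : Fin (j + 1) → G) :
    BrA_q (id : G → G) (fun i => n * x i) = BrA_q (id : G → G) x := by
  funext i
  show (n * x i.castSucc)⁻¹ * (n * x i.succ) = (x i.castSucc)⁻¹ * x i.succ
  group

theorem ECvA_tI_aL (j : ℕ) (n : G) (c : Ch G) : tI G j (aL n c) = tI G j c := by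
  have h : tI G j ∘ₗ aL n = tI G j := by
    apply Ch.ext_lin
    intro l
    change tI G j (aL n (single l 1)) = tI G j (single l 1)
    rw [aL_single]
    by_cases hl : l.length = j + 1
    · obtain ⟨x, rfl⟩ := ECvA_exists (j + 1) l hl
      rw [List.map_ofFn]
      have e : ((n • ·) ∘ x : Fin (j + 1) → G) = fun i => n * x i := rfl
      rw [e, ECvA_tI_ofFn, ECvA_tI_ofFn, ECvA_q_smul]
    · rw [ECvA_tI_ne j l hl, ECvA_tI_ne j _ (by rw [List.length_map]; exact hl)]
  exact LinearMap.congr_fun h c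

theorem sI_mem (j : ℕ) (c : (Fin j → G) →₀ ℤ) : sI G j c ∈ Sup (Len Set.univ (j + 1)) := by
  induction c using Finsupp.induction_linear with
  | zero => rw [map_zero]; exact Submodule.zero_mem _
  | add a b ha hb => rw [map_add]; exact Submodule.add_mem _ ha hb
  | single g n =>
    rw [ECvA_sI_single]
    exact single_mem_Sup (S := Len Set.univ (j + 1)) ⟨trivial, List.length_ofFn⟩ n

theorem tI_sI (j : ℕ) (c : (Fin j → G) →₀ ℤ) : tI G j (sI G j c) = c := by
  have h : tI G j ∘ₗ sI G j = LinearMap.id := by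
    refine Finsupp.lhom_ext' fun g => LinearMap.ext_ring ?_
    change tI G j (sI G j (single g 1)) = single g 1
    rw [ECvA_sI_single, ECvA_tI_ofFn]
    congr 1
    funext i
    exact Fin.partialProd_right_inv g i
  exact LinearMap.congr_fun h c

theorem tI_KL (j : ℕ) {c : Ch G} (hc : c ∈ KL (⊤ : Subgroup G) G) : tI G j c = 0 := by
  have h1 : KL (⊤ : Subgroup G) G ≤ LinearMap.ker (tI G j) := by
    refine Submodule.span_le.2 ?_
    rintro _ ⟨n, -, x, rfl⟩
    change tI G j (aL n x - x) = 0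
    rw [map_sub, ECvA_tI_aL, sub_self]
  exact h1 hc

theorem sI_tI (j : ℕ) {c : Ch G} (hc : c ∈ Sup (Len Set.univ (j + 1))) :
    c - sI G j (tI G j c) ∈ KL (⊤ : Subgroup G) G := by
  have h : ((LinearMap.id : Ch G →ₗ[ℤ] Ch G) - sI G j ∘ₗ tI G j) c ∈ KL (⊤ : Subgroup G) G := by
    refine map_Sup ((LinearMap.id : Ch G →ₗ[ℤ] Ch G) - sI G j ∘ₗ tI G j) _ ?_ hc
    rintro l ⟨-, hl⟩
    obtain ⟨x, rfl⟩ := ECvA_exists (j + 1) l hl
    change single (List.ofFn x) 1 - sI G j (tI G j (single (List.ofFn x) 1)) ∈ _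
    rw [ECvA_tI_ofFn, ECvA_sI_single]
    have e : (single (List.ofFn x) 1 : Ch G) =
        aL (x 0) (single (List.ofFn (Fin.partialProd (BrA_q (id : G → G) x))) 1) := by
      rw [aL_single, List.map_ofFn]
      congr 2
      exact (Fin.partialProd_left_inv x).symm
    rw [e]
    have e2 : BrA_q (id : G → G) x = BrA_q (id : G → G) x := rfl
    exact KL_single (Subgroup.mem_top (x 0)) _
  exact h

theorem tI_bd (j : ℕ) {c : Ch G} (hc : c ∈ Sup (Len Set.univ (j + 2))) :
    tI G j (bd c) = dI G j (tI G (j + 1) c) := by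
  have h : ((tI G j ∘ₗ bd) - (dI G j ∘ₗ tI G (j + 1))) c ∈
      (⊥ : Submodule ℤ ((Fin j → G) →₀ ℤ)) := by
    refine map_Sup ((tI G j ∘ₗ bd) - (dI G j ∘ₗ tI G (j + 1))) _ ?_ hc
    rintro l ⟨-, hl⟩
    obtain ⟨x, rfl⟩ := ECvA_exists (j + 2) l hl
    rw [Submodule.mem_bot]
    change tI G j (bd (single (List.ofFn x) 1)) - dI G j (tI G (j + 1) (single (List.ofFn x) 1)) = 0
    rw [sub_eq_zero, ECvA_tI_ofFn, bd_single, one_smul, BrA_bdL_ofFn, map_sum]
    unfold dI
    rw [Finsupp.linearCombination_single, one_smul]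
    conv_lhs => rw [Fin.sum_univ_succ]
    congr 1
    · rw [map_zsmul, ECvA_tI_ofFn, Fin.val_zero, pow_zero, one_smul]
      congr 1
    · refine Finset.sum_congr rfl fun i _ => ?_
      rw [map_zsmul, ECvA_tI_ofFn, Fin.val_succ]
      congr 2
      funext k
      exact BrA_contract x i k
  rw [Submodule.mem_bot] at h
  exact sub_eq_zero.1 h

theorem ECvA_sI_ZL (j : ℕ) (y : (Fin (j + 1) → G) →₀ ℤ) (hy : y ∈ ZI G (j + 1)) :
    sI G (j + 1) y ∈ ZL (⊤ : Subgroup G) G (j + 1 + 1) := by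
  have hy' : dI G j y = 0 := hy
  rw [mem_ZL]
  refine ⟨sI_mem _ _, ?_⟩
  have h := sI_tI j (Sup_bd (sI_mem (j + 1) y))
  rw [tI_bd j (sI_mem (j + 1) y), tI_sI, hy', map_zero, sub_zero] at h
  exact h

theorem ECvA_tI_ZI (j : ℕ) (z : Ch G) (hz : z ∈ ZL (⊤ : Subgroup G) G (j + 1 + 1)) :
    tI G (j + 1) z ∈ ZI G (j + 1) := by
  rw [mem_ZL] at hz
  change dI G j (tI G (j + 1) z) = 0
  rw [← tI_bd j hz.1]
  exact tI_KL j hz.2

theorem HLf_of_HIF (j : ℕ) (h : HIF G j) : HLf (⊤ : Subgroup G) G (j + 1) := by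
  classical
  cases j with
  | zero => exact RF.of_le (ZL_one _)
  | succ j =>
    obtain ⟨s, hs, hgen⟩ := h
    rw [HLf, RF.iff_closure]
    refine ⟨s.image (sI G (j + 1)), ?_, ?_⟩
    · intro z hz
      obtain ⟨y, hy, rfl⟩ := Finset.mem_image.1 hz
      exact ECvA_sI_ZL j y (hs y hy)
    · intro z hz
      obtain ⟨y, hy, w, hw⟩ := hgen (tI G (j + 1) z) (ECvA_tI_ZI j z hz)
      refine ⟨sI G (j + 1) y, ?_, ?_⟩
      · rw [Finset.coe_image]
        have h1 : (sI G (j + 1)).toAddMonoidHom y ∈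
            (AddSubgroup.closure (s : Set ((Fin (j + 1) → G) →₀ ℤ))).map
              (sI G (j + 1)).toAddMonoidHom := AddSubgroup.mem_map_of_mem _ hy
        rw [AddMonoidHom.map_closure] at h1
        exact h1
      · rw [mem_BL]
        refine ⟨sI G (j + 2) w, sI_mem _ _, ?_⟩
        have h1 := sI_tI (j + 1) (mem_ZL.1 hz).1
        have h2 := sI_tI (j + 1) (Sup_bd (sI_mem (j + 2) w))
        rw [tI_bd (j + 1) (sI_mem (j + 2) w), tI_sI] at h2
        have e : z - sI G (j + 1) y - bd (sI G (j + 2) w) =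
            (z - sI G (j + 1) (tI G (j + 1) z)) -
              (bd (sI G (j + 2) w) - sI G (j + 1) (dI G (j + 1) w)) := by
          rw [hw, map_add]
          abel
        rw [e]
        exact Submodule.sub_mem _ h1 h2

theorem HIF_of_HLf (j : ℕ) (h : HLf (⊤ : Subgroup G) G (j + 1)) : HIF G j := by
  classical
  cases j with
  | zero =>
    refine ⟨{single default 1}, fun z _ => Submodule.mem_top, fun x _ => ⟨x, ?_, 0, ?_⟩⟩
    · have e : x = x default • (single default 1 : (Fin 0 → G) →₀ ℤ) := by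
        rw [Finsupp.smul_single, smul_eq_mul, mul_one]
        exact Finsupp.unique_single x
      rw [e]
      refine AddSubgroup.zsmul_mem _ (AddSubgroup.subset_closure ?_) _
      rw [Finset.coe_singleton]
      exact Set.mem_singleton _
    · rw [map_zero, add_zero]
  | succ j =>
    rw [HLf, RF.iff_closure] at h
    obtain ⟨s, hs, hgen⟩ := h
    refine ⟨s.image (tI G (j + 1)), ?_, ?_⟩
    · intro z hz
      obtain ⟨y, hy, rfl⟩ := Finset.mem_image.1 hz
      exact ECvA_tI_ZI j y (hs y hy)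
    · intro x hx
      obtain ⟨y, hy, hB⟩ := hgen (sI G (j + 1) x) (ECvA_sI_ZL j x hx)
      rw [mem_BL] at hB
      obtain ⟨W, hW, hk⟩ := hB
      refine ⟨tI G (j + 1) y, ?_, tI G (j + 2) W, ?_⟩
      · rw [Finset.coe_image]
        have h1 : (tI G (j + 1)).toAddMonoidHom y ∈
            (AddSubgroup.closure (s : Set (Ch G))).map
              (tI G (j + 1)).toAddMonoidHom := AddSubgroup.mem_map_of_mem _ hy
        rw [AddMonoidHom.map_closure] at h1
        exact h1
      · have h1 := tI_KL (j + 1) hk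
        rw [map_sub, map_sub, tI_sI, tI_bd (j + 1) hW] at h1
        rw [sub_sub, sub_eq_zero] at h1
        exact h1

end TorE
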