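import Pool.Agent.Lib.MP_05cdf2_gt.E.ERF
import Pool.Agent.Lib.MP_05cdf2_gt.E.ETf
import Pool.Agent.Lib.MP_05cdf2_gt.D.BrA

/-! MP_05cdf2_gt, stream E, job ECvB: change of the set `α` and of the group.

`mp u : Ch α → Ch α'`: the map on chains induced by `u : α → α'`. It commutes with `bd` (`bd_map`). The prism `TorA.prC u v` satisfies
`bd (prC u v c) + prC u v (bd c) = mp v c - mp u c` (`TorA.prC_homotopy`).
Let `ι : H → H'` be a function with `ι n ∈ N'` for `n ∈ N`, and let `u, v : α → α'` satisfy `u (n • a) = ι n • u a` for `n ∈ N` (`Eqv`). Then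
`mp u (aL n c) = aL (ι n) (mp u c)` and `prC u v (aL n c) = aL (ι n) (prC u v c)` (on lists by induction, the definition of `TorA.prL`), so both
preserve `KL` (`KL_map`). `prC u v` maps length `q` to length `q + 1` (`TorA.prL_mem` with `S' = univ`).
`prism_BL`: for `z ∈ ZL N α q`: `mp v z - mp u z = bd (prC u v z) + prC u v (bd z)` is in `BL N' α' q`.
`transport`: let `f : α → α'`, `g : α' → α` be equivariant for `ι`, `ι'` and `ι (ι' n) = n` for `n ∈ N'`. Use `RF.iff`: for the finite set `s` of `HLf N α q` take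
`s.image (mp f)`. For `z ∈ ZL N' α' q`: `mp g z ∈ ZL N α q`, `mp g z = y + b`, `mp f (mp g z) = mp f y + mp f b`, and
`mp f (mp g z) - z ∈ BL` by `prism_BL` for `u = id`, `v = f ∘ g` (equivariant for `id` as a function `H' → H'` on `N'`).
`HLf_sub`: `transport` with `H = K`, `N = ⊤`, `α = K`, `H' = Γ`, `N' = K`, `α' = Γ`, `f` the inclusion, `g = ν` of `BrA_nu`, `ι` the inclusion,
`ι' n = if h : n ∈ K then ⟨n, h⟩ else 1`.
`HLf_quot`: `transport` with `ι = mk`, `ι' = Quotient.out`, `f = g = id`. `HLf_iso`: `transport` with `f = ι = e`, `g = ι' = e.symm`.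
`T_central`: `aL γ z - z = mp (γ • ·) z - mp id z`, both maps are equivariant for `ι = id`: `prism_BL`.
`T_conj`: let `ψ = MulAut.conjNormal γ : K ≃* K`, `f : K → Γ` the inclusion, `ν : Γ → K` from `BrA_nu`. `z ≡ mp f (mp ν z)` mod `BL` (prism, `id` and `f ∘ ν`).
`aL γ` preserves `BL K Γ q` (`KL_aL`, `bc_bd_aL`, `Sup_aL`). `aL γ (mp f z') = mp (fun k => γ * k) z'` and `fun k => γ * k = ψ k * γ`; the maps
`k ↦ γ * k` and `k ↦ (ψ k : Γ)` from `K` to `Γ` are both equivariant for `ι = ψ`, so `aL γ (mp f z') ≡ mp f (mp ψ z')`; and `mp ψ z' - z' ∈ BL ⊤ K q`,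
`mp f` maps `BL ⊤ K q` to `BL K Γ q`. -/

set_option autoImplicit false

namespace TorE
open Finsupp Tor

/-- the map on chains -/
noncomputable def mp {α α' : Type} (u : α → α') : Ch α →ₗ[ℤ] Ch α' := Finsupp.lmapDomain ℤ ℤ (List.map u)

section
variable {H H' : Type} [Group H] [Group H'] {α α' : Type} [MulAction H α] [MulAction H' α']

/-- equivariant maps -/
def Eqv (N : Subgroup H) (N' : Subgroup H') (ι : H → H') (u : α → α') : Prop :=
  (∀ n ∈ N, ι n ∈ N') ∧ ∀ n ∈ N, ∀ a, u (n • a) = ι n • u a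

theorem mp_bd (u : α → α') (c : Ch α) : bd (mp u c) = mp u (bd c) := bd_map u c

theorem ECvB_mp_single (u : α → α') (l : List α) (n : ℤ) : mp u (single l n) = single (l.map u) n := by
  simp [mp]

theorem ECvB_mp_Sup (u : α → α') {q : ℕ} {c : Ch α} (hc : c ∈ Sup (Len Set.univ q)) :
    mp u c ∈ Sup (Len Set.univ q) := by
  refine map_Sup (mp u) _ ?_ hc
  rintro l ⟨-, hl⟩
  rw [ECvB_mp_single]
  refine single_mem_Sup (S := Len Set.univ q) ⟨trivial, ?_⟩ 1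
  rw [List.length_map]
  exact hl

theorem ECvB_mp_aL {N : Subgroup H} {N' : Subgroup H'} {ι : H → H'} {u : α → α'} (hu : Eqv N N' ι u)
    {n : H} (hn : n ∈ N) (c : Ch α) : mp u (aL n c) = aL (ι n) (mp u c) := by
  have h : mp u ∘ₗ aL n = aL (ι n) ∘ₗ mp u := by
    apply Ch.ext_lin
    intro l
    rw [LinearMap.comp_apply, LinearMap.comp_apply, aL_single, ECvB_mp_single, ECvB_mp_single,
      aL_single, List.map_map, List.map_map]
    have e : u ∘ (fun x => n • x) = (fun x => ι n • x) ∘ u := funext fun a => hu.2 n hn a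
    rw [e]
  exact LinearMap.congr_fun h c

theorem ECvB_aL_cone (h : H) (a : α) (c : Ch α) : aL h (cone a c) = cone (h • a) (aL h c) := by
  have e : aL h ∘ₗ cone a = cone (h • a) ∘ₗ aL h := by
    apply Ch.ext_lin
    intro l
    rw [LinearMap.comp_apply, LinearMap.comp_apply, cone_single, aL_single, aL_single, cone_single,
      List.map_cons]
  exact LinearMap.congr_fun e c

theorem ECvB_prL_aL {N : Subgroup H} {N' : Subgroup H'} {ι : H → H'} {u v : α → α'}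
    (hu : Eqv N N' ι u) (hv : Eqv N N' ι v) {n : H} (hn : n ∈ N) (l : List α) :
    TorA.prL u v (l.map (n • ·)) = aL (ι n) (TorA.prL u v l) := by
  induction l with
  | nil =>
    rw [List.map_nil, TorA.prL, map_zero]
  | cons x l ih =>
    have e : v ∘ (fun x => n • x) = (fun x => ι n • x) ∘ v := funext fun a => hv.2 n hn a
    rw [List.map_cons, TorA.prL, TorA.prL, map_sub, ih, ECvB_aL_cone, aL_single, hu.2 n hn, hv.2 n hn,
      List.map_map, e, List.map_cons, List.map_cons, List.map_map]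

theorem ECvB_prC_aL {N : Subgroup H} {N' : Subgroup H'} {ι : H → H'} {u v : α → α'}
    (hu : Eqv N N' ι u) (hv : Eqv N N' ι v) {n : H} (hn : n ∈ N) (c : Ch α) :
    TorA.prC u v (aL n c) = aL (ι n) (TorA.prC u v c) := by
  have h : TorA.prC u v ∘ₗ aL n = aL (ι n) ∘ₗ TorA.prC u v := by
    apply Ch.ext_lin
    intro l
    rw [LinearMap.comp_apply, LinearMap.comp_apply, aL_single, TorA.TPrism_prC_single,
      TorA.TPrism_prC_single, one_smul, one_smul, ECvB_prL_aL hu hv hn]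
  exact LinearMap.congr_fun h c

theorem ECvB_prC_KL {N : Subgroup H} {N' : Subgroup H'} {ι : H → H'} {u v : α → α'}
    (hu : Eqv N N' ι u) (hv : Eqv N N' ι v) {c : Ch α} (hc : c ∈ KL N α) :
    TorA.prC u v c ∈ KL N' α' :=
  KL_map (TorA.prC u v) (fun n hn x => ⟨ι n, hu.1 n hn, ECvB_prC_aL hu hv hn x⟩) hc

theorem ECvB_prC_Sup (u v : α → α') {q : ℕ} {c : Ch α} (hc : c ∈ Sup (Len Set.univ q)) :
    TorA.prC u v c ∈ Sup (Len Set.univ (q + 1)) := by
  refine map_Sup (TorA.prC u v) _ ?_ hc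
  rintro l ⟨-, hl⟩
  rw [TorA.TPrism_prC_single, one_smul, ← hl]
  exact TorA.prL_mem u v (S' := Set.univ) l (fun _ _ _ _ => trivial)

theorem ECvB_mp_comp {α'' : Type} (u : α → α') (v : α' → α'') (c : Ch α) :
    mp v (mp u c) = mp (v ∘ u) c := by
  have h : mp v ∘ₗ mp u = mp (v ∘ u) := by
    apply Ch.ext_lin
    intro l
    rw [LinearMap.comp_apply, ECvB_mp_single, ECvB_mp_single, ECvB_mp_single, List.map_map]
  exact LinearMap.congr_fun h c

theorem ECvB_mp_id (c : Ch α) : mp (id : α → α) c = c := by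
  have h : mp (id : α → α) = LinearMap.id := by
    apply Ch.ext_lin
    intro l
    rw [ECvB_mp_single, List.map_id, LinearMap.id_apply]
  rw [h, LinearMap.id_apply]

theorem ECvB_id {N : Subgroup H} : Eqv N N (id : H → H) (id : α → α) :=
  ⟨fun _ hn => hn, fun _ _ _ => rfl⟩

theorem mp_KL {N : Subgroup H} {N' : Subgroup H'} {ι : H → H'} {u : α → α'} (hu : Eqv N N' ι u) {c : Ch α}
    (hc : c ∈ KL N α) : mp u c ∈ KL N' α' := by
  exact KL_map (mp u) (fun n hn x => ⟨ι n, hu.1 n hn, ECvB_mp_aL hu hn x⟩) hc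

theorem mp_ZL {N : Subgroup H} {N' : Subgroup H'} {ι : H → H'} {u : α → α'} (hu : Eqv N N' ι u) {q : ℕ} {c : Ch α}
    (hc : c ∈ ZL N α q) : mp u c ∈ ZL N' α' q := by
  rw [mem_ZL] at hc ⊢
  refine ⟨ECvB_mp_Sup u hc.1, ?_⟩
  rw [mp_bd]
  exact mp_KL hu hc.2

theorem mp_BL {N : Subgroup H} {N' : Subgroup H'} {ι : H → H'} {u : α → α'} (hu : Eqv N N' ι u) {q : ℕ} {c : Ch α}
    (hc : c ∈ BL N α q) : mp u c ∈ BL N' α' q := by
  rw [mem_BL] at hc ⊢
  obtain ⟨w, hw, h⟩ := hc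
  refine ⟨mp u w, ECvB_mp_Sup u hw, ?_⟩
  rw [mp_bd, ← map_sub]
  exact mp_KL hu h

theorem prism_BL {N : Subgroup H} {N' : Subgroup H'} {ι : H → H'} {u v : α → α'} (hu : Eqv N N' ι u)
    (hv : Eqv N N' ι v) {q : ℕ} {z : Ch α} (hz : z ∈ ZL N α q) : mp v z - mp u z ∈ BL N' α' q := by
  rw [mem_ZL] at hz
  rw [mem_BL]
  refine ⟨TorA.prC u v z, ECvB_prC_Sup u v hz.1, ?_⟩
  have h : bd (TorA.prC u v z) + TorA.prC u v (bd z) = mp v z - mp u z := TorA.prC_homotopy u v z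
  rw [← h, add_sub_cancel_left]
  exact ECvB_prC_KL hu hv hz.2

theorem transport {N : Subgroup H} {N' : Subgroup H'} {ι : H → H'} {ι' : H' → H} {f : α → α'} {g : α' → α}
    (hf : Eqv N N' ι f) (hg : Eqv N' N ι' g) (hι : ∀ n ∈ N', ι (ι' n) = n) {q : ℕ} (h : HLf N α q) :
    HLf N' α' q := by
  classical
  unfold HLf at h ⊢
  rw [RF.iff] at h ⊢
  obtain ⟨s, hs, hs2⟩ := h
  have hfg : Eqv N' N' (id : H' → H') (f ∘ g) := by
    refine ⟨fun _ hn => hn, fun n hn a => ?_⟩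
    change f (g (n • a)) = n • f (g a)
    rw [hg.2 n hn, hf.2 _ (hg.1 n hn), hι n hn]
  refine ⟨s.image (mp f), ?_, ?_⟩
  · intro z hz
    obtain ⟨y, hy, rfl⟩ := Finset.mem_image.1 hz
    exact mp_ZL hf (hs y hy)
  · intro z hz
    obtain ⟨y, hy, hy2⟩ := hs2 _ (mp_ZL hg hz)
    refine ⟨mp f y, ?_, ?_⟩
    · have h1 := Submodule.mem_map_of_mem (f := mp f) hy
      rw [Submodule.map_span, ← Finset.coe_image] at h1
      exact h1
    · have h1 : mp (f ∘ g) z - mp id z ∈ BL N' α' q := prism_BL ECvB_id hfg hz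
      rw [ECvB_mp_id, ← ECvB_mp_comp] at h1
      have h2 : mp f (mp g z - y) ∈ BL N' α' q := mp_BL hf hy2
      have h3 : z - mp f y = mp f (mp g z - y) - (mp f (mp g z) - z) := by
        rw [map_sub]
        abel
      rw [h3]
      exact Submodule.sub_mem _ h2 h1

end

section
variable {Γ : Type} [Group Γ] (K : Subgroup Γ) [K.Normal]

omit [K.Normal] in
theorem ECvB_val : Eqv (⊤ : Subgroup K) K (fun n : K => (n : Γ)) (fun a : K => (a : Γ)) :=
  ⟨fun n _ => n.2, fun _ _ _ => rfl⟩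

theorem ECvB_nu : ∃ (ν : Γ → K) (ι' : Γ → K), Eqv K (⊤ : Subgroup K) ι' ν ∧
    ∀ n ∈ K, ((ι' n : K) : Γ) = n := by
  classical
  obtain ⟨ν, h1, -⟩ := BrA_nu K
  refine ⟨ν, fun n => if h : n ∈ K then ⟨n, h⟩ else 1, ⟨fun _ _ => trivial, ?_⟩, ?_⟩
  · intro n hn a
    have e : (if h : n ∈ K then (⟨n, h⟩ : K) else 1) = ⟨n, hn⟩ := dif_pos hn
    change ν (n • a) = (if h : n ∈ K then (⟨n, h⟩ : K) else 1) • ν a
    rw [e]
    exact h1 ⟨n, hn⟩ a
  · intro n hn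
    have e : (if h : n ∈ K then (⟨n, h⟩ : K) else 1) = ⟨n, hn⟩ := dif_pos hn
    change (((if h : n ∈ K then (⟨n, h⟩ : K) else 1) : K) : Γ) = n
    rw [e]

theorem HLf_sub (q : ℕ) (h : HLf (⊤ : Subgroup K) K q) : HLf K Γ q := by
  obtain ⟨ν, ι', h1, h2⟩ := ECvB_nu K
  exact transport (ECvB_val K) h1 h2 h

theorem HLf_quot (q : ℕ) (h : HLf (⊤ : Subgroup Γ) (Γ ⧸ K) q) : HLf (⊤ : Subgroup (Γ ⧸ K)) (Γ ⧸ K) q := by
  have key : ∀ (g : Γ) (a : Γ ⧸ K), g • a = (QuotientGroup.mk g : Γ ⧸ K) • a := by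
    intro g a
    induction a using QuotientGroup.induction_on with
    | H a => rfl
  have h1 : Eqv (⊤ : Subgroup Γ) (⊤ : Subgroup (Γ ⧸ K)) (fun g : Γ => (QuotientGroup.mk g : Γ ⧸ K))
      (id : Γ ⧸ K → Γ ⧸ K) := ⟨fun _ _ => trivial, fun g _ a => key g a⟩
  have h2 : Eqv (⊤ : Subgroup (Γ ⧸ K)) (⊤ : Subgroup Γ) (Quotient.out : Γ ⧸ K → Γ)
      (id : Γ ⧸ K → Γ ⧸ K) := by
    refine ⟨fun _ _ => trivial, fun x _ a => ?_⟩
    change x • a = Quotient.out x • a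
    rw [key, QuotientGroup.out_eq']
  exact transport h1 h2 (fun n _ => QuotientGroup.out_eq' n) h

theorem HLf_iso {G G' : Type} [Group G] [Group G'] (e : G ≃* G') (q : ℕ) (h : HLf (⊤ : Subgroup G) G q) :
    HLf (⊤ : Subgroup G') G' q := by
  have h1 : Eqv (⊤ : Subgroup G) (⊤ : Subgroup G') (e : G → G') (e : G → G') :=
    ⟨fun _ _ => trivial, fun n _ a => map_mul e n a⟩
  have h2 : Eqv (⊤ : Subgroup G') (⊤ : Subgroup G) (e.symm : G' → G) (e.symm : G' → G) :=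
    ⟨fun _ _ => trivial, fun n _ a => map_mul e.symm n a⟩
  exact transport h1 h2 (fun n _ => e.apply_symm_apply n) h

theorem T_central (hc : ∀ γ : Γ, ∀ k ∈ K, γ * k = k * γ) (q : ℕ) (γ : Γ) (z : Ch Γ) (hz : z ∈ ZL K Γ q) :
    aL γ z - z ∈ BL K Γ q := by
  have h1 : Eqv K K (id : Γ → Γ) (fun x : Γ => γ • x) := by
    refine ⟨fun _ hn => hn, fun n hn a => ?_⟩
    change γ * (n * a) = n * (γ * a)
    rw [← mul_assoc, hc γ n hn, mul_assoc]
  have h2 := prism_BL (ECvB_id (N := K) (α := Γ)) h1 hz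
  rw [ECvB_mp_id] at h2
  exact h2

theorem ECvB_aL_BL (q : ℕ) (γ : Γ) {z : Ch Γ} (hz : z ∈ BL K Γ q) : aL γ z ∈ BL K Γ q := by
  rw [mem_BL] at hz ⊢
  obtain ⟨w, hw, h⟩ := hz
  refine ⟨aL γ w, Sup_aL γ hw, ?_⟩
  rw [bc_bd_aL, ← map_sub]
  exact KL_aL γ h

theorem T_conj (q : ℕ) (γ : Γ) (hψ : ∀ z ∈ ZL (⊤ : Subgroup K) K q,
    mp (MulAut.conjNormal γ : K ≃* K) z - z ∈ BL (⊤ : Subgroup K) K q) (z : Ch Γ) (hz : z ∈ ZL K Γ q) :
    aL γ z - z ∈ BL K Γ q := by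
  obtain ⟨ν, ι', h1, h2⟩ := ECvB_nu K
  set f : K → Γ := fun a : K => (a : Γ) with hf
  have hfe : Eqv (⊤ : Subgroup K) K (fun n : K => (n : Γ)) f := ECvB_val K
  have hz' : mp ν z ∈ ZL (⊤ : Subgroup K) K q := mp_ZL h1 hz
  have hfν : Eqv K K (id : Γ → Γ) (f ∘ ν) := by
    refine ⟨fun _ hn => hn, fun n hn a => ?_⟩
    change f (ν (n • a)) = n • f (ν a)
    rw [h1.2 n hn, hfe.2 _ (h1.1 n hn)]
    change ((ι' n : K) : Γ) • f (ν a) = n • f (ν a)
    rw [h2 n hn]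
  have e1 : mp f (mp ν z) - z ∈ BL K Γ q := by
    have := prism_BL (ECvB_id (N := K) (α := Γ)) hfν hz
    rw [ECvB_mp_id, ← ECvB_mp_comp] at this
    exact this
  have e2 : aL γ (mp f (mp ν z) - z) ∈ BL K Γ q := ECvB_aL_BL K q γ e1
  set ψ : K ≃* K := MulAut.conjNormal γ with hψd
  have hval : ∀ k : K, ((ψ k : K) : Γ) = γ * k * γ⁻¹ := fun k => MulAut.conjNormal_apply γ k
  have hu1 : Eqv (⊤ : Subgroup K) K (fun n : K => ((ψ n : K) : Γ)) (fun a : K => γ • (a : Γ)) := by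
    refine ⟨fun n _ => (ψ n).2, fun n _ a => ?_⟩
    change γ * ((n : Γ) * (a : Γ)) = ((ψ n : K) : Γ) * (γ * (a : Γ))
    rw [hval]
    group
  have hu2 : Eqv (⊤ : Subgroup K) K (fun n : K => ((ψ n : K) : Γ)) (f ∘ ψ) := by
    refine ⟨fun n _ => (ψ n).2, fun n _ a => ?_⟩
    change ((ψ (n * a) : K) : Γ) = ((ψ n : K) : Γ) * ((ψ a : K) : Γ)
    rw [map_mul, Subgroup.coe_mul]
  have e3 : mp (fun a : K => γ • (a : Γ)) (mp ν z) - mp (f ∘ ψ) (mp ν z) ∈ BL K Γ q :=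
    prism_BL hu2 hu1 hz'
  have e4 : mp f (mp ψ (mp ν z) - mp ν z) ∈ BL K Γ q := mp_BL hfe (hψ _ hz')
  have e5 : aL γ (mp f (mp ν z)) = mp (fun a : K => γ • (a : Γ)) (mp ν z) :=
    ECvB_mp_comp f (fun x : Γ => γ • x) (mp ν z)
  have e6 : mp f (mp ψ (mp ν z)) = mp (f ∘ ψ) (mp ν z) := ECvB_mp_comp ψ f (mp ν z)
  have e7 : aL γ z - z = (mp (fun a : K => γ • (a : Γ)) (mp ν z) - mp (f ∘ ψ) (mp ν z)) +
      mp f (mp ψ (mp ν z) - mp ν z) + (mp f (mp ν z) - z) - aL γ (mp f (mp ν z) - z) := by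
    rw [map_sub (aL γ), e5, map_sub (mp f), e6]
    abel
  rw [e7]
  exact Submodule.sub_mem _ (Submodule.add_mem _ (Submodule.add_mem _ e3 e4) e1) e2

end

end TorE
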