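import Mathlib
import Pool.Agent.Lib.MP_05cdf2_gt.D.DDef
import Pool.Agent.Lib.MP_05cdf2_gt.D.Rows
import Pool.Agent.Lib.MP_05cdf2_gt.A.TPrism

/-! MP_05cdf2_gt, stream E (helper61): definitions and elementary facts for the comparison of the homology of
`K`, `Γ` and `Γ / K` (all in terms of chains of lists).

* `RF Z B`: the image of `Z` in `M / B` is finitely generated.
* `ZL N α q`, `BL N α q`: cycles and boundaries of lists of length `q` modulo `N`; `HLf N α q` says that the homology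
  of `N` in degree `q - 1` is finitely generated (`α` a free `N`-set).
* `tn`: exterior product of chains. `Z2, B2`: cycles and boundaries in bidegree `(p, q)`.
-/

set_option autoImplicit false

namespace TorE
open Finsupp Tor

section bc

variable {H : Type} [Group H] {α β : Type} [MulAction H α] [MulAction H β]

/-- the exterior product of chains -/
noncomputable def tn : Ch β →ₗ[ℤ] Ch α →ₗ[ℤ] Ch2 β α :=
  Finsupp.linearCombination ℤ (fun s => Finsupp.lmapDomain ℤ ℤ (fun l => (s, l)))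

theorem tn_single (s : List β) (l : List α) (a b : ℤ) :
    tn (single s a) (single l b) = single (s, l) (a * b) := by
  simp [tn]

theorem tn_left (s : List β) (c : Ch α) :
    tn (single s 1) c = mapDomain (fun l => (s, l)) c := by
  simp [tn]

theorem tn_right (c : Ch β) (l : List α) :
    tn c (single l 1) = mapDomain (fun s => (s, l)) c := by
  induction c using Finsupp.induction_linear with
  | zero => simp
  | add a b ha hb => rw [map_add, LinearMap.add_apply, ha, hb, mapDomain_add]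
  | single s n => rw [tn_single, mapDomain_single, mul_one]

theorem bc_ext {M : Type} [AddCommGroup M] {f g : Ch2 β α →ₗ[ℤ] M}
    (h : ∀ s l, f (tn (single s 1) (single l 1)) = g (tn (single s 1) (single l 1)))
    (x : Ch2 β α) : f x = g x := by
  have h1 : f = g := by
    refine Finsupp.lhom_ext' fun x => LinearMap.ext_ring ?_
    have h2 := h x.1 x.2
    rw [tn_single, mul_one] at h2
    exact h2
  rw [h1]

theorem bc_biext {M : Type} [AddCommGroup M] {f g : Ch β →ₗ[ℤ] Ch α →ₗ[ℤ] M}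
    (h : ∀ s l, f (single s 1) (single l 1) = g (single s 1) (single l 1)) (c : Ch β) (c' : Ch α) :
    f c c' = g c c' := by
  have h1 : f = g := by
    apply Ch.ext_lin
    intro s
    apply Ch.ext_lin
    intro l
    exact h s l
  rw [h1]

theorem bc_d1_single (s : List β) (l : List α) :
    d1 (single (s, l) 1 : Ch2 β α) = mapDomain (fun s => (s, l)) (bdL s) := by
  unfold d1
  rw [Finsupp.linearCombination_single, one_smul]

theorem bc_d2_single (s : List β) (l : List α) :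
    d2 (single (s, l) 1 : Ch2 β α) = mapDomain (fun l => (s, l)) (bdL l) := by
  unfold d2
  rw [Finsupp.linearCombination_single, one_smul]

theorem bc_d1_tn (c : Ch β) (c' : Ch α) :
    d1 (tn c c') = tn (bd c) c' := by
  refine bc_biext (f := tn.compr₂ d1) (g := tn ∘ₗ bd) ?_ c c'
  intro s l
  change d1 (tn (single s 1) (single l 1)) = tn (bd (single s 1)) (single l 1)
  rw [tn_single, mul_one, bc_d1_single, bd_single, one_smul, tn_right]

theorem bc_d2_tn (c : Ch β) (c' : Ch α) :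
    d2 (tn c c') = tn c (bd c') := by
  refine bc_biext (f := tn.compr₂ d2) (g := tn.compl₂ bd) ?_ c c'
  intro s l
  change d2 (tn (single s 1) (single l 1)) = tn (single s 1) (bd (single l 1))
  rw [tn_single, mul_one, bc_d2_single, bd_single, one_smul, tn_left]

theorem bc_aL2_tn (h : H) (c : Ch β) (c' : Ch α) :
    aL2 h (tn c c') = tn (aL h c) (aL h c') := by
  have e1 : ∀ (s : List β) (a : ℤ), aL h (single s a : Ch β) = single (s.map (h • ·)) a := by
    intro s a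
    simp [aL]
  have e2 : ∀ (l : List α) (a : ℤ), aL h (single l a : Ch α) = single (l.map (h • ·)) a := by
    intro l a
    simp [aL]
  have e3 : ∀ (s : List β) (l : List α) (a : ℤ), aL2 h (single (s, l) a : Ch2 β α) =
      single (s.map (h • ·), l.map (h • ·)) a := by
    intro s l a
    simp [aL2]
  induction c using Finsupp.induction_linear with
  | zero => simp only [map_zero, LinearMap.zero_apply]
  | add a b ha hb => rw [map_add, LinearMap.add_apply, map_add, ha, hb, map_add, map_add,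
      LinearMap.add_apply]
  | single s a =>
    induction c' using Finsupp.induction_linear with
    | zero => simp only [map_zero]
    | add a b ha hb => rw [map_add, map_add, ha, hb, map_add, map_add]
    | single l b => rw [tn_single, e1, e2, e3, tn_single]

theorem bc_d1_d1 (x : Ch2 β α) : d1 (d1 x) = 0 := by
  refine bc_ext (f := d1 ∘ₗ d1) (g := 0) ?_ x
  intro s l
  change d1 (d1 (tn (single s 1) (single l 1))) = 0
  rw [bc_d1_tn, bc_d1_tn, bd_bd]
  simp

theorem bc_d2_d2 (x : Ch2 β α) : d2 (d2 x) = 0 := by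
  refine bc_ext (f := d2 ∘ₗ d2) (g := 0) ?_ x
  intro s l
  change d2 (d2 (tn (single s 1) (single l 1))) = 0
  rw [bc_d2_tn, bc_d2_tn, bd_bd]
  simp

theorem bc_d1_d2 (x : Ch2 β α) : d1 (d2 x) = d2 (d1 x) := by
  refine bc_ext (f := d1 ∘ₗ d2) (g := d2 ∘ₗ d1) ?_ x
  intro s l
  change d1 (d2 (tn (single s 1) (single l 1))) = d2 (d1 (tn (single s 1) (single l 1)))
  rw [bc_d2_tn, bc_d1_tn, bc_d1_tn, bc_d2_tn]

theorem bc_bd_aL (h : H) (c : Ch α) : bd (aL h c) = aL h (bd c) :=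
  bd_map (h • ·) c

theorem bc_d1_aL2 (h : H) (x : Ch2 β α) : d1 (aL2 h x) = aL2 h (d1 x) := by
  refine bc_ext (f := d1 ∘ₗ aL2 h) (g := aL2 h ∘ₗ d1) ?_ x
  intro s l
  change d1 (aL2 h (tn (single s 1) (single l 1))) =
    aL2 h (d1 (tn (single s 1) (single l 1)))
  rw [bc_aL2_tn, bc_d1_tn, bc_d1_tn, bc_aL2_tn, bc_bd_aL]

theorem bc_d2_aL2 (h : H) (x : Ch2 β α) : d2 (aL2 h x) = aL2 h (d2 x) := by
  refine bc_ext (f := d2 ∘ₗ aL2 h) (g := aL2 h ∘ₗ d2) ?_ x
  intro s l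
  change d2 (aL2 h (tn (single s 1) (single l 1))) =
    aL2 h (d2 (tn (single s 1) (single l 1)))
  rw [bc_aL2_tn, bc_d2_tn, bc_d2_tn, bc_aL2_tn, bc_bd_aL]

theorem bc_aL_mul (g h : H) (c : Ch α) : aL (g * h) c = aL g (aL h c) := by
  have h1 : aL (g * h) = aL g ∘ₗ (aL h : Ch α →ₗ[ℤ] Ch α) := by
    apply Ch.ext_lin
    intro l
    have e1 : ∀ (h : H) (l : List α), aL h (single l 1 : Ch α) = single (l.map (h • ·)) 1 := by
      intro h l
      simp [aL]
    rw [LinearMap.comp_apply, e1, e1, e1, List.map_map]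
    have e2 : (fun x : α => (g * h) • x) = (fun x => g • x) ∘ (fun x => h • x) :=
      funext fun x => mul_smul g h x
    rw [e2]
  rw [h1]
  rfl

theorem bc_aL2_mul (g h : H) (x : Ch2 β α) : aL2 (g * h) x = aL2 g (aL2 h x) := by
  refine bc_ext (f := aL2 (g * h)) (g := aL2 g ∘ₗ aL2 h) ?_ x
  intro s l
  change aL2 (g * h) (tn (single s 1) (single l 1)) =
    aL2 g (aL2 h (tn (single s 1) (single l 1)))
  rw [bc_aL2_tn, bc_aL2_tn, bc_aL2_tn, bc_aL_mul, bc_aL_mul]

theorem bc_KL2_map (N : Subgroup H) (f : Ch2 β α →ₗ[ℤ] Ch2 β α)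
    (hf : ∀ n ∈ N, ∀ x, ∃ n' ∈ N, f (aL2 n x) = aL2 n' (f x)) {c : Ch2 β α}
    (hc : c ∈ KL2 N β α) : f c ∈ KL2 N β α := by
  have h1 : KL2 N β α ≤ (KL2 N β α).comap f := by
    refine Submodule.span_le.2 ?_
    rintro _ ⟨n, hn, x, rfl⟩
    obtain ⟨n', hn', h2⟩ := hf n hn x
    change f (aL2 n x - x) ∈ KL2 N β α
    rw [map_sub, h2]
    exact Submodule.subset_span ⟨n', hn', f x, rfl⟩
  exact h1 hc

theorem bc_KL2_d1 (N : Subgroup H) {c : Ch2 β α} (hc : c ∈ KL2 N β α) :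
    d1 c ∈ KL2 N β α :=
  bc_KL2_map N d1 (fun n hn x => ⟨n, hn, bc_d1_aL2 n x⟩) hc

theorem bc_KL2_d2 (N : Subgroup H) {c : Ch2 β α} (hc : c ∈ KL2 N β α) :
    d2 c ∈ KL2 N β α :=
  bc_KL2_map N d2 (fun n hn x => ⟨n, hn, bc_d2_aL2 n x⟩) hc

theorem bc_KL2_T (N : Subgroup H) [N.Normal] (h : H) {c : Ch2 β α}
    (hc : c ∈ KL2 N β α) : (aL2 h - 1 : Module.End ℤ (Ch2 β α)) c ∈ KL2 N β α := by
  have h1 : aL2 h c ∈ KL2 N β α := by
    refine bc_KL2_map N (aL2 h) (fun n hn x => ⟨h * n * h⁻¹,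
      Subgroup.Normal.conj_mem inferInstance n hn h, ?_⟩) hc
    rw [← bc_aL2_mul, ← bc_aL2_mul]
    congr 2
    group
  exact Submodule.sub_mem _ h1 hc

theorem bc_KL2_Tpow (N : Subgroup H) [N.Normal] (h : H) (n : ℕ) {c : Ch2 β α}
    (hc : c ∈ KL2 N β α) : ((aL2 h - 1 : Module.End ℤ (Ch2 β α)) ^ n) c ∈ KL2 N β α := by
  induction n with
  | zero => simpa using hc
  | succ n ih =>
    rw [pow_succ', Module.End.mul_apply]
    exact bc_KL2_T N h ih

theorem bc_T_comm (h : H) (f : Ch2 β α →ₗ[ℤ] Ch2 β α)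
    (hf : ∀ x, f (aL2 h x) = aL2 h (f x)) (n : ℕ) (x : Ch2 β α) :
    f (((aL2 h - 1 : Module.End ℤ (Ch2 β α)) ^ n) x) =
      ((aL2 h - 1 : Module.End ℤ (Ch2 β α)) ^ n) (f x) := by
  induction n with
  | zero => simp
  | succ n ih =>
    rw [pow_succ', Module.End.mul_apply, Module.End.mul_apply, ← ih]
    simp only [LinearMap.sub_apply, Module.End.one_apply, map_sub, hf]

theorem bc_map_supp {M : Type} [AddCommGroup M] {U : Set (List β × List α)}
    (f : Ch2 β α →ₗ[ℤ] M) (N : Submodule ℤ M) (h : ∀ x ∈ U, f (single x 1) ∈ N) {c : Ch2 β α}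
    (hc : c ∈ Finsupp.supported ℤ ℤ U) : f c ∈ N := by
  rw [← Finsupp.sum_single c, Finsupp.sum, map_sum]
  refine N.sum_mem fun l hl => ?_
  have hlS : l ∈ U := (Finsupp.mem_supported ℤ c).1 hc hl
  have : single l (c l) = c l • (single l 1 : Ch2 β α) := by simp
  rw [this, map_smul]
  exact N.smul_mem _ (h l hlS)

theorem bc_Sup_d1 {S : Set (List β)} (hS : Closed S) {p q : ℕ} {x : Ch2 β α}
    (hx : x ∈ Sup2 S α (p + 1) q) : d1 x ∈ Sup2 S α p q := by
  refine bc_map_supp d1 _ ?_ hx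
  rintro ⟨s, l⟩ ⟨⟨h1, h2⟩, h3⟩
  rw [bc_d1_single, Finsupp.mem_supported]
  intro y hy
  classical
  have hy' := Finsupp.mapDomain_support hy
  rw [Finset.mem_image] at hy'
  obtain ⟨s', h4, rfl⟩ := hy'
  obtain ⟨h5, h6⟩ := bdL_support s s' h4
  have h2' : s.length = p + 1 := h2
  exact ⟨⟨hS s h1 s' h5, by simp only; omega⟩, h3⟩

theorem bc_Sup_d2 {S : Set (List β)} {p q : ℕ} {x : Ch2 β α}
    (hx : x ∈ Sup2 S α p (q + 1)) : d2 x ∈ Sup2 S α p q := by
  refine bc_map_supp d2 _ ?_ hx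
  rintro ⟨s, l⟩ ⟨⟨h1, h2⟩, h3⟩
  rw [bc_d2_single, Finsupp.mem_supported]
  intro y hy
  classical
  have hy' := Finsupp.mapDomain_support hy
  rw [Finset.mem_image] at hy'
  obtain ⟨l', h4, rfl⟩ := hy'
  obtain ⟨h5, h6⟩ := bdL_support l l' h4
  have h3' : l.length = q + 1 := h3
  exact ⟨⟨h1, h2⟩, by simp only; omega⟩

theorem bc_Sup_aL2 {S : Set (List β)} (hinv : ∀ (h : H) (l : List β), l ∈ S →
    l.map (h • ·) ∈ S) (h : H) {p q : ℕ} {x : Ch2 β α}
    (hx : x ∈ Sup2 S α p q) : aL2 h x ∈ Sup2 S α p q := by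
  refine bc_map_supp (aL2 h) _ ?_ hx
  rintro ⟨s, l⟩ ⟨⟨h1, h2⟩, h3⟩
  have e3 : aL2 h (single (s, l) 1 : Ch2 β α) = single (s.map (h • ·), l.map (h • ·)) 1 := by
    simp [aL2]
  rw [e3]
  refine Finsupp.single_mem_supported ℤ 1 ⟨⟨hinv h s h1, ?_⟩, ?_⟩
  · simpa using h2
  · simpa using h3

theorem bc_Sup_Tpow {S : Set (List β)} (hinv : ∀ (h : H) (l : List β), l ∈ S →
    l.map (h • ·) ∈ S) (h : H) (n : ℕ) {p q : ℕ} {x : Ch2 β α}
    (hx : x ∈ Sup2 S α p q) :
    ((aL2 h - 1 : Module.End ℤ (Ch2 β α)) ^ n) x ∈ Sup2 S α p q := by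
  induction n with
  | zero => simpa using hx
  | succ n ih =>
    rw [pow_succ', Module.End.mul_apply]
    exact Submodule.sub_mem _ (bc_Sup_aL2 hinv h ih) ih

end bc

section defs

/-- the image of `Z` in `M / B` is finitely generated -/
def RF {M : Type} [AddCommGroup M] (Z B : Submodule ℤ M) : Prop := (Z.map B.mkQ).FG

variable {H : Type} [Group H]

/-- cycles of lists of length `q` modulo `N` -/
noncomputable def ZL (N : Subgroup H) (α : Type) [MulAction H α] (q : ℕ) : Submodule ℤ (Ch α) :=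
  Sup (Len Set.univ q) ⊓ (KL N α).comap bd

/-- boundaries of lists modulo `N` -/
noncomputable def BL (N : Subgroup H) (α : Type) [MulAction H α] (q : ℕ) : Submodule ℤ (Ch α) :=
  (Sup (Len Set.univ (q + 1))).map bd ⊔ KL N α

/-- the homology of `N` in degree `q - 1` is finitely generated -/
def HLf (N : Subgroup H) (α : Type) [MulAction H α] (q : ℕ) : Prop := RF (ZL N α q) (BL N α q)

variable (α β : Type) [MulAction H α] [MulAction H β]

/-- the chains of pairs of lists which vanish modulo `H` -/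
noncomputable abbrev K2 (H : Type) [Group H] (β α : Type) [MulAction H α] [MulAction H β] :
    Submodule ℤ (Ch2 β α) := KL2 (⊤ : Subgroup H) β α

/-- all chains of bidegree `(p, q)` -/
noncomputable abbrev S2 (β α : Type) (p q : ℕ) : Submodule ℤ (Ch2 β α) := Sup2 Set.univ α p q

/-- chains of bidegree `(p, q)` which are cycles for both boundaries -/
noncomputable def Z2 (H : Type) [Group H] (β α : Type) [MulAction H α] [MulAction H β] (p q : ℕ) :
    Submodule ℤ (Ch2 β α) := S2 β α p q ⊓ (K2 H β α).comap d1 ⊓ (K2 H β α).comap d2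

/-- the `d1`-boundaries of `d2`-cycles -/
noncomputable def B2 (H : Type) [Group H] (β α : Type) [MulAction H α] [MulAction H β] (p q : ℕ) :
    Submodule ℤ (Ch2 β α) := (S2 β α (p + 1) q ⊓ (K2 H β α).comap d2).map d1 ⊔ K2 H β α

/-- the `d2`-boundaries -/
noncomputable def D2 (H : Type) [Group H] (β α : Type) [MulAction H α] [MulAction H β] (p q : ℕ) :
    Submodule ℤ (Ch2 β α) := (S2 β α p (q + 1)).map d2 ⊔ K2 H β α

end defs

section mem
variable {H : Type} [Group H] {α β : Type} [MulAction H α] [MulAction H β]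

theorem mem_ZL {N : Subgroup H} {q : ℕ} {z : Ch α} :
    z ∈ ZL N α q ↔ z ∈ Sup (Len Set.univ q) ∧ bd z ∈ KL N α := Iff.rfl

theorem mem_BL {N : Subgroup H} {q : ℕ} {z : Ch α} :
    z ∈ BL N α q ↔ ∃ w ∈ Sup (Len Set.univ (q + 1)), z - bd w ∈ KL N α := by
  unfold BL
  rw [Submodule.mem_sup]
  constructor
  · rintro ⟨y, hy, k, hk, rfl⟩
    obtain ⟨w, hw, rfl⟩ := Submodule.mem_map.1 hy
    exact ⟨w, hw, by rwa [add_sub_cancel_left]⟩
  · rintro ⟨w, hw, h⟩
    exact ⟨bd w, Submodule.mem_map_of_mem hw, z - bd w, h, by abel⟩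

theorem mem_Z2 {p q : ℕ} {x : Ch2 β α} :
    x ∈ Z2 H β α p q ↔ x ∈ S2 β α p q ∧ d1 x ∈ K2 H β α ∧ d2 x ∈ K2 H β α := by
  unfold Z2
  rw [Submodule.mem_inf, Submodule.mem_inf, and_assoc]
  rfl

theorem mem_B2 {p q : ℕ} {x : Ch2 β α} :
    x ∈ B2 H β α p q ↔ ∃ y ∈ S2 β α (p + 1) q, d2 y ∈ K2 H β α ∧ x - d1 y ∈ K2 H β α := by
  unfold B2
  rw [Submodule.mem_sup]
  constructor
  · rintro ⟨y, hy, k, hk, rfl⟩
    obtain ⟨w, hw, rfl⟩ := Submodule.mem_map.1 hy
    exact ⟨w, hw.1, hw.2, by rwa [add_sub_cancel_left]⟩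
  · rintro ⟨w, hw, hw2, h⟩
    exact ⟨d1 w, Submodule.mem_map_of_mem ⟨hw, hw2⟩, x - d1 w, h, by abel⟩

theorem mem_D2 {p q : ℕ} {x : Ch2 β α} :
    x ∈ D2 H β α p q ↔ ∃ y ∈ S2 β α p (q + 1), x - d2 y ∈ K2 H β α := by
  unfold D2
  rw [Submodule.mem_sup]
  constructor
  · rintro ⟨y, hy, k, hk, rfl⟩
    obtain ⟨w, hw, rfl⟩ := Submodule.mem_map.1 hy
    exact ⟨w, hw, by rwa [add_sub_cancel_left]⟩
  · rintro ⟨w, hw, h⟩
    exact ⟨d2 w, Submodule.mem_map_of_mem hw, x - d2 w, h, by abel⟩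

theorem KL_single {N : Subgroup H} {n : H} (hn : n ∈ N) (x : Ch α) : aL n x - x ∈ KL N α :=
  Submodule.subset_span ⟨n, hn, x, rfl⟩

theorem KL2_single {N : Subgroup H} {n : H} (hn : n ∈ N) (x : Ch2 β α) : aL2 n x - x ∈ KL2 N β α :=
  Submodule.subset_span ⟨n, hn, x, rfl⟩

theorem aL_single (h : H) (l : List α) (n : ℤ) : aL h (single l n) = single (l.map (h • ·)) n := by
  simp [aL]

/-- `KL` is preserved by the maps which normalise the action -/
theorem KL_map {H' : Type} [Group H'] {α' : Type} [MulAction H' α'] {N : Subgroup H} {N' : Subgroup H'}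
    (f : Ch α →ₗ[ℤ] Ch α') (hf : ∀ n ∈ N, ∀ x, ∃ n' ∈ N', f (aL n x) = aL n' (f x)) {c : Ch α}
    (hc : c ∈ KL N α) : f c ∈ KL N' α' := by
  have h1 : KL N α ≤ (KL N' α').comap f := by
    refine Submodule.span_le.2 ?_
    rintro _ ⟨n, hn, x, rfl⟩
    obtain ⟨n', hn', h2⟩ := hf n hn x
    change f (aL n x - x) ∈ KL N' α'
    rw [map_sub, h2]
    exact Submodule.subset_span ⟨n', hn', f x, rfl⟩
  exact h1 hc

theorem KL_bd {N : Subgroup H} {c : Ch α} (hc : c ∈ KL N α) : bd c ∈ KL N α :=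
  KL_map bd (fun n hn x => ⟨n, hn, bc_bd_aL n x⟩) hc

theorem KL_aL {N : Subgroup H} [N.Normal] (h : H) {c : Ch α} (hc : c ∈ KL N α) : aL h c ∈ KL N α := by
  refine KL_map (aL h) (fun n hn x => ⟨h * n * h⁻¹, Subgroup.Normal.conj_mem inferInstance n hn h, ?_⟩) hc
  rw [← bc_aL_mul, ← bc_aL_mul]
  congr 2
  group

theorem Sup_aL (h : H) {q : ℕ} {c : Ch α} (hc : c ∈ Sup (Len Set.univ q)) :
    aL h c ∈ Sup (Len Set.univ q) := by
  refine map_Sup (aL h) _ ?_ hc
  rintro l ⟨-, hl⟩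
  rw [aL_single]
  refine single_mem_Sup (S := Len Set.univ q) ⟨trivial, ?_⟩ 1
  rw [List.length_map]
  exact hl

theorem Sup_bd {q : ℕ} {c : Ch α} (hc : c ∈ Sup (Len Set.univ (q + 1))) :
    bd c ∈ Sup (Len Set.univ q) := by
  refine map_Sup bd _ ?_ hc
  rintro l ⟨-, hl⟩
  rw [bd_single, one_smul, Finsupp.mem_supported]
  intro l' hl'
  have h := (bdL_support l l' hl').2
  exact ⟨trivial, by omega⟩

theorem tn_mem {p q : ℕ} {c : Ch β} {z : Ch α} (hc : c ∈ Sup (Len Set.univ p))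
    (hz : z ∈ Sup (Len Set.univ q)) : tn c z ∈ S2 β α p q := by
  refine map_Sup ((tn : Ch β →ₗ[ℤ] Ch α →ₗ[ℤ] Ch2 β α).flip z) _ ?_ hc
  intro s hs
  refine map_Sup (tn (single s 1)) _ ?_ hz
  intro l hl
  rw [tn_single, mul_one]
  exact Finsupp.single_mem_supported ℤ 1 ⟨hs, hl.2⟩

end mem

end TorE
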