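import Pool.Agent.Lib.MP_05cdf2_gt.E.EUa

/-! MP_05cdf2_gt, stream E, job EU: homology with coefficients in `ℤ^r / L` is finitely generated.

`L ≤ ℤ^r`. `ZU L p`: `c : Fin r → Ch β`, `c i` of length `p + 1`, such that `bd c` is congruent mod `KL` to a chain with values in `L`.
`BU L p`: `c` congruent to `bd c'` plus a chain with values in `L`.

`ru`: induction on `r`. `r = 0`: everything is `0`. Step `r + 1`: the image of `L` under the coordinate `0` is `dℤ`
(submodules of `ℤ` are principal: `IsPrincipalIdealRing`, `Submodule.IsPrincipal`); choose `l0 ∈ L` with `l0 0 = d`.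
`L' = {n : Fin r → ℤ | Fin.cons 0 n ∈ L}` (`Submodule.comap`).
Let `B' = {c | c 0 ∈ BC d p}` (`Submodule.comap` of `LinearMap.proj 0`). `BU L p ≤ B'` (the values of the coordinate `0` of an
`L`-valued chain are multiples of `d`, so this coordinate is `d • v`; `v` of length `p + 1`). `RF (ZU L p) B'`: `RF.rel` or
`RF.mono_left` with the coordinate `0` and `rf_cyclic`: `c ∈ ZU L p → c 0 ∈ ZC d p`.
`RF (ZU L p ⊓ B') (BU L p)`: `RF.rel` with `R = {(c, c'') | c - Fin.cons 0 c'' ∈ BU L p}`, target `ZU L' p`, `BU L' p` (induction).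
 h1: let `c ∈ ZU L p`, `c 0 - bd u - d • v ∈ KL`. Put `c'' i = c (i+1) - l0 (i+1) • v`. Then `c - cons 0 c''` has coordinate `0` equal to `c 0` and
 coordinates `l0 (i+1) • v`; it is in `BU L p`: take `c' = cons u 0` and the `L`-valued chain `l i = l0 i • v`: the difference is `c 0 - bd u -
 d • v` in coordinate `0` and `0` in the others. Next `c'' ∈ ZU L' p`: `BU L p ≤ ZU L p` (`bd_bd`, and `bd` of an `L`-valued
 chain is `L`-valued, `CLm_bd`), so `cons 0 c'' ∈ ZU L p`: there is an `L`-valued `l` with `- l 0 ∈ KL` and `bd (c'' i) - l (i+1) ∈ KL`. `l 0 = d • e` for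
 some chain `e`; if `d = 0` then `l 0 = 0` and take `e = 0`; if `d ≠ 0` then `e ∈ KL` by `KL_tf`. Then `l' i = l (i+1) - l0 (i+1) • e` is
 `L'`-valued (the tuple `l s - e s • l0` is in `L` and has coordinate `0` equal to `0`) and `bd (c'' i) - l' i ∈ KL`.
 h2: `c'' ∈ BU L' p` implies `cons 0 c'' ∈ BU L p` (extend by `0`). -/

set_option autoImplicit false

namespace TorE
open Finsupp Tor

variable {H : Type} [Group H] {β : Type} [MulAction H β] {r : ℕ}

/-- chains with values in `L` -/
def CLm (β : Type) (L : Submodule ℤ (Fin r → ℤ)) : Submodule ℤ (Fin r → Ch β) where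
  carrier := {l | ∀ s, (fun i => l i s) ∈ L}
  zero_mem' := fun s => L.zero_mem
  add_mem' := fun {a b} ha hb s => L.add_mem (ha s) (hb s)
  smul_mem' := fun n a ha s => L.smul_mem n (ha s)

theorem EU_map {L : Submodule ℤ (Fin r → ℤ)} {l : Fin r → Ch β} (hl : l ∈ CLm β L)
    (f : Ch β →ₗ[ℤ] Ch β) : (fun i => f (l i)) ∈ CLm β L := by
  classical
  intro s
  obtain ⟨U, hU⟩ : ∃ U : Finset (List β), U = Finset.univ.biUnion (fun i => (l i).support) :=
    ⟨_, rfl⟩
  have h2 : ∀ i, f (l i) s = ∑ t ∈ U, f (single t 1) s * l i t := by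
    intro i
    have hsub : (l i).support ⊆ U := by
      intro t ht
      rw [hU]
      exact Finset.mem_biUnion.2 ⟨i, Finset.mem_univ i, ht⟩
    have h3 : l i = ∑ t ∈ U, l i t • (single t 1 : Ch β) := by
      have h4 := Finsupp.sum_of_support_subset (l i) hsub (fun s n => (single s n : Ch β))
        (fun s _ => Finsupp.single_zero s)
      have h5 : (l i).sum (fun s n => (single s n : Ch β)) = l i := Finsupp.sum_single (l i)
      rw [h5] at h4
      refine h4.trans (Finset.sum_congr rfl fun s _ => ?_)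
      rw [Finsupp.smul_single, smul_eq_mul, mul_one]
    have h6 : f (l i) = ∑ t ∈ U, l i t • f (single t 1) := by
      conv_lhs => rw [h3]
      rw [map_sum]
      exact Finset.sum_congr rfl fun t _ => map_smul _ _ _
    rw [h6, Finsupp.finsetSum_apply]
    refine Finset.sum_congr rfl fun t _ => ?_
    rw [Finsupp.smul_apply, smul_eq_mul, mul_comm]
  have h3 : (fun i => f (l i) s) = ∑ t ∈ U, f (single t 1) s • (fun i => l i t) := by
    funext i
    rw [h2 i, Finset.sum_apply]
    rfl
  change (fun i => f (l i) s) ∈ L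
  rw [h3]
  exact Submodule.sum_mem _ fun t _ => L.smul_mem _ (hl t)

/-- extension by zero -/
def EU_cons (r : ℕ) (M : Type) [AddCommGroup M] : (Fin r → M) →ₗ[ℤ] (Fin (r + 1) → M) where
  toFun n := Fin.cons 0 n
  map_add' a b := by
    funext i
    refine Fin.cases ?_ (fun i => ?_) i
    · simp
    · simp
  map_smul' n a := by
    funext i
    refine Fin.cases ?_ (fun i => ?_) i
    · simp
    · simp

theorem EU_cons_zero {M : Type} [AddCommGroup M] (n : Fin r → M) : EU_cons r M n 0 = 0 := rfl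

theorem EU_cons_succ {M : Type} [AddCommGroup M] (n : Fin r → M) (i : Fin r) :
    EU_cons r M n i.succ = n i := rfl

theorem EU_div {d : ℤ} {x : Ch β} (h : ∀ s, d ∣ x s) : ∃ v : Ch β, x = d • v ∧
    ∀ S : Set (List β), x ∈ Sup S → v ∈ Sup S := by
  refine ⟨x.mapRange (fun n => n / d) (Int.zero_ediv d), ?_, fun S hS => ?_⟩
  · ext s
    rw [Finsupp.smul_apply, Finsupp.mapRange_apply, smul_eq_mul, Int.mul_ediv_cancel' (h s)]
  · rw [Finsupp.mem_supported] at hS ⊢
    intro s hs
    refine hS ?_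
    rw [Finset.mem_coe, Finsupp.mem_support_iff] at hs ⊢
    intro h0
    apply hs
    rw [Finsupp.mapRange_apply, h0, Int.zero_ediv]

theorem CLm_bd {L : Submodule ℤ (Fin r → ℤ)} {l : Fin r → Ch β} (hl : l ∈ CLm β L) :
    (fun i => bd (l i)) ∈ CLm β L := EU_map hl bd

theorem CLm_lenP {L : Submodule ℤ (Fin r → ℤ)} {l : Fin r → Ch β} (hl : l ∈ CLm β L) (q : ℕ) :
    (fun i => lenP β q (l i)) ∈ CLm β L := EU_map hl (lenP β q)

/-- cycles with coefficients in `ℤ^r / L` -/
noncomputable def ZU (H : Type) [Group H] (β : Type) [MulAction H β] (L : Submodule ℤ (Fin r → ℤ)) (p : ℕ) :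
    Submodule ℤ (Fin r → Ch β) where
  carrier := {c | (∀ i, c i ∈ Sup (Len Set.univ (p + 1))) ∧ ∃ l ∈ CLm β L,
    ∀ i, bd (c i) - l i ∈ KL (⊤ : Subgroup H) β}
  zero_mem' := ⟨fun i => Submodule.zero_mem _, 0, Submodule.zero_mem _, fun i => by simp⟩
  add_mem' := by
    rintro x y ⟨hx, e, he, he1⟩ ⟨hy, e', he', he1'⟩
    refine ⟨fun i => Submodule.add_mem _ (hx i) (hy i), e + e', Submodule.add_mem _ he he', fun i => ?_⟩
    have h := Submodule.add_mem _ (he1 i) (he1' i)
    have h2 : bd ((x + y) i) - (e + e') i = bd (x i) - e i + (bd (y i) - e' i) := by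
      simp only [Pi.add_apply, map_add]
      abel
    rw [h2]
    exact h
  smul_mem' := by
    rintro n x ⟨hx, e, he, he1⟩
    refine ⟨fun i => Submodule.smul_mem _ n (hx i), n • e, Submodule.smul_mem _ n he, fun i => ?_⟩
    have h := Submodule.smul_mem _ n (he1 i)
    rw [smul_sub] at h
    simpa only [Pi.smul_apply, map_smul] using h

/-- boundaries with coefficients in `ℤ^r / L` -/
noncomputable def BU (H : Type) [Group H] (β : Type) [MulAction H β] (L : Submodule ℤ (Fin r → ℤ)) (p : ℕ) :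
    Submodule ℤ (Fin r → Ch β) where
  carrier := {c | ∃ u : Fin r → Ch β, (∀ i, u i ∈ Sup (Len Set.univ (p + 2))) ∧ ∃ l ∈ CLm β L,
    (∀ i, l i ∈ Sup (Len Set.univ (p + 1))) ∧ ∀ i, c i - bd (u i) - l i ∈ KL (⊤ : Subgroup H) β}
  zero_mem' := ⟨0, fun i => Submodule.zero_mem _, 0, Submodule.zero_mem _, fun i => Submodule.zero_mem _,
    fun i => by simp⟩
  add_mem' := by
    rintro x y ⟨u, hu, e, he, he0, he1⟩ ⟨u', hu', e', he', he0', he1'⟩
    refine ⟨u + u', fun i => Submodule.add_mem _ (hu i) (hu' i), e + e', Submodule.add_mem _ he he',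
      fun i => Submodule.add_mem _ (he0 i) (he0' i), fun i => ?_⟩
    have h := Submodule.add_mem _ (he1 i) (he1' i)
    have h2 : (x + y) i - bd ((u + u') i) - (e + e') i =
        x i - bd (u i) - e i + (y i - bd (u' i) - e' i) := by
      simp only [Pi.add_apply, map_add]
      abel
    rw [h2]
    exact h
  smul_mem' := by
    rintro n x ⟨u, hu, e, he, he0, he1⟩
    refine ⟨n • u, fun i => Submodule.smul_mem _ n (hu i), n • e, Submodule.smul_mem _ n he,
      fun i => Submodule.smul_mem _ n (he0 i), fun i => ?_⟩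
    have h := Submodule.smul_mem _ n (he1 i)
    rw [smul_sub, smul_sub] at h
    simpa only [Pi.smul_apply, map_smul] using h

theorem EU_step (p r : ℕ) (h1 : HLf (⊤ : Subgroup H) β (p + 1)) (h0 : HLf (⊤ : Subgroup H) β p)
    (ih : ∀ L : Submodule ℤ (Fin r → ℤ), RF (ZU H β L p) (BU H β L p))
    (L : Submodule ℤ (Fin (r + 1) → ℤ)) : RF (ZU H β L p) (BU H β L p) := by
  obtain ⟨d, l0, hl0, hd0, hdiv⟩ : ∃ (d : ℤ) (l0 : Fin (r + 1) → ℤ), l0 ∈ L ∧ l0 0 = d ∧
      ∀ n ∈ L, d ∣ n 0 := by
    obtain ⟨d, hd⟩ := (IsPrincipalIdealRing.principal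
      (L.map (LinearMap.proj (R := ℤ) (φ := fun _ : Fin (r + 1) => ℤ) 0))).principal
    have h2 : d ∈ L.map (LinearMap.proj (R := ℤ) (φ := fun _ : Fin (r + 1) => ℤ) 0) := by
      rw [hd]
      exact Submodule.mem_span_singleton_self d
    obtain ⟨l0, hl0, h3⟩ := Submodule.mem_map.1 h2
    refine ⟨d, l0, hl0, h3, fun n hn => ?_⟩
    have h4 : n 0 ∈ L.map (LinearMap.proj (R := ℤ) (φ := fun _ : Fin (r + 1) => ℤ) 0) :=
      Submodule.mem_map.2 ⟨n, hn, rfl⟩
    rw [hd] at h4
    obtain ⟨a, ha⟩ := Submodule.mem_span_singleton.1 h4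
    exact ⟨a, by rw [← ha, smul_eq_mul, mul_comm]⟩
  have hd0' : ∀ l ∈ CLm β L, ∀ s, d ∣ l 0 s := fun l hl s => hdiv _ (hl s)
  have hCl : ∀ e : Ch β, (fun i => l0 i • e) ∈ CLm β L := by
    intro e s
    have h2 : (fun i => (l0 i • e) s) = e s • l0 := by
      funext i
      rw [Finsupp.smul_apply, Pi.smul_apply, smul_eq_mul, smul_eq_mul, mul_comm]
    change (fun i => (l0 i • e) s) ∈ L
    rw [h2]
    exact L.smul_mem _ hl0
  obtain ⟨B', hB'⟩ : ∃ B' : Submodule ℤ (Fin (r + 1) → Ch β), B' = (BC H β d p).comap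
    (LinearMap.proj (R := ℤ) (φ := fun _ : Fin (r + 1) => Ch β) 0) := ⟨_, rfl⟩
  have hmB : ∀ c, c ∈ B' ↔ c 0 ∈ BC H β d p := by
    intro c
    rw [hB']
    exact Iff.rfl
  refine RF.trans (B' := B') ?_ ?_ ?_
  · rintro c ⟨u, hu, l, hl, hl2, h⟩
    rw [hmB]
    obtain ⟨v, hv, hv2⟩ := EU_div (hd0' l hl)
    refine mem_BC.2 ⟨u 0, hu 0, v, hv2 _ (hl2 0), ?_⟩
    rw [← hv]
    exact h 0
  · refine RF.rel (LinearMap.proj (R := ℤ) (φ := fun _ : Fin (r + 1) => Ch β) 0).graph ?_ ?_
      (rf_cyclic (H := H) (β := β) d p h1 h0)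
    · rintro c ⟨hc, l, hl, h⟩
      obtain ⟨v, hv, -⟩ := EU_div (hd0' l hl)
      refine ⟨c 0, ⟨hc 0, v, ?_⟩, ?_⟩
      · rw [← hv]
        exact h 0
      · rw [LinearMap.mem_graph_iff]
        rfl
    · rintro c - z hz h
      rw [LinearMap.mem_graph_iff] at h
      rw [hmB]
      have h2 : z = c 0 := h
      rw [← h2]
      exact hz
  · refine RF.rel ((BU H β L p).comap (LinearMap.fst ℤ (Fin (r + 1) → Ch β) (Fin r → Ch β) -
      EU_cons r (Ch β) ∘ₗ LinearMap.snd ℤ (Fin (r + 1) → Ch β) (Fin r → Ch β))) ?_ ?_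
      (ih (L.comap (EU_cons r ℤ)))
    · rintro c ⟨⟨hc, l, hl, h⟩, hcB⟩
      have hcB' : c 0 ∈ BC H β d p := (hmB c).1 hcB
      obtain ⟨u, hu, v, hv, huv⟩ := mem_BC.1 hcB'
      obtain ⟨e, he, he2⟩ : ∃ e : Ch β, l 0 = d • e ∧ e - bd v ∈ KL (⊤ : Subgroup H) β := by
        by_cases hd : d = 0
        · refine ⟨bd v, ?_, ?_⟩
          · ext s
            have h2 := hd0' l hl s
            rw [hd, zero_dvd_iff] at h2
            rw [h2, hd, zero_smul]
            rfl
          · rw [sub_self]
            exact Submodule.zero_mem _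
        · obtain ⟨e, he, -⟩ := EU_div (hd0' l hl)
          refine ⟨e, he, KL_tf _ hd ?_⟩
          have h2 : bd (c 0 - bd u - d • v) ∈ KL (⊤ : Subgroup H) β := KL_bd huv
          rw [map_sub, map_sub, bd_bd, sub_zero, map_smul] at h2
          have h3 := Submodule.sub_mem _ h2 (h 0)
          have h4 : bd (c 0) - d • bd v - (bd (c 0) - l 0) = d • (e - bd v) := by
            rw [he, smul_sub]
            abel
          rw [← h4]
          exact h3
      refine ⟨fun i => c i.succ - l0 i.succ • v, ⟨fun i => ?_, fun i => l i.succ - l0 i.succ • e,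
        ?_, fun i => ?_⟩, ?_⟩
      · exact Submodule.sub_mem _ (hc i.succ) (Submodule.smul_mem _ _ hv)
      · intro s
        change EU_cons r ℤ (fun i => (l i.succ - l0 i.succ • e) s) ∈ L
        have h2 : EU_cons r ℤ (fun i => (l i.succ - l0 i.succ • e) s) =
            (fun i => l i s) - e s • l0 := by
          funext i
          refine Fin.cases ?_ (fun i => ?_) i
          · rw [EU_cons_zero, Pi.sub_apply, Pi.smul_apply, hd0, he, Finsupp.smul_apply,
              smul_eq_mul, smul_eq_mul, mul_comm, sub_self]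
          · rw [EU_cons_succ, Pi.sub_apply, Pi.smul_apply, Finsupp.sub_apply, Finsupp.smul_apply,
              smul_eq_mul, smul_eq_mul, mul_comm (l0 i.succ)]
        rw [h2]
        exact L.sub_mem (hl s) (L.smul_mem _ hl0)
      · change bd (c i.succ - l0 i.succ • v) - (l i.succ - l0 i.succ • e) ∈ KL (⊤ : Subgroup H) β
        have h2 := Submodule.add_mem _ (h i.succ) (Submodule.smul_mem _ (l0 i.succ) he2)
        have h3 : bd (c i.succ - l0 i.succ • v) - (l i.succ - l0 i.succ • e) =
            bd (c i.succ) - l i.succ + l0 i.succ • (e - bd v) := by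
          rw [map_sub, map_smul, smul_sub]
          abel
        rw [h3]
        exact h2
      · change c - EU_cons r (Ch β) (fun i => c i.succ - l0 i.succ • v) ∈ BU H β L p
        refine ⟨Fin.cons u (fun _ => 0), fun i => ?_, fun i => l0 i • v, hCl v, fun i => ?_,
          fun i => ?_⟩
        · refine Fin.cases ?_ (fun i => ?_) i
          · exact hu
          · exact Submodule.zero_mem _
        · exact Submodule.smul_mem _ _ hv
        · refine Fin.cases ?_ (fun i => ?_) i
          · change c 0 - 0 - bd u - l0 0 • v ∈ KL (⊤ : Subgroup H) β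
            rw [sub_zero, hd0]
            exact huv
          · change c i.succ - (c i.succ - l0 i.succ • v) - bd 0 - l0 i.succ • v ∈
              KL (⊤ : Subgroup H) β
            have h2 : c i.succ - (c i.succ - l0 i.succ • v) - bd 0 - l0 i.succ • v = 0 := by
              rw [map_zero]
              abel
            rw [h2]
            exact Submodule.zero_mem _
    · rintro c - c' ⟨u, hu, l, hl, hl2, h⟩ hR
      have hR' : c - EU_cons r (Ch β) c' ∈ BU H β L p := hR
      have h2 : EU_cons r (Ch β) c' ∈ BU H β L p := by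
        refine ⟨EU_cons r (Ch β) u, fun i => ?_, EU_cons r (Ch β) l, fun s => ?_, fun i => ?_,
          fun i => ?_⟩
        · refine Fin.cases ?_ (fun i => ?_) i
          · exact Submodule.zero_mem _
          · exact hu i
        · have h3 : (fun i => EU_cons r (Ch β) l i s) = EU_cons r ℤ (fun i => l i s) := by
            funext i
            refine Fin.cases ?_ (fun i => ?_) i
            · rfl
            · rfl
          change (fun i => EU_cons r (Ch β) l i s) ∈ L
          rw [h3]
          exact hl s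
        · refine Fin.cases ?_ (fun i => ?_) i
          · exact Submodule.zero_mem _
          · exact hl2 i
        · refine Fin.cases ?_ (fun i => ?_) i
          · change (0 : Ch β) - bd 0 - 0 ∈ KL (⊤ : Subgroup H) β
            rw [map_zero, sub_zero, sub_zero]
            exact Submodule.zero_mem _
          · exact h i
      have h3 := Submodule.add_mem _ hR' h2
      rwa [sub_add_cancel] at h3

theorem ru (p : ℕ) (h1 : HLf (⊤ : Subgroup H) β (p + 1)) (h0 : HLf (⊤ : Subgroup H) β p) :
    ∀ (r : ℕ) (L : Submodule ℤ (Fin r → ℤ)), RF (ZU H β L p) (BU H β L p) := by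
  intro r
  induction r with
  | zero =>
    intro L
    refine RF.of_le fun c _ => ?_
    have h2 : c = 0 := Subsingleton.elim _ _
    rw [h2]
    exact Submodule.zero_mem _
  | succ r ih => exact fun L => EU_step p r h1 h0 ih L

end TorE
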