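import Pool.Agent.Lib.MP_05cdf2_gt.E.ECc
import Pool.Agent.Lib.MP_05cdf2_gt.E.EU

/-! MP_05cdf2_gt, stream E, job EE: the second page is finitely generated.

`ee`: `RF (Z2 (p+1) q) (B2 (p+1) q ⊔ D2 (p+1) q)`. `q = 0`: `S2_zero_le`; `q = 1`: `col_one` (`RF.of_le`).
`q ≥ 2`: by `RF.iff` there are `z i ∈ ZL K Γ q`, `i : Fin r` (enumerate the finite set), such that every `y ∈ ZL K Γ q` is congruent mod `BL K Γ q` to
a combination of the `z i`. `repr`: every `x ∈ Z2 (p+1) q` is congruent mod `D2 (p+1) q` to `Psi z c` with `c i ∈ Sup (Len univ (p+1))`: `col_cyc`,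
`x ≡ ∑ tn (single t 1) (y t)`, `y t ≡ ∑ n t i • z i` mod `BL`, `tn_BL`; `c i = ∑ t, single t (n t i)`.
Let `L = {n : Fin r → ℤ | ∑ i, n i • z i ∈ BL K Γ q}`.
`p = 0`: `c i ∈ Sup (Len univ 1)` is congruent mod `KL ⊤` to a multiple of `single [1] 1` (`Γ` is transitive on `Γ ⧸ K`); with `psi_KL`,
`x ≡ ∑ m i • tn (single [1] 1) (z i)`: `Z2 1 q ≤ span {tn (single [1] 1) (z i)} ⊔ D2`, so `RF` (`RF.mono_left`, `RF.sup`, `RF.of_fg`, `RF.of_le`).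
`p = p' + 1`: `RF.rel` with `R = {(x, c) | x - Psi z c ∈ D2 (p'+2) q}` and `ru` for `L` and `p' + 1` (`ZU L (p' + 1)`: `c i` of length `p' + 2`;
hypotheses `HLf ⊤ (Γ ⧸ K) (p' + 2)`, `HLf ⊤ (Γ ⧸ K) (p' + 1)`).
 h1: `d1 (Psi z c) = Psi z (bd c)` (`bc_d1_tn`); `d1 x ∈ K2` and `d1` maps `D2 (p'+2) q` to `D2 (p'+1) q` (`bc_d1_d2`, `bc_KL2_d1`, `bc_Sup_d1`), so
 `Psi z (bd c) ∈ D2 (p'+1) q`, and `psi_ker` (for `p = p'`) gives the `L`-valued chain.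
 h2: `c - bd c' - l ∈ KL` coordinatewise. All are of length `p' + 2`, so `Psi z c = d1 (Psi z c') + Psi z l + Psi z (κ)` with `psi_L`, `psi_KL`;
 `Psi z c' ∈ S2 (p'+3) q` (`tn_mem`) and `d2 (Psi z c') = ∑ tn (c' i) (bd (z i)) ∈ K2` (`bc_d2_tn`, `tn_KL`), so `d1 (Psi z c') ∈ B2 (p'+2) q`. -/

set_option autoImplicit false

namespace TorE
open Finsupp Tor

variable {Γ : Type} [Group Γ] {K : Subgroup Γ}

/-- `Psi` as a linear map -/
noncomputable def eePsi (K : Subgroup Γ) {r : ℕ} (z : Fin r → Ch Γ) :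
    (Fin r → Ch (Γ ⧸ K)) →ₗ[ℤ] Ch2 (Γ ⧸ K) Γ :=
  ∑ i, ((tn : Ch (Γ ⧸ K) →ₗ[ℤ] Ch Γ →ₗ[ℤ] Ch2 (Γ ⧸ K) Γ).flip (z i)) ∘ₗ
    (LinearMap.proj i : (Fin r → Ch (Γ ⧸ K)) →ₗ[ℤ] Ch (Γ ⧸ K))

theorem eePsi_apply {r : ℕ} (z : Fin r → Ch Γ) (c : Fin r → Ch (Γ ⧸ K)) :
    eePsi K z c = Psi z c := by
  simp [eePsi, Psi]

theorem ee_gen {M : Type} [AddCommGroup M] {Z B : Submodule ℤ M} (h : RF Z B) :
    ∃ (r : ℕ) (z : Fin r → M), (∀ i, z i ∈ Z) ∧
      ∀ y ∈ Z, ∃ n : Fin r → ℤ, y - ∑ i, n i • z i ∈ B := by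
  obtain ⟨s, hs, h2⟩ := RF.iff.1 h
  refine ⟨s.card, fun i => (s.equivFin.symm i : M), fun i => hs _ (s.equivFin.symm i).2,
    fun y hy => ?_⟩
  obtain ⟨w, hw, hw2⟩ := h2 y hy
  have hr : Set.range (fun i => (s.equivFin.symm i : M)) = (s : Set M) := by
    ext m
    constructor
    · rintro ⟨i, rfl⟩
      exact (s.equivFin.symm i).2
    · intro hm
      exact ⟨s.equivFin ⟨m, hm⟩, by simp⟩
  rw [← hr, Submodule.mem_span_range_iff_exists_fun] at hw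
  obtain ⟨n, rfl⟩ := hw
  exact ⟨n, hw2⟩

theorem ee_single {β : Type} {t : List β} {p : ℕ} (h : t.length = p) (n : ℤ) :
    (single t n : Ch β) ∈ Sup (Len Set.univ p) :=
  single_mem_Sup (S := Len Set.univ p) ⟨trivial, h⟩ n

theorem ee_K2_le (p q : ℕ) : K2 Γ (Γ ⧸ K) Γ ≤ D2 Γ (Γ ⧸ K) Γ p q := le_sup_right

theorem ee_repr [K.Normal] {p q r : ℕ} (z : Fin r → Ch Γ)
    (hz2 : ∀ y ∈ ZL K Γ q, ∃ n : Fin r → ℤ, y - ∑ i, n i • z i ∈ BL K Γ q)
    {x : Ch2 (Γ ⧸ K) Γ} (hx : x ∈ S2 (Γ ⧸ K) Γ (p + 1) q) (hd : d2 x ∈ K2 Γ (Γ ⧸ K) Γ) :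
    ∃ c : Fin r → Ch (Γ ⧸ K), (∀ i, c i ∈ Sup (Len Set.univ (p + 1))) ∧
      x - Psi z c ∈ D2 Γ (Γ ⧸ K) Γ (p + 1) q := by
  classical
  obtain ⟨c0, h1, h2, h3⟩ := col_cyc hx hd
  choose! n hn using hz2
  refine ⟨fun i => ∑ t ∈ c0.support, single t (n (c0 t) i), fun i => ?_, ?_⟩
  · exact Submodule.sum_mem _ fun t ht => ee_single (h1 t ht).2 _
  · have e1 : Psi z (fun i => ∑ t ∈ c0.support, (single t (n (c0 t) i) : Ch (Γ ⧸ K))) =
        ∑ t ∈ c0.support, tn (single t 1) (∑ i, n (c0 t) i • z i) := by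
      unfold Psi
      simp only [map_sum, LinearMap.sum_apply, map_smul]
      rw [Finset.sum_comm]
      refine Finset.sum_congr rfl fun t ht => Finset.sum_congr rfl fun i hi => ?_
      have e2 : (single t (n (c0 t) i) : Ch (Γ ⧸ K)) = n (c0 t) i • single t 1 := by simp
      rw [e2, map_smul, LinearMap.smul_apply]
    have e3 : x - Psi z (fun i => ∑ t ∈ c0.support, (single t (n (c0 t) i) : Ch (Γ ⧸ K))) =
        (x - c0.sum (fun t z => tn (single t 1) z)) +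
        ∑ t ∈ c0.support, tn (single t 1) (c0 t - ∑ i, n (c0 t) i • z i) := by
      rw [e1, Finsupp.sum]
      simp only [map_sub, Finset.sum_sub_distrib]
      abel
    rw [e3]
    refine Submodule.add_mem _ (ee_K2_le _ _ h3) (Submodule.sum_mem _ fun t ht => ?_)
    exact tn_BL (ee_single (h1 t ht).2 _) (hn _ (h2 t))

theorem ee_one {c : Ch (Γ ⧸ K)} (hc : c ∈ Sup (Len Set.univ 1)) :
    ∃ m : ℤ, c - m • single [((1 : Γ) : Γ ⧸ K)] 1 ∈ KL (⊤ : Subgroup Γ) (Γ ⧸ K) := by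
  let ε : Ch (Γ ⧸ K) →ₗ[ℤ] ℤ := Finsupp.linearCombination ℤ (fun _ => (1 : ℤ))
  let g : Ch (Γ ⧸ K) →ₗ[ℤ] Ch (Γ ⧸ K) :=
    LinearMap.id - ε.smulRight (single [((1 : Γ) : Γ ⧸ K)] 1)
  refine ⟨ε c, ?_⟩
  have h1 : g c ∈ KL (⊤ : Subgroup Γ) (Γ ⧸ K) := by
    refine map_Sup g _ ?_ hc
    rintro l ⟨-, hl⟩
    obtain ⟨σ, rfl⟩ := List.length_eq_one_iff.1 hl
    obtain ⟨γ, rfl⟩ := QuotientGroup.mk_surjective σ
    have h2 : g (single [(γ : Γ ⧸ K)] 1) =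
        aL γ (single [((1 : Γ) : Γ ⧸ K)] 1) - single [((1 : Γ) : Γ ⧸ K)] 1 := by
      rw [aL_single]
      simp only [g, ε, LinearMap.sub_apply, LinearMap.id_apply, LinearMap.smulRight_apply,
        Finsupp.linearCombination_single, smul_eq_mul, mul_one, one_smul, List.map_cons,
        List.map_nil]
      congr 3
      rw [MulAction.Quotient.smul_mk, smul_eq_mul, mul_one]
    rw [h2]
    exact KL_single (Subgroup.mem_top γ) _
  exact h1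

theorem ee_d1_D2 {p q : ℕ} {x : Ch2 (Γ ⧸ K) Γ} (hx : x ∈ D2 Γ (Γ ⧸ K) Γ (p + 1) q) :
    d1 x ∈ D2 Γ (Γ ⧸ K) Γ p q := by
  obtain ⟨y, hy, h⟩ := mem_D2.1 hx
  refine mem_D2.2 ⟨d1 y, bc_Sup_d1 (fun _ _ _ _ => trivial) hy, ?_⟩
  have h2 := bc_KL2_d1 _ h
  rwa [map_sub, bc_d1_d2] at h2

theorem ee_d1_Psi {r : ℕ} (z : Fin r → Ch Γ) (c : Fin r → Ch (Γ ⧸ K)) :
    d1 (Psi z c) = Psi z (fun i => bd (c i)) := by
  unfold Psi
  rw [map_sum]
  exact Finset.sum_congr rfl fun i _ => bc_d1_tn _ _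

theorem ee [K.Normal] (p q : ℕ) (hK : HLf K Γ q)
    (hT : ∀ γ : Γ, ∀ z ∈ ZL K Γ q, aL γ z - z ∈ BL K Γ q)
    (h1 : 2 ≤ q → HLf (⊤ : Subgroup Γ) (Γ ⧸ K) (p + 1)) (h0 : 2 ≤ q → HLf (⊤ : Subgroup Γ) (Γ ⧸ K) p) :
    RF (Z2 Γ (Γ ⧸ K) Γ (p + 1) q) (B2 Γ (Γ ⧸ K) Γ (p + 1) q ⊔ D2 Γ (Γ ⧸ K) Γ (p + 1) q) := by
  by_cases hq0 : q = 0
  · subst hq0
    refine RF.of_le fun x hx => ?_
    exact Submodule.mem_sup_right (S2_zero_le (p + 1) (mem_Z2.1 hx).1)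
  by_cases hq1 : q = 1
  · subst hq1
    refine RF.of_le fun x hx => ?_
    exact Submodule.mem_sup_right (col_one (mem_Z2.1 hx).1 (mem_Z2.1 hx).2.2)
  have hq : 2 ≤ q := by omega
  obtain ⟨r, z, hz, hz2⟩ := ee_gen hK
  cases p with
  | zero =>
    have h2 : Z2 Γ (Γ ⧸ K) Γ (0 + 1) q ≤
        Submodule.span ℤ (Set.range fun i => tn (single [((1 : Γ) : Γ ⧸ K)] 1) (z i)) ⊔
          D2 Γ (Γ ⧸ K) Γ (0 + 1) q := by
      intro x hx
      obtain ⟨hx1, -, hx3⟩ := mem_Z2.1 hx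
      obtain ⟨c, hc, hc2⟩ := ee_repr z hz2 hx1 hx3
      choose m hm using fun i => ee_one (hc i)
      have h3 : Psi z (fun i => c i - m i • single [((1 : Γ) : Γ ⧸ K)] 1) ∈
          D2 Γ (Γ ⧸ K) Γ (0 + 1) q := by
        refine psi_KL hT z hz _ (fun i => ?_) hm
        exact Submodule.sub_mem _ (hc i)
          (Submodule.smul_mem _ _ (ee_single (by simp) _))
      have h4 : Psi z (fun i => c i - m i • single [((1 : Γ) : Γ ⧸ K)] 1) =
          Psi z c - ∑ i, m i • tn (single [((1 : Γ) : Γ ⧸ K)] 1) (z i) := by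
        unfold Psi
        rw [← Finset.sum_sub_distrib]
        refine Finset.sum_congr rfl fun i _ => ?_
        rw [map_sub, map_smul, LinearMap.sub_apply, LinearMap.smul_apply]
      have h5 : x = (∑ i, m i • tn (single [((1 : Γ) : Γ ⧸ K)] 1) (z i)) +
          ((x - Psi z c) + Psi z (fun i => c i - m i • single [((1 : Γ) : Γ ⧸ K)] 1)) := by
        rw [h4]
        abel
      rw [h5]
      refine Submodule.add_mem_sup (Submodule.sum_mem _ fun i _ => Submodule.smul_mem _ _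
        (Submodule.subset_span ⟨i, rfl⟩)) (Submodule.add_mem _ hc2 h3)
    refine RF.mono_left h2 (RF.sup (RF.of_fg ?_) (RF.of_le le_sup_right))
    exact Submodule.fg_span (Set.finite_range _)
  | succ p =>
    let L : Submodule ℤ (Fin r → ℤ) := (BL K Γ q).comap
      (Fintype.linearCombination ℤ z)
    have hL : ∀ n : Fin r → ℤ, n ∈ L ↔ ∑ i, n i • z i ∈ BL K Γ q := by
      intro n
      rw [Submodule.mem_comap, Fintype.linearCombination_apply]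
    let SS : Submodule ℤ (Fin r → Ch (Γ ⧸ K)) :=
      Submodule.pi Set.univ (fun _ => Sup (Len Set.univ (p + 1 + 1)))
    let R : Submodule ℤ (Ch2 (Γ ⧸ K) Γ × (Fin r → Ch (Γ ⧸ K))) :=
      (D2 Γ (Γ ⧸ K) Γ (p + 1 + 1) q).comap
        (LinearMap.fst ℤ _ _ - (eePsi K z) ∘ₗ LinearMap.snd ℤ _ _) ⊓
        SS.comap (LinearMap.snd ℤ _ _)
    have hR : ∀ x c, (x, c) ∈ R ↔ x - Psi z c ∈ D2 Γ (Γ ⧸ K) Γ (p + 1 + 1) q ∧
        ∀ i, c i ∈ Sup (Len Set.univ (p + 1 + 1)) := by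
      intro x c
      rw [Submodule.mem_inf, Submodule.mem_comap, Submodule.mem_comap]
      simp only [LinearMap.sub_apply, LinearMap.fst_apply, LinearMap.comp_apply,
        LinearMap.snd_apply, eePsi_apply, SS, Submodule.mem_pi, Set.mem_univ, true_implies]
    refine RF.rel R ?_ ?_ (ru (p + 1) (h1 hq) (h0 hq) r L)
    · intro x hx
      obtain ⟨hx1, hx2, hx3⟩ := mem_Z2.1 hx
      obtain ⟨c, hc, hc2⟩ := ee_repr z hz2 hx1 hx3
      have h3 : Psi z (fun i => bd (c i)) ∈ D2 Γ (Γ ⧸ K) Γ (p + 1) q := by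
        rw [← ee_d1_Psi]
        have h4 := ee_d1_D2 hc2
        rw [map_sub] at h4
        have h5 : d1 (Psi z c) = d1 x - (d1 x - d1 (Psi z c)) := by abel
        rw [h5]
        exact Submodule.sub_mem _ (ee_K2_le _ _ hx2) h4
      obtain ⟨l, hl1, hl2, hl3⟩ := psi_ker hT z hz (fun i => bd (c i)) (fun i => Sup_bd (hc i)) h3
      refine ⟨c, ⟨hc, l, fun s => (hL _).2 (hl3 s), hl1⟩, (hR _ _).2 ⟨hc2, hc⟩⟩
    · rintro x hx c ⟨u, hu, l, hl, hl2, hl3⟩ hxc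
      obtain ⟨h3, h4⟩ := (hR _ _).1 hxc
      have h5 : Psi z l ∈ D2 Γ (Γ ⧸ K) Γ (p + 1 + 1) q :=
        psi_L z l hl2 fun s => (hL _).1 (hl s)
      have h6 : Psi z (fun i => c i - bd (u i) - l i) ∈ D2 Γ (Γ ⧸ K) Γ (p + 1 + 1) q := by
        refine psi_KL hT z hz _ (fun i => ?_) hl3
        exact Submodule.sub_mem _ (Submodule.sub_mem _ (h4 i) (Sup_bd (hu i))) (hl2 i)
      have h7 : d1 (Psi z u) ∈ B2 Γ (Γ ⧸ K) Γ (p + 1 + 1) q := by
        refine mem_B2.2 ⟨Psi z u, ?_, ?_, ?_⟩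
        · exact Submodule.sum_mem _ fun i _ => tn_mem (hu i) (mem_ZL.1 (hz i)).1
        · unfold Psi
          rw [map_sum]
          refine Submodule.sum_mem _ fun i _ => ?_
          rw [bc_d2_tn]
          exact tn_KL _ (mem_ZL.1 (hz i)).2
        · rw [sub_self]
          exact Submodule.zero_mem _
      have h8 : Psi z (fun i => c i - bd (u i) - l i) = Psi z c - d1 (Psi z u) - Psi z l := by
        rw [ee_d1_Psi]
        unfold Psi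
        rw [← Finset.sum_sub_distrib, ← Finset.sum_sub_distrib]
        refine Finset.sum_congr rfl fun i _ => ?_
        rw [map_sub, map_sub, LinearMap.sub_apply, LinearMap.sub_apply]
      have h9 : x = d1 (Psi z u) + ((x - Psi z c) + (Psi z l +
          Psi z (fun i => c i - bd (u i) - l i))) := by
        rw [h8]
        abel
      rw [h9]
      exact Submodule.add_mem_sup h7 (Submodule.add_mem _ h3 (Submodule.add_mem _ h5 h6))

end TorE
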