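import Pool.Agent.Lib.MP_05cdf2_gt.E.ERF
import Pool.Agent.Lib.MP_05cdf2_gt.E.ETf

/-! MP_05cdf2_gt, stream E, job ELa (of ELa, ELb): if the homology of `K` and of `Γ` is finitely generated in low degrees and `Γ` acts trivially
on the homology of `K` then the homology of `Γ / K` is finitely generated.

`G p q` means `RF (Z2 p q) (B2 p q)`.
`lhs_rows`: rows are exact for `q ≥ 1`: `Tor.rows` with `N = ⊤`, `α = Γ` (free action), `S = univ` (every cycle of lists of length `p`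
bounds: cone with `1`).
`lhs_base`: `G 0 n` from `HLf ⊤ Γ n`: use `RF.map` with `f = tn (single [] 1)`: every `x ∈ Z2 0 n` is `tn (single [] 1) c` with `c ∈ ZL ⊤ Γ n`
(`x` is supported on pairs `([], l)`; `c = lmapDomain Prod.snd x`; `lmapDomain Prod.snd` maps `K2` to `KL ⊤ Γ` and intertwines `d2` and `bd`).
The image of `BL ⊤ Γ n`: `tn (single [] 1) (bd w) = d2 (tn (single [] 1) w)`; put `X = tn (single [] 1) w ∈ S2 0 (n+1)`, `d1 X = 0`; `lhs_rows` gives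
`Y ∈ S2 1 (n+1)`, `d1 Y - X ∈ K2`; so `d2 X ≡ d2 d1 Y = d1 (d2 Y)`, `d2 (d2 Y) = 0`: in `B2 0 n`. `tn (single [] 1) k ∈ K2` for `k ∈ KL ⊤ Γ`.
`lhs_end`: `G n 0` gives `HLf ⊤ (Γ ⧸ K) n`: `RF.map` with `f : Ch2 → Ch β`, `(s, []) ↦ s`, `(s, l) ↦ 0` for `l ≠ []`. It maps `K2` to
`KL ⊤ β` and intertwines `d1` and `bd`. `ZL ⊤ β n` is contained in the image of `Z2 n 0` (`tn c (single [] 1)`). -/

set_option autoImplicit false

namespace TorE
open Finsupp Tor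

variable {Γ : Type} [Group Γ] {K : Subgroup Γ}

theorem ELa_S2_ext {M : Type} [AddCommGroup M] {β α : Type} {p q : ℕ} (f g : Ch2 β α →ₗ[ℤ] M)
    (h : ∀ s l, s.length = p → l.length = q → f (single (s, l) 1) = g (single (s, l) 1))
    {x : Ch2 β α} (hx : x ∈ S2 β α p q) : f x = g x := by
  have h1 : (f - g) x ∈ (⊥ : Submodule ℤ M) := by
    refine bc_map_supp (f - g) ⊥ ?_ hx
    rintro ⟨s, l⟩ ⟨⟨-, h2⟩, h3⟩
    rw [Submodule.mem_bot, LinearMap.sub_apply, sub_eq_zero]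
    exact h s l h2 h3
  rw [Submodule.mem_bot, LinearMap.sub_apply, sub_eq_zero] at h1
  exact h1

theorem ELa_closed {β : Type} : Closed (Set.univ : Set (List β)) := fun _ _ _ _ => trivial

theorem ELa_nil_mem {β : Type} : (single [] 1 : Ch β) ∈ Sup (Len Set.univ 0) :=
  single_mem_Sup (S := Len Set.univ 0) ⟨trivial, rfl⟩ 1

theorem ELa_bd_nil {β : Type} : bd (single [] 1 : Ch β) = 0 := by
  rw [bd_single, bdL_nil, smul_zero]

theorem ELa_aL_nil {H : Type} [Group H] {β : Type} [MulAction H β] (h : H) :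
    aL h (single [] 1 : Ch β) = single [] 1 := by
  rw [aL_single]
  rfl

theorem ELa_KL2_of {H : Type} [Group H] {α β : Type} [MulAction H α] [MulAction H β]
    {γ : Type} [MulAction H γ] (f : Ch γ →ₗ[ℤ] Ch2 β α) (hf : ∀ (n : H) (x : Ch γ), f (aL n x) = aL2 n (f x))
    {c : Ch γ} (hc : c ∈ KL (⊤ : Subgroup H) γ) : f c ∈ K2 H β α := by
  have h1 : KL (⊤ : Subgroup H) γ ≤ (K2 H β α).comap f := by
    refine Submodule.span_le.2 ?_
    rintro _ ⟨n, hn, x, rfl⟩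
    change f (aL n x - x) ∈ K2 H β α
    rw [map_sub, hf]
    exact KL2_single hn (f x)
  exact h1 hc

theorem ELa_KL_of {H : Type} [Group H] {α β : Type} [MulAction H α] [MulAction H β]
    {γ : Type} [MulAction H γ] (f : Ch2 β α →ₗ[ℤ] Ch γ) (hf : ∀ (n : H) (x : Ch2 β α), f (aL2 n x) = aL n (f x))
    {c : Ch2 β α} (hc : c ∈ K2 H β α) : f c ∈ KL (⊤ : Subgroup H) γ := by
  have h1 : K2 H β α ≤ (KL (⊤ : Subgroup H) γ).comap f := by
    refine Submodule.span_le.2 ?_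
    rintro _ ⟨n, hn, x, rfl⟩
    change f (aL2 n x - x) ∈ KL (⊤ : Subgroup H) γ
    rw [map_sub, hf]
    exact KL_single hn (f x)
  exact h1 hc

theorem ELa_aL2_single {H : Type} [Group H] {α β : Type} [MulAction H α] [MulAction H β] (h : H)
    (s : List β) (l : List α) (a : ℤ) : aL2 h (single (s, l) a : Ch2 β α) =
      single (s.map (h • ·), l.map (h • ·)) a := by
  simp [aL2]

/-- the second component -/
noncomputable def ELa_snd (β α : Type) : Ch2 β α →ₗ[ℤ] Ch α := Finsupp.lmapDomain ℤ ℤ Prod.snd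

theorem ELa_snd_single {β α : Type} (s : List β) (l : List α) (a : ℤ) :
    ELa_snd β α (single (s, l) a) = single l a := by
  simp [ELa_snd]

theorem ELa_snd_aL2 {H : Type} [Group H] {α β : Type} [MulAction H α] [MulAction H β] (n : H)
    (x : Ch2 β α) : ELa_snd β α (aL2 n x) = aL n (ELa_snd β α x) := by
  refine bc_ext (f := ELa_snd β α ∘ₗ aL2 n) (g := aL n ∘ₗ ELa_snd β α) ?_ x
  intro s l
  change ELa_snd β α (aL2 n (tn (single s 1) (single l 1))) =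
    aL n (ELa_snd β α (tn (single s 1) (single l 1)))
  rw [tn_single, ELa_aL2_single, ELa_snd_single, ELa_snd_single, aL_single]

theorem ELa_snd_d2 {α β : Type} (x : Ch2 β α) : ELa_snd β α (d2 x) = bd (ELa_snd β α x) := by
  have h : (ELa_snd β α ∘ₗ d2 : Ch2 β α →ₗ[ℤ] Ch α) = bd ∘ₗ ELa_snd β α := by
    refine Finsupp.lhom_ext' fun y => LinearMap.ext_ring ?_
    obtain ⟨s, l⟩ := y
    change ELa_snd β α (d2 (single (s, l) 1)) = bd (ELa_snd β α (single (s, l) 1))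
    unfold d2
    rw [Finsupp.linearCombination_single, one_smul, ELa_snd_single, bd_single, one_smul]
    change mapDomain Prod.snd (mapDomain (fun l => (s, l)) (bdL l)) = bdL l
    rw [← mapDomain_comp]
    exact mapDomain_id
  exact LinearMap.congr_fun h x

/-- the lists `s` paired with the empty list -/
noncomputable def ELa_fst (β α : Type) : Ch2 β α →ₗ[ℤ] Ch β :=
  Finsupp.linearCombination ℤ (fun x : List β × List α =>
    match x.2 with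
    | [] => single x.1 1
    | _ :: _ => 0)

theorem ELa_fst_nil {β α : Type} (s : List β) : ELa_fst β α (single (s, []) 1) = single s 1 := by
  unfold ELa_fst
  rw [Finsupp.linearCombination_single, one_smul]

theorem ELa_fst_cons {β α : Type} (s : List β) (a : α) (l : List α) :
    ELa_fst β α (single (s, a :: l) 1) = 0 := by
  unfold ELa_fst
  rw [Finsupp.linearCombination_single, one_smul]

theorem ELa_fst_tn_nil {β α : Type} (c : Ch β) :
    ELa_fst β α (tn c (single [] 1)) = c := by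
  have h : (ELa_fst β α ∘ₗ ((tn : Ch β →ₗ[ℤ] Ch α →ₗ[ℤ] Ch2 β α).flip (single [] 1))) =
      LinearMap.id := by
    apply Ch.ext_lin
    intro s
    change ELa_fst β α (tn (single s 1) (single [] 1)) = single s 1
    rw [tn_single, mul_one, ELa_fst_nil]
  exact LinearMap.congr_fun h c

theorem ELa_fst_tn_cons {β α : Type} (c : Ch β) (a : α) (l : List α) :
    ELa_fst β α (tn c (single (a :: l) 1)) = 0 := by
  have h : (ELa_fst β α ∘ₗ ((tn : Ch β →ₗ[ℤ] Ch α →ₗ[ℤ] Ch2 β α).flip (single (a :: l) 1))) =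
      0 := by
    apply Ch.ext_lin
    intro s
    change ELa_fst β α (tn (single s 1) (single (a :: l) 1)) = 0
    rw [tn_single, mul_one, ELa_fst_cons]
  exact LinearMap.congr_fun h c

theorem ELa_fst_aL2 {H : Type} [Group H] {α β : Type} [MulAction H α] [MulAction H β] (n : H)
    (x : Ch2 β α) : ELa_fst β α (aL2 n x) = aL n (ELa_fst β α x) := by
  refine bc_ext (f := ELa_fst β α ∘ₗ aL2 n) (g := aL n ∘ₗ ELa_fst β α) ?_ x
  intro s l
  change ELa_fst β α (aL2 n (tn (single s 1) (single l 1))) =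
    aL n (ELa_fst β α (tn (single s 1) (single l 1)))
  cases l with
  | nil => rw [bc_aL2_tn, ELa_aL_nil, ELa_fst_tn_nil, ELa_fst_tn_nil]
  | cons a l =>
    rw [bc_aL2_tn, ELa_fst_tn_cons, map_zero, aL_single n (a :: l), List.map_cons, ELa_fst_tn_cons]

theorem ELa_fst_d1 {α β : Type}
    (x : Ch2 β α) : ELa_fst β α (d1 x) = bd (ELa_fst β α x) := by
  refine bc_ext (f := ELa_fst β α ∘ₗ d1) (g := bd ∘ₗ ELa_fst β α) ?_ x
  intro s l
  change ELa_fst β α (d1 (tn (single s 1) (single l 1))) =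
    bd (ELa_fst β α (tn (single s 1) (single l 1)))
  cases l with
  | nil => rw [bc_d1_tn, ELa_fst_tn_nil, ELa_fst_tn_nil]
  | cons a l => rw [bc_d1_tn, ELa_fst_tn_cons, ELa_fst_tn_cons, map_zero]

theorem lhs_rows (p q : ℕ) {x : Ch2 (Γ ⧸ K) Γ} (hx : x ∈ S2 (Γ ⧸ K) Γ p (q + 1))
    (hd : d1 x ∈ K2 Γ (Γ ⧸ K) Γ) :
    ∃ y ∈ S2 (Γ ⧸ K) Γ (p + 1) (q + 1), d1 y - x ∈ K2 Γ (Γ ⧸ K) Γ := by
  refine Tor.rows (⊤ : Subgroup Γ) (fun n _ a h => ?_) Set.univ (fun _ _ _ => trivial) p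
    (fun z hz hb => ?_) q x hx hd
  · rw [smul_eq_mul] at h
    exact mul_eq_right.1 h
  · refine ⟨cone ((1 : Γ) : Γ ⧸ K) z, ?_, ?_⟩
    · refine cone_mem_Sup (S := Len Set.univ p) (T := Len Set.univ (p + 1)) _ ?_ hz
      rintro l ⟨-, hl⟩
      exact ⟨trivial, by rw [List.length_cons, hl]⟩
    · rw [bd_cone, hb, map_zero, sub_zero]

theorem lhs_base (n : ℕ) (h : HLf (⊤ : Subgroup Γ) Γ n) :
    RF (Z2 Γ (Γ ⧸ K) Γ 0 n) (B2 Γ (Γ ⧸ K) Γ 0 n) := by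
  have hX : ∀ {w : Ch Γ}, w ∈ Sup (Len Set.univ (n + 1)) →
      tn (single [] 1) w ∈ S2 (Γ ⧸ K) Γ 0 (n + 1) := fun hw => tn_mem ELa_nil_mem hw
  have hf : ∀ (g : Γ) (x : Ch Γ), tn (single [] 1 : Ch (Γ ⧸ K)) (aL g x) =
      aL2 g (tn (single [] 1) x) := by
    intro g x
    rw [bc_aL2_tn, ELa_aL_nil]
  refine RF.map (Z := ZL (⊤ : Subgroup Γ) Γ n) (B := BL (⊤ : Subgroup Γ) Γ n)
    (tn (single [] 1 : Ch (Γ ⧸ K)) : Ch Γ →ₗ[ℤ] Ch2 (Γ ⧸ K) Γ) ?_ ?_ h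
  · intro x hx
    rw [mem_Z2] at hx
    obtain ⟨hx1, -, hx2⟩ := hx
    have e : tn (single [] 1 : Ch (Γ ⧸ K)) (ELa_snd (Γ ⧸ K) Γ x) = x := by
      refine ELa_S2_ext (p := 0) (q := n) ((tn (single [] 1 : Ch (Γ ⧸ K))) ∘ₗ ELa_snd (Γ ⧸ K) Γ)
        LinearMap.id ?_ hx1
      intro s l hs hl
      have hs' : s = [] := List.length_eq_zero_iff.1 hs
      subst hs'
      change tn (single [] 1) (ELa_snd (Γ ⧸ K) Γ (single ([], l) 1)) = single ([], l) 1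
      rw [ELa_snd_single, tn_single, mul_one]
    refine Submodule.mem_sup_left (Submodule.mem_map.2 ⟨ELa_snd (Γ ⧸ K) Γ x, ?_, e⟩)
    rw [mem_ZL]
    constructor
    · refine bc_map_supp (ELa_snd (Γ ⧸ K) Γ) _ ?_ hx1
      rintro ⟨s, l⟩ ⟨-, h3⟩
      rw [ELa_snd_single]
      exact single_mem_Sup (S := Len Set.univ n) ⟨trivial, h3⟩ 1
    · rw [← ELa_snd_d2]
      exact ELa_KL_of (ELa_snd (Γ ⧸ K) Γ) ELa_snd_aL2 hx2
  · rw [Submodule.map_le_iff_le_comap]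
    intro z hz
    rw [mem_BL] at hz
    obtain ⟨w, hw, hk⟩ := hz
    rw [Submodule.mem_comap, mem_B2]
    have hd : d1 (tn (single [] 1 : Ch (Γ ⧸ K)) w) = 0 := by
      rw [bc_d1_tn, ELa_bd_nil, map_zero, LinearMap.zero_apply]
    obtain ⟨Y, hY, hYd⟩ := lhs_rows (K := K) 0 n (hX hw) (by rw [hd]; exact Submodule.zero_mem _)
    refine ⟨d2 Y, bc_Sup_d2 hY, ?_, ?_⟩
    · rw [bc_d2_d2]
      exact Submodule.zero_mem _
    · have e : tn (single [] 1 : Ch (Γ ⧸ K)) z - d1 (d2 Y) =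
          tn (single [] 1 : Ch (Γ ⧸ K)) (z - bd w) - d2 (d1 Y - tn (single [] 1 : Ch (Γ ⧸ K)) w) := by
        rw [map_sub, map_sub, bc_d2_tn, bc_d1_d2]
        abel
      rw [e]
      exact Submodule.sub_mem _ (ELa_KL2_of (tn (single [] 1 : Ch (Γ ⧸ K))) hf hk)
        (bc_KL2_d2 _ hYd)

theorem lhs_end (n : ℕ) (h : RF (Z2 Γ (Γ ⧸ K) Γ n 0) (B2 Γ (Γ ⧸ K) Γ n 0)) :
    HLf (⊤ : Subgroup Γ) (Γ ⧸ K) n := by
  have hf : ∀ (g : Γ) (x : Ch (Γ ⧸ K)), (tn : Ch (Γ ⧸ K) →ₗ[ℤ] Ch Γ →ₗ[ℤ] Ch2 (Γ ⧸ K) Γ).flip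
      (single [] 1) (aL g x) = aL2 g ((tn : Ch (Γ ⧸ K) →ₗ[ℤ] Ch Γ →ₗ[ℤ] Ch2 (Γ ⧸ K) Γ).flip
      (single [] 1) x) := by
    intro g x
    change tn (aL g x) (single [] 1) = aL2 g (tn x (single [] 1))
    rw [bc_aL2_tn, ELa_aL_nil]
  refine RF.map (Z := Z2 Γ (Γ ⧸ K) Γ n 0) (B := B2 Γ (Γ ⧸ K) Γ n 0) (ELa_fst (Γ ⧸ K) Γ) ?_ ?_ h
  · intro c hc
    rw [mem_ZL] at hc
    refine Submodule.mem_sup_left (Submodule.mem_map.2 ⟨tn c (single [] 1), ?_, ELa_fst_tn_nil c⟩)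
    rw [mem_Z2]
    refine ⟨tn_mem hc.1 ELa_nil_mem, ?_, ?_⟩
    · rw [bc_d1_tn]
      exact ELa_KL2_of ((tn : Ch (Γ ⧸ K) →ₗ[ℤ] Ch Γ →ₗ[ℤ] Ch2 (Γ ⧸ K) Γ).flip (single [] 1)) hf hc.2
    · rw [bc_d2_tn, ELa_bd_nil, map_zero]
      exact Submodule.zero_mem _
  · rw [Submodule.map_le_iff_le_comap]
    intro x hx
    rw [mem_B2] at hx
    obtain ⟨y, hy, -, hk⟩ := hx
    rw [Submodule.mem_comap, mem_BL]
    refine ⟨ELa_fst (Γ ⧸ K) Γ y, ?_, ?_⟩
    · refine bc_map_supp (ELa_fst (Γ ⧸ K) Γ) _ ?_ hy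
      rintro ⟨s, l⟩ ⟨⟨-, h2⟩, h3⟩
      have hl : l = [] := List.length_eq_zero_iff.1 h3
      subst hl
      rw [ELa_fst_nil]
      exact single_mem_Sup (S := Len Set.univ (n + 1)) ⟨trivial, h2⟩ 1
    · rw [← ELa_fst_d1, ← map_sub]
      exact ELa_KL_of (ELa_fst (Γ ⧸ K) Γ) ELa_fst_aL2 hk

end TorE
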