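import Pool.Agent.Lib.MP_05cdf2_gt.E.ELa
import Pool.Agent.Lib.MP_05cdf2_gt.E.EE

/-! MP_05cdf2_gt, stream E, job ELb: the induction. `G p q` means `RF (Z2 p q) (B2 p q)`.

`lhs_step`: `G p (q+1)` and `ee` give `G (p+1) q`: `RF.trans` with `B' = B2 (p+1) q ⊔ D2 (p+1) q`. `RF (Z2 (p+1) q ⊓ B') (B2 (p+1) q)`: `RF.rel`
with `R = {(X, V) | ∃ W ∈ S2 (p+1) (q+1), X - d2 W ∈ B2 (p+1) q ∧ V = d1 W}`. h1: `X = b + d2 W` mod `K2`, `V = d1 W ∈ S2 p (q+1)`, `d1 V = 0`,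
`d2 V = d1 (d2 W) ∈ K2` because `d1 X ∈ K2` and `d1 b ∈ K2` for `b ∈ B2`. h2: `V = d1 W`, `V - d1 Y ∈ K2`, `Y ∈ S2 (p+1) (q+1)`, `d2 Y ∈ K2`;
`lhs_rows` for `W - Y`: `W - Y - d1 U ∈ K2`, `U ∈ S2 (p+2) (q+1)`; `d2 W ≡ d2 Y + d1 (d2 U)` and `d2 U ∈ S2 (p+2) q`, `d2 (d2 U) = 0`. So
`d2 W ∈ B2 (p+1) q` and `X ∈ B2`.
`lhs`: strong induction on `n`: `HLf ⊤ (Γ ⧸ K) p` for `p < n`; then `G i (n - i)` for all `i ≤ n` by induction on `i`: `lhs_base`, `lhs_step`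
with `ee i (n - i - 1)` (if `2 ≤ n - i - 1` then `i + 1 < n`); `lhs_end`. -/

set_option autoImplicit false

namespace TorE
open Finsupp Tor

variable {Γ : Type} [Group Γ] {K : Subgroup Γ}

theorem ELb_closed {β : Type} : Closed (Set.univ : Set (List β)) := fun _ _ _ _ => trivial

theorem ELb_K2_le_B2 {H : Type} [Group H] {β α : Type} [MulAction H α] [MulAction H β] (p q : ℕ) :
    K2 H β α ≤ B2 H β α p q := le_sup_right

theorem ELb_d1_B2 {H : Type} [Group H] {β α : Type} [MulAction H α] [MulAction H β] {p q : ℕ}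
    {x : Ch2 β α} (hx : x ∈ B2 H β α p q) : d1 x ∈ K2 H β α := by
  rw [mem_B2] at hx
  obtain ⟨y, -, -, hk⟩ := hx
  have h := bc_KL2_d1 _ hk
  rw [map_sub, bc_d1_d1, sub_zero] at h
  exact h

/-- the relation of the step -/
noncomputable def ELb_R (H : Type) [Group H] (β α : Type) [MulAction H α] [MulAction H β] (p q : ℕ) :
    Submodule ℤ (Ch2 β α × Ch2 β α) where
  carrier := {z | ∃ W ∈ S2 β α (p + 1) (q + 1), z.1 - d2 W ∈ B2 H β α (p + 1) q ∧ z.2 = d1 W}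
  add_mem' := by
    rintro ⟨a, b⟩ ⟨c, d⟩ ⟨W, hW, h1, h2⟩ ⟨W', hW', h1', h2'⟩
    refine ⟨W + W', Submodule.add_mem _ hW hW', ?_, ?_⟩
    · have e : (a + c) - d2 (W + W') = (a - d2 W) + (c - d2 W') := by
        rw [map_add]
        abel
      change (a + c) - d2 (W + W') ∈ B2 H β α (p + 1) q
      rw [e]
      exact Submodule.add_mem _ h1 h1'
    · change b + d = d1 (W + W')
      rw [map_add]
      change b = d1 W at h2
      change d = d1 W' at h2'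
      rw [h2, h2']
  zero_mem' := ⟨0, Submodule.zero_mem _, by
    change (0 : Ch2 β α) - d2 0 ∈ B2 H β α (p + 1) q
    rw [map_zero, sub_zero]
    exact Submodule.zero_mem _, by
    change (0 : Ch2 β α) = d1 0
    rw [map_zero]⟩
  smul_mem' := by
    rintro n ⟨a, b⟩ ⟨W, hW, h1, h2⟩
    refine ⟨n • W, Submodule.smul_mem _ n hW, ?_, ?_⟩
    · change n • a - d2 (n • W) ∈ B2 H β α (p + 1) q
      rw [map_smul, ← smul_sub]
      exact Submodule.smul_mem _ n h1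
    · change n • b = d1 (n • W)
      rw [map_smul]
      change b = d1 W at h2
      rw [h2]

theorem ELb_mem_R {H : Type} [Group H] {β α : Type} [MulAction H α] [MulAction H β] {p q : ℕ}
    {x v : Ch2 β α} : (x, v) ∈ ELb_R H β α p q ↔
      ∃ W ∈ S2 β α (p + 1) (q + 1), x - d2 W ∈ B2 H β α (p + 1) q ∧ v = d1 W := Iff.rfl

theorem lhs_step (p q : ℕ) (h : RF (Z2 Γ (Γ ⧸ K) Γ p (q + 1)) (B2 Γ (Γ ⧸ K) Γ p (q + 1)))
    (he : RF (Z2 Γ (Γ ⧸ K) Γ (p + 1) q) (B2 Γ (Γ ⧸ K) Γ (p + 1) q ⊔ D2 Γ (Γ ⧸ K) Γ (p + 1) q)) :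
    RF (Z2 Γ (Γ ⧸ K) Γ (p + 1) q) (B2 Γ (Γ ⧸ K) Γ (p + 1) q) := by
  refine RF.trans le_sup_left he ?_
  refine RF.rel (ELb_R Γ (Γ ⧸ K) Γ p q) ?_ ?_ h
  · intro x hx
    obtain ⟨hx1, hx2⟩ := Submodule.mem_inf.1 hx
    rw [mem_Z2] at hx1
    obtain ⟨b, hb, d, hd, rfl⟩ := Submodule.mem_sup.1 hx2
    rw [mem_D2] at hd
    obtain ⟨W, hW, hk⟩ := hd
    have hB : b + d - d2 W ∈ B2 Γ (Γ ⧸ K) Γ (p + 1) q := by
      rw [add_sub_assoc]
      exact Submodule.add_mem _ hb (ELb_K2_le_B2 _ _ hk)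
    refine ⟨d1 W, ?_, ELb_mem_R.2 ⟨W, hW, hB, rfl⟩⟩
    rw [mem_Z2]
    refine ⟨bc_Sup_d1 ELb_closed hW, ?_, ?_⟩
    · rw [bc_d1_d1]
      exact Submodule.zero_mem _
    · rw [← bc_d1_d2]
      have h1 := ELb_d1_B2 hB
      rw [map_sub] at h1
      have e : d1 (d2 W) = d1 (b + d) - (d1 (b + d) - d1 (d2 W)) := by abel
      rw [e]
      exact Submodule.sub_mem _ hx1.2.1 h1
  · intro x hx v hv hR
    obtain ⟨W, hW, hB, rfl⟩ := ELb_mem_R.1 hR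
    rw [mem_B2] at hv
    obtain ⟨Y, hY, hY2, hYk⟩ := hv
    have hWY : W - Y ∈ S2 (Γ ⧸ K) Γ (p + 1) (q + 1) := Submodule.sub_mem _ hW hY
    obtain ⟨U, hU, hUk⟩ := lhs_rows (K := K) (p + 1) q hWY (by rw [map_sub]; exact hYk)
    have h1 := bc_KL2_d2 _ hUk
    have h2 : d2 W ∈ B2 Γ (Γ ⧸ K) Γ (p + 1) q := by
      rw [mem_B2]
      refine ⟨d2 U, bc_Sup_d2 hU, ?_, ?_⟩
      · rw [bc_d2_d2]
        exact Submodule.zero_mem _
      · have e : d2 W - d1 (d2 U) = d2 Y - d2 (d1 U - (W - Y)) := by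
          rw [bc_d1_d2, map_sub, map_sub]
          abel
        rw [e]
        exact Submodule.sub_mem _ hY2 h1
    have e : x = (x - d2 W) + d2 W := by abel
    rw [e]
    exact Submodule.add_mem _ hB h2

theorem lhs [K.Normal] (n : ℕ) (hΓ : ∀ q ≤ n, HLf (⊤ : Subgroup Γ) Γ q) (hK : ∀ q ≤ n, HLf K Γ q)
    (hT : ∀ q ≤ n, ∀ γ : Γ, ∀ z ∈ ZL K Γ q, aL γ z - z ∈ BL K Γ q) :
    HLf (⊤ : Subgroup Γ) (Γ ⧸ K) n := by
  induction n using Nat.strong_induction_on with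
  | _ n ih =>
    have ih' : ∀ m < n, HLf (⊤ : Subgroup Γ) (Γ ⧸ K) m := fun m hm =>
      ih m hm (fun q hq => hΓ q (by omega)) (fun q hq => hK q (by omega)) (fun q hq => hT q (by omega))
    have key : ∀ i q : ℕ, i + q = n → RF (Z2 Γ (Γ ⧸ K) Γ i q) (B2 Γ (Γ ⧸ K) Γ i q) := by
      intro i
      induction i with
      | zero =>
        intro q hq
        exact lhs_base q (hΓ q (by omega))
      | succ i ihi =>
        intro q hq
        exact lhs_step i q (ihi (q + 1) (by omega)) (ee i q (hK q (by omega)) (hT q (by omega))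
          (fun h2 => ih' (i + 1) (by omega)) (fun h2 => ih' i (by omega)))
    exact lhs_end n (key n 0 (by omega))

end TorE
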