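import Pool.Agent.Lib.MP_05cdf2_gt.E.ELb
import Pool.Agent.Lib.MP_05cdf2_gt.E.ECvA
import Pool.Agent.Lib.MP_05cdf2_gt.E.ECvB
import Pool.Agent.Lib.MP_05cdf2_gt.D.DMain
import Pool.Agent.Lib.MP_05cdf2_gt.B.GrpA

/-! MP_05cdf2_gt, stream E, job EMain: the theorem in terms of `HIF`.

`HIF_iso`: `HLf_of_HIF`, `HLf_iso`, `HIF_of_HLf`.
`HIF_quot`: `HLf` for `q = 0` is `HLf_zero`. `lhs` with `n = j + 1`: `hΓ` from `HLf_of_HIF`, `hK` from `HLf_of_HIF` and `HLf_sub`, `hT` from `T_conj`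
(for `q = 0` too: `T_conj` holds for all `q`; hypothesis for all `q ≤ k + 1`). Then `HLf_quot`, `HIF_of_HLf`.
`HIF_quot_central`: the same with `T_central`.
`HIF_of_GFP`: `D_main` for `N = ⊤`, `l = []` (`G ⧸ ⊤` is a trivial group, `GFP.trivial`; `q = 1 = [].prod`), it gives `HIF (⊤ : Subgroup G) j`;
`HIF_iso Subgroup.topEquiv`. -/

set_option autoImplicit false

namespace TorE
open Finsupp Tor

theorem HIF_iso {G G' : Type} [Group G] [Group G'] (e : G ≃* G') (j : ℕ) (h : HIF G j) : HIF G' j := by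
  exact HIF_of_HLf j (HLf_iso e (j + 1) (HLf_of_HIF j h))

theorem EMain_core {Γ : Type} [Group Γ] (K : Subgroup Γ) [K.Normal] (k : ℕ) (hΓ : ∀ j ≤ k, HIF Γ j)
    (hK : ∀ j ≤ k, HIF K j) (hT : ∀ q ≤ k + 1, ∀ γ : Γ, ∀ z ∈ ZL K Γ q, aL γ z - z ∈ BL K Γ q) :
    ∀ j ≤ k, HIF (Γ ⧸ K) j := by
  intro j hj
  have hΓ' : ∀ q ≤ j + 1, HLf (⊤ : Subgroup Γ) Γ q := by
    intro q hq
    cases q with
    | zero => exact HLf_zero _
    | succ q => exact HLf_of_HIF q (hΓ q (by omega))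
  have hK' : ∀ q ≤ j + 1, HLf K Γ q := by
    intro q hq
    cases q with
    | zero => exact HLf_zero _
    | succ q => exact HLf_sub K (q + 1) (HLf_of_HIF q (hK q (by omega)))
  exact HIF_of_HLf j (HLf_quot K (j + 1) (lhs (j + 1) hΓ' hK' (fun q hq => hT q (by omega))))

theorem HIF_quot {Γ : Type} [Group Γ] (K : Subgroup Γ) [K.Normal] (k : ℕ) (hΓ : ∀ j ≤ k, HIF Γ j)
    (hK : ∀ j ≤ k, HIF K j) (hT : ∀ γ : Γ, ∀ q ≤ k + 1, ∀ z ∈ ZL (⊤ : Subgroup K) K q,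
      mp (MulAut.conjNormal γ : K ≃* K) z - z ∈ BL (⊤ : Subgroup K) K q) : ∀ j ≤ k, HIF (Γ ⧸ K) j := by
  exact EMain_core K k hΓ hK (fun q hq γ z hz => T_conj K q γ (hT γ q hq) z hz)

theorem HIF_quot_central {Γ : Type} [Group Γ] (K : Subgroup Γ) [K.Normal] (k : ℕ) (hΓ : ∀ j ≤ k, HIF Γ j)
    (hK : ∀ j ≤ k, HIF K j) (hc : ∀ γ : Γ, ∀ z ∈ K, γ * z = z * γ) : ∀ j ≤ k, HIF (Γ ⧸ K) j := by
  exact EMain_core K k hΓ hK (fun q _ γ z hz => T_central K hc q γ z hz)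

theorem HIF_of_GFP {G : Type} [Group G] (h : GFP G) (j : ℕ) : HIF G j := by
  haveI : Subsingleton (G ⧸ (⊤ : Subgroup G)) := QuotientGroup.subsingleton_quotient_top
  have h1 : HIF (⊤ : Subgroup G) j := (D_main (⊤ : Subgroup G) j h (GFP.trivial _) []
    (fun q => ⟨[], rfl, Subsingleton.elim _ _⟩) (fun t ht => absurd ht List.not_mem_nil)).1 j le_rfl
  exact HIF_iso Subgroup.topEquiv j h1

end TorE
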