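import Pool.Agent.Lib.MP_05cdf2_gt.E.EDef

/-! MP_05cdf2_gt, stream E, job ERF: relative finite generation. `RF Z B` is `(Z.map B.mkQ).FG` (`ℤ` is Noetherian).

`mono_left`: submodule of a finitely generated `ℤ`-module (`Submodule.FG.of_le`, or `isNoetherian` of the FG submodule).
`mono_right`: `Z.map B'.mkQ` is the image of `Z.map B.mkQ` under `M / B → M / B'` (`Submodule.factor` or `Submodule.mapQ`).
`trans`: `Submodule.fg_of_fg_map_of_fg_inf_ker` for `f : M / B → M / B'` and `Z.map B.mkQ`: the image is `Z.map B'.mkQ`, and the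
intersection with the kernel is `(Z ⊓ B').map B.mkQ` (if `z ∈ Z` maps to `0` in `M / B'` then `z ∈ B'`).
`iff`: lift finitely many generators of `Z.map B.mkQ` to `Z`. Conversely the classes of `s` generate.
`rel`: let `R' = {(z, z') ∈ R, z ∈ Z, z' ∈ Z'}`. The image of `R'` in `M' / B'` (second coordinate) is contained in `Z'.map B'.mkQ`, so it
is finitely generated: choose `(z_t, z'_t) ∈ R'`, finitely many, whose classes generate the image. For `z ∈ Z` choose `z' ∈ Z'` with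
`(z, z') ∈ R`; `z' - ∑ n_t z'_t ∈ B'`, so `z - ∑ n_t z_t ∈ B` by `h2`. Now use `iff`. -/

set_option autoImplicit false

namespace TorE
open Finsupp Tor

variable {M M' : Type} [AddCommGroup M] [AddCommGroup M']

theorem RF.mono_left {Z Z' B : Submodule ℤ M} (h : Z' ≤ Z) (H : RF Z B) : RF Z' B := by
  unfold RF at H ⊢
  exact Submodule.FG.of_le H (Submodule.map_mono h)

theorem RF.mono_right {Z B B' : Submodule ℤ M} (h : B ≤ B') (H : RF Z B) : RF Z B' := by
  unfold RF at H ⊢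
  have h1 : Z.map B'.mkQ = (Z.map B.mkQ).map (Submodule.factor h) := by
    rw [← Submodule.map_comp]
    congr 1
  rw [h1]
  exact H.map _

theorem RF.of_le {Z B : Submodule ℤ M} (h : Z ≤ B) : RF Z B := by
  unfold RF
  have h1 : Z.map B.mkQ = ⊥ := by
    rw [eq_bot_iff]
    rintro _ ⟨z, hz, rfl⟩
    exact (Submodule.mem_bot ℤ).2 ((Submodule.Quotient.mk_eq_zero B).2 (h hz))
  rw [h1]
  exact Submodule.fg_bot

theorem RF.of_fg {Z B : Submodule ℤ M} (h : Z.FG) : RF Z B := by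
  unfold RF
  exact h.map _

theorem RF.sup {Z Z' B : Submodule ℤ M} (H : RF Z B) (H' : RF Z' B) : RF (Z ⊔ Z') B := by
  unfold RF at H H' ⊢
  rw [Submodule.map_sup]
  exact H.sup H'

theorem RF.iff {Z B : Submodule ℤ M} : RF Z B ↔ ∃ s : Finset M, (∀ z ∈ s, z ∈ Z) ∧
    ∀ z ∈ Z, ∃ y ∈ Submodule.span ℤ (s : Set M), z - y ∈ B := by
  constructor
  · intro H
    unfold RF at H
    obtain ⟨t, ht⟩ := H
    have h1 : ∀ x ∈ t, ∃ z ∈ Z, B.mkQ z = x := by
      intro x hx
      have h2 : x ∈ Z.map B.mkQ := by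
        rw [← ht]
        exact Submodule.subset_span hx
      exact Submodule.mem_map.1 h2
    choose! g hg1 hg2 using h1
    classical
    refine ⟨t.image g, ?_, ?_⟩
    · intro z hz
      obtain ⟨x, hx, rfl⟩ := Finset.mem_image.1 hz
      exact hg1 x hx
    · intro z hz
      have h3 : (Submodule.span ℤ ((t.image g : Finset M) : Set M)).map B.mkQ = Z.map B.mkQ := by
        rw [← ht, Submodule.map_span, Finset.coe_image, ← Set.image_comp]
        congr 1
        ext x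
        simp only [Set.mem_image, Function.comp]
        constructor
        · rintro ⟨y, hy, rfl⟩
          rw [hg2 y hy]
          exact hy
        · intro hx
          exact ⟨x, hx, hg2 x hx⟩
      have h4 : B.mkQ z ∈ (Submodule.span ℤ ((t.image g : Finset M) : Set M)).map B.mkQ := by
        rw [h3]
        exact Submodule.mem_map_of_mem hz
      obtain ⟨y, hy, hyz⟩ := Submodule.mem_map.1 h4
      refine ⟨y, hy, ?_⟩
      rw [← Submodule.Quotient.mk_eq_zero, Submodule.Quotient.mk_sub]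
      exact sub_eq_zero.2 hyz.symm
  · rintro ⟨s, h1, h2⟩
    unfold RF
    classical
    refine ⟨s.image B.mkQ, ?_⟩
    rw [Finset.coe_image, ← Submodule.map_span]
    apply le_antisymm
    · exact Submodule.map_mono (Submodule.span_le.2 fun z hz => h1 z hz)
    · rintro _ ⟨z, hz, rfl⟩
      obtain ⟨y, hy, hzy⟩ := h2 z hz
      refine ⟨y, hy, ?_⟩
      rw [← Submodule.Quotient.mk_eq_zero, Submodule.Quotient.mk_sub] at hzy
      exact (sub_eq_zero.1 hzy).symm

theorem RF.iff_closure {Z B : Submodule ℤ M} : RF Z B ↔ ∃ s : Finset M, (∀ z ∈ s, z ∈ Z) ∧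
    ∀ z ∈ Z, ∃ y ∈ AddSubgroup.closure (s : Set M), z - y ∈ B := by
  rw [RF.iff]
  have h1 : ∀ (s : Finset M) (y : M), y ∈ AddSubgroup.closure (s : Set M) ↔
      y ∈ Submodule.span ℤ (s : Set M) := by
    intro s y
    rw [← Submodule.span_int_eq_addSubgroupClosure]
    rfl
  simp only [h1]

theorem RF.trans {Z B B' : Submodule ℤ M} (hB : B ≤ B') (H : RF Z B') (H' : RF (Z ⊓ B') B) : RF Z B := by
  rw [RF.iff] at H H' ⊢
  obtain ⟨s, hs1, hs2⟩ := H
  obtain ⟨t, ht1, ht2⟩ := H'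
  classical
  refine ⟨s ∪ t, ?_, ?_⟩
  · intro z hz
    rcases Finset.mem_union.1 hz with h | h
    · exact hs1 z h
    · exact (ht1 z h).1
  · intro z hz
    obtain ⟨y, hy, hzy⟩ := hs2 z hz
    have hyZ : y ∈ Z := Submodule.span_le.2 (fun w hw => hs1 w hw) hy
    obtain ⟨y', hy', hzy'⟩ := ht2 (z - y) ⟨Z.sub_mem hz hyZ, hzy⟩
    refine ⟨y + y', ?_, ?_⟩
    · rw [Finset.coe_union, Submodule.span_union]
      exact Submodule.add_mem_sup hy hy'
    · rw [← sub_sub]
      exact hzy'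

theorem RF.map {Z B : Submodule ℤ M} {Z' B' : Submodule ℤ M'} (f : M →ₗ[ℤ] M') (hZ : Z' ≤ Z.map f ⊔ B')
    (hB : B.map f ≤ B') (H : RF Z B) : RF Z' B' := by
  have h1 : RF (Z.map f) B' := by
    rw [RF.iff] at H ⊢
    obtain ⟨s, hs1, hs2⟩ := H
    classical
    refine ⟨s.image f, ?_, ?_⟩
    · intro z hz
      obtain ⟨x, hx, rfl⟩ := Finset.mem_image.1 hz
      exact Submodule.mem_map_of_mem (hs1 x hx)
    · rintro _ ⟨z, hz, rfl⟩
      obtain ⟨y, hy, hzy⟩ := hs2 z hz
      refine ⟨f y, ?_, ?_⟩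
      · rw [Finset.coe_image, ← Submodule.map_span]
        exact Submodule.mem_map_of_mem hy
      · rw [← map_sub]
        exact hB (Submodule.mem_map_of_mem hzy)
  exact RF.mono_left hZ (RF.sup h1 (RF.of_le le_rfl))

theorem RF.rel {Z B : Submodule ℤ M} {Z' B' : Submodule ℤ M'} (R : Submodule ℤ (M × M'))
    (h1 : ∀ z ∈ Z, ∃ z' ∈ Z', (z, z') ∈ R)
    (h2 : ∀ z ∈ Z, ∀ z' ∈ B', (z, z') ∈ R → z ∈ B) (H : RF Z' B') : RF Z B := by
  have hP : RF ((R ⊓ Z.prod Z').map (LinearMap.snd ℤ M M')) B' := by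
    refine RF.mono_left ?_ H
    rintro _ ⟨x, hx, rfl⟩
    exact (Submodule.mem_prod.1 hx.2).2
  rw [RF.iff] at hP ⊢
  obtain ⟨s, hs1, hs2⟩ := hP
  have hg : ∀ x ∈ s, ∃ z ∈ Z, (z, x) ∈ R := by
    intro x hx
    obtain ⟨y, hy, hyx⟩ := hs1 x hx
    refine ⟨y.1, (Submodule.mem_prod.1 hy.2).1, ?_⟩
    rw [← hyx]
    exact hy.1
  choose! g hg1 hg2 using hg
  classical
  have hspan : ∀ y ∈ Submodule.span ℤ (s : Set M'),
      ∃ y' ∈ Submodule.span ℤ ((s.image g : Finset M) : Set M), (y', y) ∈ R := by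
    intro y hy
    induction hy using Submodule.span_induction with
    | mem x hx =>
      refine ⟨g x, Submodule.subset_span ?_, hg2 x hx⟩
      exact Finset.mem_coe.2 (Finset.mem_image_of_mem g hx)
    | zero => exact ⟨0, Submodule.zero_mem _, R.zero_mem⟩
    | add a b _ _ ha hb =>
      obtain ⟨a', ha1, ha2⟩ := ha
      obtain ⟨b', hb1, hb2⟩ := hb
      exact ⟨a' + b', Submodule.add_mem _ ha1 hb1, R.add_mem ha2 hb2⟩
    | smul c a _ ha =>
      obtain ⟨a', ha1, ha2⟩ := ha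
      exact ⟨c • a', Submodule.smul_mem _ c ha1, R.smul_mem c ha2⟩
  have hsZ : Submodule.span ℤ ((s.image g : Finset M) : Set M) ≤ Z := by
    refine Submodule.span_le.2 fun w hw => ?_
    obtain ⟨x, hx, rfl⟩ := Finset.mem_image.1 (Finset.mem_coe.1 hw)
    exact hg1 x hx
  refine ⟨s.image g, fun z hz => hsZ (Submodule.subset_span hz), ?_⟩
  intro z hz
  obtain ⟨z', hz', hR⟩ := h1 z hz
  obtain ⟨y, hy, hzy⟩ := hs2 z' ⟨(z, z'), ⟨hR, Submodule.mem_prod.2 ⟨hz, hz'⟩⟩, rfl⟩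
  obtain ⟨y', hy', hyR⟩ := hspan y hy
  exact ⟨y', hy', h2 (z - y') (Z.sub_mem hz (hsZ hy')) (z' - y) hzy (R.sub_mem hR hyR)⟩

end TorE
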