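import Pool.Agent.Lib.MP_05cdf2_gt.E.ERF
import Pool.Agent.Lib.MP_05cdf2_gt.E.ETf

/-! MP_05cdf2_gt, stream E, job EUa: homology with coefficients in a cyclic group is finitely generated.

`β` a set with an action of `H`, `KL = KL ⊤ β`. `ZC d p`: chains `x` of length `p + 1` with `bd x ∈ d • e + KL` for some `e`.
`BC d p`: chains congruent to `bd u + d • v`. Claim: `RF (ZC d p) (BC d p)` if `HLf ⊤ β (p + 1)` and `HLf ⊤ β p`.

`d = 0`: `ZC 0 p ≤ ZL ⊤ β (p + 1)` and `BL ⊤ β (p + 1) ≤ BC 0 p`.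
`d ≠ 0`: let `R` be the submodule of the pairs `(x, e)` with `bd x - d • e ∈ KL`. For `x ∈ ZC d p` the `e` may be replaced by `lenP p e` (`lenP_KL`,
`lenP_of_mem`, `Sup_bd`), so `e ∈ Sup (Len univ p)`; `d • bd e = bd (d • e - bd x) ∈ KL` (`bd_bd`, `KL_bd`), so `bd e ∈ KL` by `KL_tf`: `e ∈ ZL ⊤ β p`.
If `(x, e) ∈ R` with `e ∈ BL ⊤ β p`, `e - bd u ∈ KL`, `u ∈ Sup (Len univ (p + 1))`, then `bd (x - d • u) ∈ KL`, so
`x ∈ ZL ⊤ β (p + 1) ⊔ BC d p`. So `RF.rel` gives `RF (ZC d p) (ZL ⊤ β (p + 1) ⊔ BC d p)`. Finally `RF.trans` with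
`B' = ZL ⊤ β (p + 1) ⊔ BC d p` (`RF.mono_left` to `ZL ⊔ BC`, `RF.sup`, `RF.mono_right`: `BL ⊤ β (p + 1) ≤ BC d p`, `RF.of_le`). -/

set_option autoImplicit false

namespace TorE
open Finsupp Tor

variable {H : Type} [Group H] {β : Type} [MulAction H β]

/-- cycles modulo `d` -/
noncomputable def ZC (H : Type) [Group H] (β : Type) [MulAction H β] (d : ℤ) (p : ℕ) :
    Submodule ℤ (Ch β) where
  carrier := {x | x ∈ Sup (Len Set.univ (p + 1)) ∧ ∃ e : Ch β, bd x - d • e ∈ KL (⊤ : Subgroup H) β}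
  zero_mem' := ⟨Submodule.zero_mem _, 0, by simp⟩
  add_mem' := by
    rintro x y ⟨hx, e, he⟩ ⟨hy, e', he'⟩
    refine ⟨Submodule.add_mem _ hx hy, e + e', ?_⟩
    have h := Submodule.add_mem _ he he'
    have h2 : bd (x + y) - d • (e + e') = bd x - d • e + (bd y - d • e') := by
      rw [map_add, smul_add]
      abel
    rw [h2]
    exact h
  smul_mem' := by
    rintro n x ⟨hx, e, he⟩
    refine ⟨Submodule.smul_mem _ n hx, n • e, ?_⟩
    have h := Submodule.smul_mem _ n he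
    rw [smul_sub] at h
    rw [map_smul, smul_comm d n e]
    exact h

/-- boundaries modulo `d` -/
noncomputable def BC (H : Type) [Group H] (β : Type) [MulAction H β] (d : ℤ) (p : ℕ) :
    Submodule ℤ (Ch β) :=
  BL (⊤ : Subgroup H) β (p + 1) ⊔
    (Sup (Len (Set.univ : Set (List β)) (p + 1))).map (d • (LinearMap.id : Ch β →ₗ[ℤ] Ch β))

theorem mem_BC {d : ℤ} {p : ℕ} {x : Ch β} : x ∈ BC H β d p ↔
    ∃ u ∈ Sup (Len (Set.univ : Set (List β)) (p + 2)), ∃ v ∈ Sup (Len (Set.univ : Set (List β)) (p + 1)),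
      x - bd u - d • v ∈ KL (⊤ : Subgroup H) β := by
  unfold BC
  rw [Submodule.mem_sup]
  constructor
  · rintro ⟨y, hy, z, hz, rfl⟩
    obtain ⟨w, hw, h⟩ := mem_BL.1 hy
    obtain ⟨v, hv, rfl⟩ := Submodule.mem_map.1 hz
    refine ⟨w, hw, v, hv, ?_⟩
    have e : y + (d • (LinearMap.id : Ch β →ₗ[ℤ] Ch β)) v - bd w - d • v = y - bd w := by
      rw [LinearMap.smul_apply, LinearMap.id_apply]
      abel
    rw [e]
    exact h
  · rintro ⟨u, hu, v, hv, h⟩
    refine ⟨x - d • v, ?_, d • v, ?_, by abel⟩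
    · refine mem_BL.2 ⟨u, hu, ?_⟩
      have e : x - d • v - bd u = x - bd u - d • v := by abel
      rw [e]
      exact h
    · exact Submodule.mem_map.2 ⟨v, hv, by rw [LinearMap.smul_apply, LinearMap.id_apply]⟩

theorem EUa_BL_le (d : ℤ) (p : ℕ) : BL (⊤ : Subgroup H) β (p + 1) ≤ BC H β d p := le_sup_left

theorem EUa_smul_mem {d : ℤ} {p : ℕ} {u : Ch β} (hu : u ∈ Sup (Len (Set.univ : Set (List β)) (p + 1))) :
    d • u ∈ BC H β d p := by
  refine Submodule.mem_sup_right ?_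
  exact Submodule.mem_map.2 ⟨u, hu, by rw [LinearMap.smul_apply, LinearMap.id_apply]⟩

theorem rf_cyclic (d : ℤ) (p : ℕ) (h1 : HLf (⊤ : Subgroup H) β (p + 1)) (h0 : HLf (⊤ : Subgroup H) β p) :
    RF (ZC H β d p) (BC H β d p) := by
  by_cases hd : d = 0
  · subst hd
    refine RF.mono_left ?_ (RF.mono_right (EUa_BL_le 0 p) h1)
    rintro x ⟨hx, e, he⟩
    rw [zero_smul, sub_zero] at he
    exact mem_ZL.2 ⟨hx, he⟩
  · have key : RF (ZC H β d p) (ZL (⊤ : Subgroup H) β (p + 1) ⊔ BC H β d p) := by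
      refine RF.rel ((KL (⊤ : Subgroup H) β).comap
        (bd ∘ₗ LinearMap.fst ℤ (Ch β) (Ch β) - d • LinearMap.snd ℤ (Ch β) (Ch β)))
        (Z' := ZL (⊤ : Subgroup H) β p) (B' := BL (⊤ : Subgroup H) β p) ?_ ?_ h0
      · rintro z ⟨hz, e, he⟩
        have h2 : bd z - d • lenP β p e = lenP β p (bd z - d • e) := by
          rw [map_sub, map_smul, lenP_of_mem (Sup_bd hz)]
        have h3 : bd z - d • lenP β p e ∈ KL (⊤ : Subgroup H) β := by
          rw [h2]
          exact lenP_KL p he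
        refine ⟨lenP β p e, mem_ZL.2 ⟨lenP_mem p e, ?_⟩, ?_⟩
        · refine KL_tf _ hd ?_
          have h4 := KL_bd h3
          rw [map_sub, bd_bd, map_smul, zero_sub] at h4
          exact (Submodule.neg_mem_iff _).1 h4
        · exact h3
      · intro z hz z' hz' hR
        have hR' : bd z - d • z' ∈ KL (⊤ : Subgroup H) β := hR
        obtain ⟨hz1, -⟩ := hz
        obtain ⟨u, hu, h⟩ := mem_BL.1 hz'
        have e : z = (z - d • u) + d • u := by abel
        rw [e]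
        refine Submodule.add_mem _ (Submodule.mem_sup_left (mem_ZL.2 ⟨?_, ?_⟩))
          (Submodule.mem_sup_right (EUa_smul_mem hu))
        · exact Submodule.sub_mem _ hz1 (Submodule.smul_mem _ d hu)
        · have e2 : bd (z - d • u) = (bd z - d • z') + d • (z' - bd u) := by
            rw [map_sub, map_smul, smul_sub]
            abel
          rw [e2]
          exact Submodule.add_mem _ hR' (Submodule.smul_mem _ d h)
    refine RF.trans le_sup_right key ?_
    refine RF.mono_left inf_le_right ?_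
    exact RF.sup (RF.mono_right (EUa_BL_le d p) h1) (RF.of_le le_rfl)

end TorE
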